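import Pool.Agent.Y773.HK.Defs

/-!
# Unitary Hecke characters of number fields: definitions
-/

set_option autoImplicit false

namespace Pool.Agent.N172.HS

open NumberField Complex

variable {K : Type} [Field K] [NumberField K]

/-- `x` is totally positive: it is positive at all the real places. -/
def TotPos (x : 𝓞 K) : Prop := ∀ σ : K →+* ℝ, 0 < σ (x : K)

/-- The archimedean factor `∏ (σ(x) / |σ(x)|) ^ k_σ |σ(x)| ^ (i t_σ)`, the product over all the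
embeddings `σ` of `K` in `ℂ`, with integers `k_σ` and real numbers `t_σ`. -/
noncomputable def arch (k : (K →+* ℂ) → ℤ) (t : (K →+* ℂ) → ℝ) (x : K) : ℂ :=
  ∏ σ : K →+* ℂ, ((σ x / (‖σ x‖ : ℂ)) ^ k σ * exp ((t σ * Real.log ‖σ x‖ : ℝ) * I))

/-- `ψ` is a unitary Hecke character of the number field `K` modulo the ideal `𝔣` (times the real
places) with the infinity type `(k, t)`, as a completely multiplicative function on the ideals: it is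
zero on the ideals which are not prime to `𝔣`, has absolute value one on the others, and it is
`∏ (σ(x) / |σ(x)|) ^ k_σ |σ(x)| ^ (i t_σ)` on the ideal generated by a totally positive `x` which is
congruent to one modulo `𝔣`. -/
structure IsHecke (𝔣 : Ideal (𝓞 K)) (k : (K →+* ℂ) → ℤ) (t : (K →+* ℂ) → ℝ)
    (ψ : Ideal (𝓞 K) →*₀ ℂ) : Prop where
  ne_bot : 𝔣 ≠ ⊥
  supp : ∀ 𝔞 : Ideal (𝓞 K), 𝔞 ≠ ⊥ → (ψ 𝔞 ≠ 0 ↔ IsCoprime 𝔞 𝔣)
  unit : ∀ 𝔞 : Ideal (𝓞 K), ψ 𝔞 ≠ 0 → ‖ψ 𝔞‖ = 1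
  ray : ∀ x : 𝓞 K, x ≠ 0 → x - 1 ∈ 𝔣 → TotPos x → ψ (Ideal.span {x}) = arch k t (x : K)

/-- NVQ : a nontrivial quadratic Hecke character does not vanish at `s = 1`. -/
def StNvq : Prop := ∀ (K : Type) [Field K] [NumberField K] (𝔣 : Ideal (𝓞 K))
  (k : (K →+* ℂ) → ℤ) (t : (K →+* ℂ) → ℝ) (ψ : Ideal (𝓞 K) →*₀ ℂ), IsHecke 𝔣 k t ψ →
  (∀ 𝔞 : Ideal (𝓞 K), ψ 𝔞 ≠ 0 → ψ 𝔞 ^ 2 = 1) → (∃ 𝔞 : Ideal (𝓞 K), ψ 𝔞 = -1) →
  ∃ G : ℂ → ℂ, AnalyticAt ℂ G 1 ∧ G 1 ≠ 0 ∧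
    ∀ s : ℂ, 1 < s.re → G s = Pool.Agent.Y773.LI ψ s

end Pool.Agent.N172.HS
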