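import Pool.Agent.N172.HS.Sp

/-!
# Products with varieties of CM type
-/

set_option autoImplicit false
set_option linter.unusedSectionVars false

namespace Pool.Agent.N172.HS

open NumberField Complex Filter Topology IsDedekindDomain Asymptotics Polynomial
open Pool.Agent.W353.EF (IsFrobenius IsEulerSystem LFun size)
open Pool.Agent.W353.PV (Eig)
open Pool.Agent.W353.TP (HX sysH LL LL_tendsto bdd_isLittleO)
open Pool.Agent.W353.NF (vx)
open Pool.Agent.W540.BE (nm two_le_nm)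
open Pool.Agent.Y149.Ord (HasOrder tendsto_size)
open scoped ComplexConjugate

section one

variable (K : Type) [Field K] [NumberField K]

open Classical in
/-- The trivial Hecke character. -/
noncomputable def unitChar : Ideal (𝓞 K) →*₀ ℂ where
  toFun 𝔞 := if 𝔞 = 0 then 0 else 1
  map_zero' := if_pos rfl
  map_one' := if_neg one_ne_zero
  map_mul' 𝔞 𝔟 := by
    by_cases h1 : 𝔞 = 0
    · simp [h1]
    · by_cases h2 : 𝔟 = 0
      · simp [h2]
      · rw [if_neg h1, if_neg h2, if_neg (mul_ne_zero h1 h2), one_mul]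

theorem unitChar_apply {𝔞 : Ideal (𝓞 K)} (h : 𝔞 ≠ ⊥) : unitChar K 𝔞 = 1 := if_neg h

theorem isHecke_unit : IsHecke (⊤ : Ideal (𝓞 K)) (fun _ => 0) (fun _ => 0) (unitChar K) where
  ne_bot := top_ne_bot
  supp 𝔞 h := by
    rw [unitChar_apply K h]
    refine ⟨fun _ => ?_, fun _ => one_ne_zero⟩
    rw [Ideal.isCoprime_iff_sup_eq]
    exact sup_top_eq _
  unit 𝔞 h := by
    by_cases h0 : 𝔞 = ⊥
    · rw [h0] at h
      exact absurd (map_zero (unitChar K)) h
    · rw [unitChar_apply K h0, norm_one]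
  ray x hx _ _ := by
    rw [unitChar_apply K (by rwa [Ne, Ideal.span_singleton_eq_bot])]
    unfold arch
    simp

/-- The trivial representation. -/
noncomputable def WRep.one : WRep K where
  r := 1
  F _ := K
  𝔣 _ := ⊤
  k _ _ := 0
  t _ _ := 0
  χ _ := unitChar K
  hecke _ := isHecke_unit K
  c _ := 1

theorem one_indTrace (v : HeightOneSpectrum (𝓞 K)) : indTrace (F := K) (unitChar K) v = 1 := by
  have hS : above K v = {v} := by
    ext w
    change (Ideal.comap (RingHom.id (𝓞 K)) w.asIdeal = v.asIdeal ∧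
      Ideal.absNorm w.asIdeal = Ideal.absNorm v.asIdeal) ↔ _
    rw [Ideal.comap_id, Set.mem_singleton_iff]
    exact ⟨fun h => HeightOneSpectrum.ext h.1, fun h => by rw [h]; exact ⟨rfl, rfl⟩⟩
  unfold indTrace
  rw [hS, finsum_mem_singleton, unitChar_apply K v.ne_bot]

theorem WRep.one_trace (v : HeightOneSpectrum (𝓞 K)) : (WRep.one K).trace v = 1 := by
  have e1 : ∀ j : Fin (WRep.one K).r, ((WRep.one K).c j : ℂ) *
      indTrace ((WRep.one K).χ j) v = 1 := by
    intro j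
    calc ((WRep.one K).c j : ℂ) * _ = ((1 : ℤ) : ℂ) * indTrace (F := K) (unitChar K) v := rfl
      _ = 1 := by rw [one_indTrace]; simp
  unfold WRep.trace
  rw [Finset.sum_congr rfl fun j _ => e1 j, Finset.sum_const, Finset.card_univ, Fintype.card_fin,
    nsmul_eq_mul, mul_one]
  have : (WRep.one K).r = 1 := rfl
  rw [this]
  simp

theorem WRep.one_tH (x : HX K) : (WRep.one K).tH x = 1 := by
  rw [← WRep.trace_vx, WRep.one_trace]

end one

/-- A variety of CM type over `K`: the cohomology `H^b(Y)(b/2)`, `b ≤ 2 dim Y`, is as a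
representation of the Weil group of `K` the sum of the trivial representation, `triv b` times, and of
the nontrivial irreducible representations `π b j`, `j < r b`: at almost all primes the trace of the
geometric Frobenius on `H^b(Y)` is `q^{b/2} (triv b + ∑ tr π b j)`. -/
structure CMVariety (K : Type) [Field K] [NumberField K] extends Variety K where
  triv : ℕ → ℕ
  r : ℕ → ℕ
  π : ∀ b, Fin (r b) → WRep K
  irr : ∀ b j, (π b j).IsIrr
  nontriv : ∀ b j, (π b j).inner (WRep.one K) = 0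
  trace : ∀ᶠ v : HeightOneSpectrum (𝓞 K) in cofinite, ∀ b ≤ 2 * dim,
    ∃ β : Fin (betti b) → ℂ, IsFrobenius eqs dim b v β ∧
      ∑ l, β l = (Ideal.absNorm v.asIdeal : ℂ) ^ ((b : ℂ) / 2) *
        (triv b + ∑ j, (π b j).trace v)

section

variable {K : Type} [Field K] [NumberField K]

/-- The pairs `(a, b)` with `a + b = n`, `a ≤ 2 dim X` and `b ≤ 2 dim Y`: the cohomology `H^n(X × Y)` is
the sum of the `H^a(X) ⊗ H^b(Y)`. -/
def degrees (X Y : Variety K) (n : ℕ) : Finset (ℕ × ℕ) :=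
  (Finset.range (2 * X.dim + 1) ×ˢ Finset.range (2 * Y.dim + 1)).filter fun c => c.1 + c.2 = n

/-- The polynomials `B v` are the Euler factors of `L(H^n(X × Y), s)`, by the formula of Künneth. -/
def IsProduct (X Y : Variety K) (n : ℕ) (B : HeightOneSpectrum (𝓞 K) → ℂ[X]) : Prop :=
  (∀ᶠ v in cofinite, ∃ (α : ∀ a, Fin (X.betti a) → ℂ) (β : ∀ b, Fin (Y.betti b) → ℂ),
    (∀ a ≤ 2 * X.dim, IsFrobenius X.eqs X.dim a v (α a)) ∧
    (∀ b ≤ 2 * Y.dim, IsFrobenius Y.eqs Y.dim b v (β b)) ∧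
    ∀ z : ℂ, (B v).eval z = ∏ c ∈ degrees X Y n, ∏ j, ∏ l, (1 - α c.1 j * β c.2 l * z)) ∧
  ∀ v, (B v).eval ((Ideal.absNorm v.asIdeal : ℂ) ^ (-((n : ℂ) / 2 + 1))) ≠ 0

/-- The number `∑_{a + b = n} (triv b · x_a + ∑_j ⟨π b j, θ_a⟩)`: the pole order of `L(H^n(X × Y), s)`
expected from the pole orders `x_a` of `L(H^a(X), s)` and from the parts `θ_a` of the `H^a(X)`. -/
noncomputable def expected (X : Variety K) (Y : CMVariety K) (θ : ℕ → WRep K) (n : ℕ)
    (x : ℕ → ℝ) : ℝ :=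
  ∑ c ∈ degrees X Y.toVariety n,
    (Y.triv c.2 * x c.1 + ∑ j, ((Y.π c.2 j).inner (θ c.1) : ℝ))

/-- The number of the nontrivial irreducible constituents of the cohomology of `Y` is at most `C`. -/
def CMVariety.SizeLe (Y : CMVariety K) (C : ℕ) : Prop :=
  ∑ b ∈ Finset.range (2 * Y.dim + 1), Y.r b ≤ C

/-- No `σ k` is a constituent of the cohomology of `Y`. -/
def CMVariety.Avoids (Y : CMVariety K) {s : ℕ} (σ : Fin s → WRep K) : Prop :=
  ∀ b ≤ 2 * Y.dim, ∀ j k, (Y.π b j).inner (σ k) = 0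

theorem mem_degrees {X Y : Variety K} {n : ℕ} {c : ℕ × ℕ} : c ∈ degrees X Y n ↔
    c.1 + c.2 = n ∧ c.1 ≤ 2 * X.dim ∧ c.2 ≤ 2 * Y.dim := by
  unfold degrees
  rw [Finset.mem_filter, Finset.mem_product, Finset.mem_range, Finset.mem_range]
  constructor
  · rintro ⟨⟨h1, h2⟩, h3⟩
    exact ⟨h3, by omega, by omega⟩
  · rintro ⟨h3, h1, h2⟩
    exact ⟨⟨by omega, by omega⟩, h3⟩

/-- **The size of the L-function of a product.** -/
theorem product_size {X : Variety K} {Y : CMVariety K} {n : ℕ}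
    {B : HeightOneSpectrum (𝓞 K) → ℂ[X]} (hB : IsProduct X Y.toVariety n B) :
    (∀ᶠ ε : ℝ in 𝓝[>] 0, LFun B ((n : ℂ) / 2 + 1 + ε) ≠ 0) ∧
    (fun ε => size n B ε * LL ε - EH K ε (fun x => ∑ c ∈ degrees X Y.toVariety n,
      TV X c.1 (vx x) * (Y.triv c.2 + ∑ j, ((Y.π c.2 j).tH x).re))) =o[𝓝[>] 0] LL := by
  classical
  obtain ⟨hM, hB0⟩ := hB
  have h := size_H (K := K)
    (ι := Σ c : {c // c ∈ degrees X Y.toVariety n}, Fin (X.betti c.1.1) × Fin (Y.betti c.1.2))
    (i := n) B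
    (fun v => ∑ c ∈ degrees X Y.toVariety n,
      TV X c.1 v * ((Y.triv c.2 : ℂ) + ∑ j, (Y.π c.2 j).trace v).re) (by
      filter_upwards [hM, Y.trace] with v hv hY
      obtain ⟨α, β, h1, h2, h3⟩ := hv
      have hq : (0 : ℝ) < nm K v := by
        have := two_le_nm v
        exact_mod_cast (by omega : 0 < nm K v)
      have hq' : ((nm K v : ℕ) : ℂ) ≠ 0 := by exact_mod_cast hq.ne'
      refine ⟨fun l => α l.1.1.1 l.2.1 * β l.1.1.2 l.2.2, fun l => ?_, ?_, fun z => ?_⟩
      · obtain ⟨c, j, l⟩ := l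
        obtain ⟨c1, c2, c3⟩ := mem_degrees.1 c.2
        have e1 : ‖α c.1.1 j‖ = (nm K v : ℝ) ^ ((c.1.1 : ℝ) / 2) :=
          Eig.norm (X := X.eqs) (d := X.dim) (h1 _ c2) j
        have e2 : ‖β c.1.2 l‖ = (nm K v : ℝ) ^ ((c.1.2 : ℝ) / 2) :=
          Eig.norm (X := Y.eqs) (d := Y.dim) (h2 _ c3) l
        have hn : (n : ℝ) = (c.1.1 : ℝ) + c.1.2 := by exact_mod_cast c1.symm
        rw [norm_mul, e1, e2, ← Real.rpow_add hq]
        congr 1
        rw [hn]
        ring
      · rw [Fintype.sum_sigma, Finset.sum_mul, Complex.re_sum, ← Finset.sum_coe_sort]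
        refine Finset.sum_congr rfl fun c _ => ?_
        obtain ⟨c1, c2, c3⟩ := mem_degrees.1 c.2
        have e1 := TV_eq X c2 (h1 _ c2)
        obtain ⟨β', h4, h5⟩ := hY _ c3
        have e2 : ∑ l, β c.1.2 l = ∑ l, β' l :=
          congrArg Multiset.sum (Eig.unique' (X := Y.eqs) (d := Y.dim) c3 (h2 _ c3) h4)
        have e3 : ∑ l : Fin (X.betti c.1.1) × Fin (Y.betti c.1.2), α c.1.1 l.1 * β c.1.2 l.2 =
            (∑ j, α c.1.1 j) * ∑ l, β c.1.2 l := by
          rw [Finset.sum_mul_sum, ← Finset.univ_product_univ, Finset.sum_product]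
        have e4 : ((nm K v : ℕ) : ℂ) ^ (-((n : ℂ) / 2)) =
            ((nm K v : ℕ) : ℂ) ^ (-((c.1.1 : ℂ) / 2)) * ((nm K v : ℕ) : ℂ) ^ (-((c.1.2 : ℂ) / 2)) := by
          have hn : (n : ℂ) = (c.1.1 : ℂ) + c.1.2 := by exact_mod_cast c1.symm
          rw [← Complex.cpow_add _ _ hq', hn]
          congr 1
          ring
        have e5 : (∑ l, β c.1.2 l) * ((nm K v : ℕ) : ℂ) ^ (-((c.1.2 : ℂ) / 2)) =
            Y.triv c.1.2 + ∑ j, (Y.π c.1.2 j).trace v := by
          have e6 : ((Ideal.absNorm v.asIdeal : ℕ) : ℂ) = ((nm K v : ℕ) : ℂ) := rfl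
          rw [e2, h5, e6, mul_right_comm, ← Complex.cpow_add _ _ hq', add_neg_cancel,
            Complex.cpow_zero, one_mul]
        have e7 : (∑ l : Fin (X.betti c.1.1) × Fin (Y.betti c.1.2),
            α c.1.1 l.1 * β c.1.2 l.2) * ((nm K v : ℕ) : ℂ) ^ (-((n : ℂ) / 2)) =
            ((TV X c.1.1 v : ℝ) : ℂ) * (Y.triv c.1.2 + ∑ j, (Y.π c.1.2 j).trace v) := by
          rw [e3, e4, e1, ← e5]
          ring
        rw [← Complex.re_ofReal_mul, ← e7]
      · rw [h3, Fintype.prod_sigma, ← Finset.prod_coe_sort]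
        refine Finset.prod_congr rfl fun c _ => ?_
        rw [← Finset.univ_product_univ, Finset.prod_product]) hB0
    (D := ∑ c ∈ degrees X Y.toVariety n, (X.betti c.1 : ℝ) *
      (Y.triv c.2 + ∑ j, (Y.π c.2 j).bd)) (fun x => by
      refine (Finset.abs_sum_le_sum_abs _ _).trans (Finset.sum_le_sum fun c _ => ?_)
      rw [abs_mul]
      refine mul_le_mul (abs_TV X _ _) ?_ (abs_nonneg _) (Nat.cast_nonneg _)
      refine (Complex.abs_re_le_norm _).trans ((norm_add_le _ _).trans ?_)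
      rw [Complex.norm_natCast]
      refine add_le_add le_rfl ((norm_sum_le _ _).trans (Finset.sum_le_sum fun j _ => ?_))
      rw [WRep.trace_vx]
      exact WRep.norm_tH_le _ _)
  refine ⟨h.1, ?_⟩
  have h2 := h.2
  simp only [WRep.trace_vx, Complex.add_re, Complex.natCast_re, Complex.re_sum] at h2
  exact h2

/-- the L-function of `H^a(X)` -/
theorem euler_tensor {X : Variety K} {a : ℕ} {A : HeightOneSpectrum (𝓞 K) → ℂ[X]}
    (h : IsEulerSystem X.eqs X.dim a (X.betti a) A) : IsTensor X a (WRep.one K) A := by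
  refine ⟨⟨1, ?_⟩, h.2⟩
  filter_upwards [h.1] with v hv
  obtain ⟨α, h1, h2⟩ := hv
  refine ⟨α, fun _ => 1, h1, fun _ => norm_one, ?_, fun z => ?_⟩
  · rw [WRep.one_trace]
    simp
  · rw [h2]
    refine Finset.prod_congr rfl fun j _ => ?_
    simp

theorem euler_size {X : Variety K} {a : ℕ} (ha : a ≤ 2 * X.dim)
    {A : HeightOneSpectrum (𝓞 K) → ℂ[X]} (h : IsEulerSystem X.eqs X.dim a (X.betti a) A) :
    (fun ε => size a A ε * LL ε - EH K ε (fun x => TV X a (vx x))) =o[𝓝[>] 0] LL := by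
  have h1 := (tensor_size ha (euler_tensor h)).2
  simp only [WRep.one_tH, Complex.one_re, mul_one] at h1
  exact h1

end

end Pool.Agent.N172.HS
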