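import Pool.Agent.N172.HS.Pr

/-!
# Products with varieties of CM type: the defects
-/

set_option autoImplicit false
set_option linter.unusedSectionVars false

namespace Pool.Agent.N172.HS

open NumberField Complex Filter Topology IsDedekindDomain Asymptotics Polynomial
open Pool.Agent.W353.EF (IsFrobenius IsEulerSystem LFun size)
open Pool.Agent.W353.TP (HX sysH LL LL_tendsto bdd_isLittleO)
open Pool.Agent.W353.NF (vx)
open Pool.Agent.Y149.Ord (HasOrder tendsto_size)
open scoped ComplexConjugate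

section

variable {K : Type} [Field K] [NumberField K]

theorem sum_degrees {M : Type*} [AddCommMonoid M] (X Y : Variety K) (n : ℕ) (F : ℕ → ℕ → M) :
    ∑ c ∈ degrees X Y n, F c.1 c.2 = ∑ a : Fin (2 * X.dim + 1),
      if ((a : ℕ) ≤ n ∧ n - a ≤ 2 * Y.dim) then F a (n - a) else 0 := by
  rw [Fin.sum_univ_eq_sum_range
    (fun a => if (a ≤ n ∧ n - a ≤ 2 * Y.dim) then F a (n - a) else 0), ← Finset.sum_filter]
  refine Finset.sum_bij' (fun c _ => c.1) (fun a _ => (a, n - a)) ?_ ?_ ?_ ?_ ?_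
  · intro c hc
    obtain ⟨h1, h2, h3⟩ := mem_degrees.1 hc
    rw [Finset.mem_filter, Finset.mem_range]
    exact ⟨by omega, by omega, by omega⟩
  · intro a ha
    rw [Finset.mem_filter, Finset.mem_range] at ha
    rw [mem_degrees]
    exact ⟨by simp only; omega, by simp only; omega, by simp only; omega⟩
  · intro c hc
    obtain ⟨h1, h2, h3⟩ := mem_degrees.1 hc
    apply Prod.ext
    · rfl
    · simp only
      omega
  · intro a _
    rfl
  · intro c hc
    obtain ⟨h1, h2, h3⟩ := mem_degrees.1 hc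
    have e : c.2 = n - c.1 := by omega
    rw [e]

/-- the constituents which are paired with `H^a(X)` -/
def TT (X : Variety K) (Y : CMVariety K) (n : ℕ) (a : Fin (2 * X.dim + 1)) :
    Finset (Fin (Y.r (n - a))) :=
  if ((a : ℕ) ≤ n ∧ n - a ≤ 2 * Y.dim) then Finset.univ else ∅

/-- their sum -/
noncomputable def GG (X : Variety K) (Y : CMVariety K) (n : ℕ) (a : Fin (2 * X.dim + 1))
    (x : HX K) : ℂ := ∑ j ∈ TT X Y n a, ((1 : ℝ) : ℂ) * (Y.π (n - a) j).tH x

theorem GG_bdd (X : Variety K) (Y : CMVariety K) (n : ℕ) (a : Fin (2 * X.dim + 1)) :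
    Bdd (GG X Y n a) :=
  Bdd.sum _ (fun j _ => (Y.π (n - a) j).bdd) fun _ => ((1 : ℝ) : ℂ)

/-- the Gram matrix -/
noncomputable def gg (X : Variety K) (Y Y' : CMVariety K) (n n' : ℕ) (a : Fin (2 * X.dim + 1)) : ℝ :=
  ∑ j ∈ TT X Y n a, ∑ l ∈ TT X Y' n' a, (1 : ℝ) * 1 * ((Y.π (n - a) j).inner (Y'.π (n' - a) l) : ℝ)

theorem GG_gram (X : Variety K) (Y Y' : CMVariety K) (n n' : ℕ) (a : Fin (2 * X.dim + 1)) :
    HasGram (GG X Y n a) (GG X Y' n' a) (gg X Y Y' n n' a) :=
  HasGram.sum _ _ (fun j _ => (Y.π (n - a) j).bdd) (fun j _ => (Y'.π (n' - a) j).bdd)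
    (fun _ => 1) (fun _ => 1) fun _ _ _ _ => WRep.gram Pool.Agent.N134.HS.t_nvq _ _

theorem EH_nonneg {φ : HX K → ℝ} (h : ∀ x, 0 ≤ φ x) (ε : ℝ) : 0 ≤ EH K ε φ :=
  tsum_nonneg fun x => mul_nonneg (h x) ((sysH K).w_nonneg ε x)

theorem HasGram.nonneg {f : HX K → ℂ} {g : ℝ} (h : HasGram f f g) : 0 ≤ g := by
  by_contra hcon
  push Not at hcon
  have h1 : (fun ε => (-g) * LL ε) =o[𝓝[>] 0] LL := by
    refine Asymptotics.IsLittleO.of_norm_left ?_
    unfold HasGram at h
    refine (Asymptotics.IsBigO.of_bound 1 ?_).trans_isLittleO h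
    filter_upwards [LL_tendsto.eventually_gt_atTop 0] with ε h2
    have h3 : 0 ≤ EH K ε (fun x => (f x * conj (f x)).re) := by
      refine EH_nonneg (fun x => ?_) ε
      rw [Complex.mul_conj, Complex.ofReal_re]
      exact Complex.normSq_nonneg _
    rw [one_mul, norm_norm, Real.norm_eq_abs, Real.norm_eq_abs, abs_mul, abs_of_pos h2,
      abs_of_pos (neg_pos.2 hcon)]
    refine le_trans ?_ (le_abs_self _)
    have h4 : -g * LL ε = -(g * LL ε) := by ring
    rw [h4]
    linarith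
  have h2 := LL_not_littleO h1
  linarith

/-- the inner product of irreducible representations -/
theorem inner_le_one {ρ σ : WRep K} (hρ : ρ.IsIrr) (hσ : σ.IsIrr) : |(ρ.inner σ : ℝ)| ≤ 1 := by
  have hQ : StNvq := Pool.Agent.N134.HS.t_nvq
  have h : ∀ s : ℝ, 0 ≤ 1 + 2 * s * (ρ.inner σ : ℝ) + s ^ 2 := by
    intro s
    set τ : Fin 2 → WRep K := ![ρ, σ] with hτ
    have h1 := HasGram.sum (K := K) (Finset.univ : Finset (Fin 2)) Finset.univ
      (fun k _ => (τ k).bdd) (fun k _ => (τ k).bdd) ![1, s] ![1, s]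
      (fun k _ l _ => WRep.gram hQ (τ k) (τ l))
    have h2 := h1.nonneg
    simp only [Fin.sum_univ_two, hτ, Matrix.cons_val_zero, Matrix.cons_val_one] at h2
    have e1 : (ρ.inner ρ : ℝ) = 1 := by rw [hρ]; norm_num
    have e2 : (σ.inner σ : ℝ) = 1 := by rw [hσ]; norm_num
    rw [e1, e2, σ.inner_comm ρ] at h2
    linarith
  have h1 := h 1
  have h2 := h (-1)
  rw [abs_le]
  constructor <;> linarith

/-- the norm of the sum of the constituents -/
theorem gg_diag_le (X : Variety K) {Y : CMVariety K} {C : ℕ} (hC : Y.SizeLe C) (n : ℕ) :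
    ∑ a, gg X Y Y n n a ≤ (C : ℝ) ^ 2 := by
  have h1 : ∀ a, gg X Y Y n n a ≤ ((TT X Y n a).card : ℝ) ^ 2 := by
    intro a
    unfold gg
    calc ∑ j ∈ TT X Y n a, ∑ l ∈ TT X Y n a,
        (1 : ℝ) * 1 * ((Y.π (n - a) j).inner (Y.π (n - a) l) : ℝ) ≤
        ∑ _j ∈ TT X Y n a, ∑ _l ∈ TT X Y n a, (1 : ℝ) :=
          Finset.sum_le_sum fun j _ => Finset.sum_le_sum fun l _ => by
            rw [one_mul, one_mul]
            exact (le_abs_self _).trans (inner_le_one (Y.irr _ _) (Y.irr _ _))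
      _ = ((TT X Y n a).card : ℝ) ^ 2 := by
          rw [Finset.sum_const, Finset.sum_const, nsmul_eq_mul, nsmul_eq_mul, mul_one, sq]
  have h2 : ∑ a, ((TT X Y n a).card : ℝ) ≤ C := by
    have h3 : ∑ a, (TT X Y n a).card ≤ C := by
      refine le_trans ?_ hC
      have e1 : ∀ a : Fin (2 * X.dim + 1), (TT X Y n a).card =
          if ((a : ℕ) ≤ n ∧ n - a ≤ 2 * Y.dim) then Y.r (n - a) else 0 := by
        intro a
        unfold TT
        split_ifs with h
        · rw [Finset.card_univ, Fintype.card_fin]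
        · rfl
      rw [Finset.sum_congr rfl fun a _ => e1 a,
        ← sum_degrees X Y.toVariety n (fun _ b => Y.r b)]
      have e2 : ∑ c ∈ degrees X Y.toVariety n, Y.r c.2 =
          ∑ b ∈ (degrees X Y.toVariety n).image Prod.snd, Y.r b := by
        rw [Finset.sum_image]
        intro c hc c' hc' h
        obtain ⟨h1, h2, h3⟩ := mem_degrees.1 hc
        obtain ⟨h1', h2', h3'⟩ := mem_degrees.1 hc'
        apply Prod.ext
        · omega
        · exact h
      rw [e2]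
      refine Finset.sum_le_sum_of_subset fun b hb => ?_
      rw [Finset.mem_image] at hb
      obtain ⟨c, hc, rfl⟩ := hb
      obtain ⟨h1, h2, h3⟩ := mem_degrees.1 hc
      rw [Finset.mem_range]
      omega
    exact_mod_cast h3
  have h3 : 0 ≤ ∑ a, ((TT X Y n a).card : ℝ) := Finset.sum_nonneg fun a _ => Nat.cast_nonneg _
  calc ∑ a, gg X Y Y n n a ≤ ∑ a, ((TT X Y n a).card : ℝ) ^ 2 :=
        Finset.sum_le_sum fun a _ => h1 a
    _ ≤ (∑ a, ((TT X Y n a).card : ℝ)) ^ 2 := by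
        rw [sq, Finset.sum_mul_sum]
        refine Finset.sum_le_sum fun a _ => ?_
        rw [sq]
        exact Finset.single_le_sum (f := fun b => ((TT X Y n a).card : ℝ) * (TT X Y n b).card)
          (fun b _ => by positivity) (Finset.mem_univ a)
    _ ≤ (C : ℝ) ^ 2 := pow_le_pow_left₀ h3 h2 2

theorem gg_diag_nonneg (X : Variety K) (Y : CMVariety K) (n : ℕ) :
    0 ≤ ∑ a, gg X Y Y n n a :=
  Finset.sum_nonneg fun a _ => (GG_gram X Y Y n n a).nonneg

/-- **The defect of a product.** -/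
theorem product_defect {X : Variety K} {Y : CMVariety K} {n : ℕ}
    {B : HeightOneSpectrum (𝓞 K) → ℂ[X]} (hB : IsProduct X Y.toVariety n B) {θ : ℕ → WRep K}
    {N' : ℕ → ℕ} (hθ : ∀ a ≤ 2 * X.dim, IsPart X a (θ a) (N' a))
    {A : ℕ → HeightOneSpectrum (𝓞 K) → ℂ[X]}
    (hA : ∀ a ≤ 2 * X.dim, IsEulerSystem X.eqs X.dim a (X.betti a) (A a)) :
    (fun ε => (size n B ε - expected X Y θ n (fun a => size a (A a) ε)) * LL ε -
      EH K ε (fun x => ∑ a : Fin (2 * X.dim + 1), cut X a (θ a) (N' a) x * (GG X Y n a x).re))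
      =o[𝓝[>] 0] LL := by
  classical
  have h0 := (product_size hB).2
  have h1 := finset_isLittleO (degrees X Y.toVariety n) (fun c hc =>
    (euler_size (mem_degrees.1 hc).2.1 (hA _ (mem_degrees.1 hc).2.1)).const_mul_left
      (Y.triv c.2 : ℝ))
  have h2 := finset_isLittleO (degrees X Y.toVariety n) (fun c hc =>
    finset_isLittleO (Finset.univ : Finset (Fin (Y.r c.2))) (fun j _ =>
      cut_corr (mem_degrees.1 hc).2.1 (hθ _ (mem_degrees.1 hc).2.1) (Y.π c.2 j)))
  refine ((h0.sub h1).add h2).congr' ?_ (EventuallyEq.refl _ _)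
  filter_upwards [self_mem_nhdsWithin] with ε hε
  have hε' : (0 : ℝ) < ε := hε
  have hρ : ∀ (ρ : WRep K) x, |(ρ.tH x).re| ≤ ρ.bd := fun ρ x =>
    (Complex.abs_re_le_norm _).trans (ρ.norm_tH_le x)
  have b1 : ∀ (ρ : WRep K) (a : ℕ) x, |TV X a (vx x) * (ρ.tH x).re| ≤ X.betti a * ρ.bd :=
    fun ρ a x => by
      rw [abs_mul]
      exact mul_le_mul (abs_TV X a _) (hρ ρ x) (abs_nonneg _) (Nat.cast_nonneg _)
  have b2 : ∀ (ρ : WRep K) (a : ℕ) x, |cut X a (θ a) (N' a) x * (ρ.tH x).re| ≤ N' a * ρ.bd :=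
    fun ρ a x => by
      rw [abs_mul]
      exact mul_le_mul (abs_cut X a (θ a) (N' a) x) (hρ ρ x) (abs_nonneg _) (Nat.cast_nonneg _)
  -- the first sum
  have e1 : EH K ε (fun x => ∑ c ∈ degrees X Y.toVariety n,
      TV X c.1 (vx x) * (Y.triv c.2 + ∑ j, ((Y.π c.2 j).tH x).re)) =
      ∑ c ∈ degrees X Y.toVariety n, ((Y.triv c.2 : ℝ) * EH K ε (fun x => TV X c.1 (vx x)) +
        ∑ j, EH K ε (fun x => TV X c.1 (vx x) * ((Y.π c.2 j).tH x).re)) := by
    have e2 : (fun x : HX K => ∑ c ∈ degrees X Y.toVariety n,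
        TV X c.1 (vx x) * ((Y.triv c.2 : ℝ) + ∑ j, ((Y.π c.2 j).tH x).re)) =
        fun x => ∑ c ∈ degrees X Y.toVariety n, ((Y.triv c.2 : ℝ) * TV X c.1 (vx x) +
          ∑ j, TV X c.1 (vx x) * ((Y.π c.2 j).tH x).re) := by
      funext x
      refine Finset.sum_congr rfl fun c _ => ?_
      rw [mul_add, Finset.mul_sum]
      ring
    have b3 : ∀ (c : ℕ × ℕ) (x : HX K), |(Y.triv c.2 : ℝ) * TV X c.1 (vx x)| ≤
        Y.triv c.2 * X.betti c.1 := fun c x => by
      rw [abs_mul, Nat.abs_cast]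
      exact mul_le_mul_of_nonneg_left (abs_TV X _ _) (Nat.cast_nonneg _)
    have b4 : ∀ (c : ℕ × ℕ) (x : HX K), |∑ j, TV X c.1 (vx x) * ((Y.π c.2 j).tH x).re| ≤
        ∑ j, X.betti c.1 * (Y.π c.2 j).bd := fun c x =>
      (Finset.abs_sum_le_sum_abs _ _).trans (Finset.sum_le_sum fun j _ => b1 _ _ x)
    rw [e2, EH_sum hε' (degrees X Y.toVariety n) (fun c x => (Y.triv c.2 : ℝ) * TV X c.1 (vx x) +
          ∑ j, TV X c.1 (vx x) * ((Y.π c.2 j).tH x).re)
      (fun c => Y.triv c.2 * X.betti c.1 + ∑ j, X.betti c.1 * (Y.π c.2 j).bd)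
      (fun c _ x => (abs_add_le _ _).trans (add_le_add (b3 c x) (b4 c x)))]
    refine Finset.sum_congr rfl fun c _ => ?_
    rw [EH_add hε' (b3 c) (b4 c), EH_const_mul]
    congr 1
    exact EH_sum hε' Finset.univ (fun j x => TV X c.1 (vx x) * ((Y.π c.2 j).tH x).re)
      (fun j => X.betti c.1 * (Y.π c.2 j).bd) (fun j _ x => b1 _ _ x)
  -- the second sum
  have e3 : EH K ε (fun x => ∑ a : Fin (2 * X.dim + 1),
      cut X a (θ a) (N' a) x * (GG X Y n a x).re) =
      ∑ c ∈ degrees X Y.toVariety n, ∑ j,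
        EH K ε (fun x => cut X c.1 (θ c.1) (N' c.1) x * ((Y.π c.2 j).tH x).re) := by
    have e4 : (fun x : HX K => ∑ a : Fin (2 * X.dim + 1),
        cut X a (θ a) (N' a) x * (GG X Y n a x).re) =
        fun x => ∑ c ∈ degrees X Y.toVariety n, ∑ j,
          cut X c.1 (θ c.1) (N' c.1) x * ((Y.π c.2 j).tH x).re := by
      funext x
      rw [sum_degrees X Y.toVariety n (fun a b => ∑ j,
        cut X a (θ a) (N' a) x * ((Y.π b j).tH x).re)]
      refine Finset.sum_congr rfl fun a _ => ?_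
      unfold GG TT
      rw [Complex.re_sum, Finset.mul_sum]
      split_ifs with h
      · refine Finset.sum_congr rfl fun j _ => ?_
        rw [Complex.re_ofReal_mul, one_mul]
      · rw [Finset.sum_empty]
    rw [e4, EH_sum hε' (degrees X Y.toVariety n) (fun c x => ∑ j,
          cut X c.1 (θ c.1) (N' c.1) x * ((Y.π c.2 j).tH x).re)
      (fun c => ∑ j, N' c.1 * (Y.π c.2 j).bd)
      (fun c _ x => (Finset.abs_sum_le_sum_abs _ _).trans
        (Finset.sum_le_sum fun j _ => b2 _ _ x))]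
    refine Finset.sum_congr rfl fun c _ => ?_
    exact EH_sum hε' Finset.univ
      (fun j x => cut X c.1 (θ c.1) (N' c.1) x * ((Y.π c.2 j).tH x).re)
      (fun j => N' c.1 * (Y.π c.2 j).bd) (fun j _ x => b2 _ _ x)
  rw [e1, e3]
  unfold expected
  rw [sub_mul, Finset.sum_mul]
  simp only [Finset.sum_sub_distrib, Finset.sum_add_distrib, add_mul, mul_sub, Finset.sum_mul,
    ← mul_assoc]
  ring

end

end Pool.Agent.N172.HS
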