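import Mathlib

/-!
# Equidistribution of the residues modulo `𝔣` in `𝔟` and in `𝔟 𝔠`
-/

set_option autoImplicit false

namespace Pool.Agent.N172.HS

open NumberField

section

variable {K : Type} [Field K] [NumberField K]

lemma card_map {J 𝔟 : Ideal (𝓞 K)} (hJ : J ≤ 𝔟) :
    Ideal.absNorm J = Ideal.absNorm 𝔟 * Nat.card (𝔟.map (Ideal.Quotient.mk J)) := by
  have h1 : Nat.card (𝓞 K ⧸ J) = Nat.card ((𝓞 K ⧸ J) ⧸ 𝔟.map (Ideal.Quotient.mk J)) *
      Nat.card (𝔟.map (Ideal.Quotient.mk J)) :=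
    (AddSubgroup.card_eq_card_quotient_mul_card_addSubgroup
      (Submodule.toAddSubgroup (𝔟.map (Ideal.Quotient.mk J))))
  have h2 : Nat.card ((𝓞 K ⧸ J) ⧸ 𝔟.map (Ideal.Quotient.mk J)) = Nat.card (𝓞 K ⧸ 𝔟) :=
    Nat.card_congr (DoubleQuot.quotQuotEquivQuotOfLE hJ).toEquiv
  rw [Ideal.absNorm_apply, Ideal.absNorm_apply, Submodule.cardQuot_apply, Submodule.cardQuot_apply]
  rw [h1, h2]

open Classical in
/-- **Equidistribution.** -/
theorem crt {𝔟 𝔠 𝔣 J : Ideal (𝓞 K)} (hJ : J = 𝔟 * 𝔠 * 𝔣) (h𝔟 : 𝔟 ≠ ⊥)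
    (hcop : IsCoprime 𝔠 𝔣) [Fintype (𝓞 K ⧸ J)] (f : 𝓞 K ⧸ J → ℂ)
    (hf : ∀ x y : 𝓞 K, x - y ∈ 𝔣 → f (Ideal.Quotient.mk _ x) = f (Ideal.Quotient.mk _ y)) :
    ∑ q, (if q ∈ 𝔟.map (Ideal.Quotient.mk J) then f q else 0) =
      (Ideal.absNorm 𝔠 : ℂ) *
        ∑ q, (if q ∈ (𝔟 * 𝔠).map (Ideal.Quotient.mk J) then f q else 0) := by
  have hJ1 : J ≤ 𝔟 * 𝔠 := by rw [hJ]; exact Ideal.mul_le_left
  have hJ2 : J ≤ 𝔟 := hJ1.trans Ideal.mul_le_left
  set B := 𝔟.map (Ideal.Quotient.mk J) with hB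
  set C := (𝔟 * 𝔠).map (Ideal.Quotient.mk J) with hC
  have hmemB : ∀ x : 𝓞 K, Ideal.Quotient.mk J x ∈ B ↔ x ∈ 𝔟 := fun x => Ideal.mem_quotient_iff_mem hJ2
  have hmemC : ∀ x : 𝓞 K, Ideal.Quotient.mk J x ∈ C ↔ x ∈ 𝔟 * 𝔠 :=
    fun x => Ideal.mem_quotient_iff_mem hJ1
  obtain ⟨e, he, e', he', hee⟩ := Ideal.isCoprime_iff_exists.1 hcop
  -- the projection
  have hπ1 : ∀ q ∈ B, Ideal.Quotient.mk J e * q ∈ C := by
    intro q hq
    obtain ⟨x, rfl⟩ := Ideal.Quotient.mk_surjective q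
    rw [← map_mul, hmemC, mul_comm e x]
    exact Ideal.mul_mem_mul ((hmemB x).1 hq) he
  have hπ2 : ∀ q ∈ C, Ideal.Quotient.mk J e * q = q := by
    intro q hq
    obtain ⟨x, rfl⟩ := Ideal.Quotient.mk_surjective q
    rw [← map_mul, Ideal.Quotient.eq]
    have h1 : e * x - x = x * -e' := by
      have : e = 1 - e' := by rw [← hee]; ring
      rw [this]; ring
    rw [h1, hJ]
    exact Ideal.mul_mem_mul ((hmemC x).1 hq) (neg_mem he')
  have hfe : ∀ q, f (Ideal.Quotient.mk J e * q) = f q := by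
    intro q
    obtain ⟨x, rfl⟩ := Ideal.Quotient.mk_surjective q
    rw [← map_mul]
    refine hf _ _ ?_
    have h1 : e * x - x = x * -e' := by
      have : e = 1 - e' := by rw [← hee]; ring
      rw [this]; ring
    rw [h1]
    exact 𝔣.mul_mem_left _ (neg_mem he')
  have hCB : C ≤ B := Ideal.map_mono Ideal.mul_le_left
  let π : B →+ C :=
    { toFun := fun q => ⟨Ideal.Quotient.mk J e * q.1, hπ1 q.1 q.2⟩
      map_zero' := by ext; simp
      map_add' := fun a b => by ext; simp [mul_add] }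
  have hsurj : ∀ c : C, c ∈ Set.range π := fun c => ⟨⟨c.1, hCB c.2⟩, Subtype.ext (hπ2 c.1 c.2)⟩
  have hfib : ∀ c : C, (Finset.univ.filter fun b : B => π b = c).card = Ideal.absNorm 𝔠 := by
    have h0 : ∀ c c' : C, (Finset.univ.filter fun b : B => π b = c).card =
        (Finset.univ.filter fun b : B => π b = c').card := fun c c' =>
      AddMonoidHom.card_fiber_eq_of_mem_range π (hsurj c) (hsurj c')
    intro c
    have h1 : Fintype.card B = Fintype.card C * (Finset.univ.filter fun b : B => π b = c).card := by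
      rw [← Finset.card_univ, Finset.card_eq_sum_card_fiberwise (f := π) (t := Finset.univ)
        (fun _ _ => Finset.mem_coe.2 (Finset.mem_univ _)), Finset.sum_congr rfl fun c' _ => h0 c' c,
        Finset.sum_const, Finset.card_univ, smul_eq_mul]
    have h2 := card_map hJ2
    have h3 := card_map hJ1
    rw [Nat.card_eq_fintype_card] at h2 h3
    have h4 : Ideal.absNorm 𝔟 ≠ 0 := by rwa [Ne, Ideal.absNorm_eq_zero_iff]
    have h5 : 0 < Fintype.card C := Fintype.card_pos_iff.2 ⟨0⟩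
    rw [map_mul Ideal.absNorm 𝔟 𝔠] at h3
    have h6 : Fintype.card B = Ideal.absNorm 𝔠 * Fintype.card C := by
      apply Nat.eq_of_mul_eq_mul_left (Nat.pos_of_ne_zero h4)
      rw [← h2, h3]
      ring
    rw [h1, mul_comm] at h6
    exact Nat.eq_of_mul_eq_mul_right h5 h6
  have s1 : ∑ q, (if q ∈ B then f q else 0) = ∑ b : B, f b.1 := by
    rw [← Finset.sum_filter]
    exact Finset.sum_subtype (Finset.univ.filter fun q => q ∈ B) (fun q => by simp) f
  have s2 : ∑ q, (if q ∈ C then f q else 0) = ∑ c : C, f c.1 := by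
    rw [← Finset.sum_filter]
    exact Finset.sum_subtype (Finset.univ.filter fun q => q ∈ C) (fun q => by simp) f
  rw [s1, s2, Finset.mul_sum]
  rw [← Finset.sum_fiberwise (s := Finset.univ) (g := π) (f := fun b : B => f b.1)]
  refine Finset.sum_congr rfl fun c _ => ?_
  rw [Finset.sum_congr rfl (g := fun _ => f c.1), Finset.sum_const, hfib c, nsmul_eq_mul]
  intro b hb
  rw [Finset.mem_filter] at hb
  rw [← hfe b.1]
  exact congrArg (fun z : C => f z.1) hb.2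

end

end Pool.Agent.N172.HS
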