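import Pool.Agent.N172.HS.Om
import Pool.Agent.N172.HS.Crt

/-!
# Comparison of the cosets of an ideal
-/

set_option autoImplicit false
set_option linter.unusedSectionVars false

namespace Pool.Agent.N172.HS

open NumberField Module

section field

variable {K : Type} [Field K] [NumberField K]

/-- the representatives -/
noncomputable def rep {J : Ideal (𝓞 K)} (q : 𝓞 K ⧸ J) : 𝓞 K := Quotient.out q

lemma mk_rep {J : Ideal (𝓞 K)} (q : 𝓞 K ⧸ J) : Ideal.Quotient.mk J (rep q) = q := Quotient.out_eq' q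

lemma rep_mk {J : Ideal (𝓞 K)} (x : 𝓞 K) : rep (Ideal.Quotient.mk J x) - x ∈ J := by
  rw [← Ideal.Quotient.eq, mk_rep]

open Classical in
/-- the weights -/
noncomputable def Wt (𝔟 𝔠 : Ideal (𝓞 K)) (x : 𝓞 K) : ℂ :=
  (if x ∈ 𝔟 * 𝔠 then 1 else 0) - (if x ∈ 𝔟 then (Ideal.absNorm 𝔠 : ℂ)⁻¹ else 0)

lemma norm_Wt_le (𝔟 𝔠 : Ideal (𝓞 K)) (x : 𝓞 K) : ‖Wt 𝔟 𝔠 x‖ ≤ 2 := by
  classical
  unfold Wt
  refine (norm_sub_le _ _).trans ?_
  have h1 : ‖(if x ∈ 𝔟 * 𝔠 then (1 : ℂ) else 0)‖ ≤ 1 := by split_ifs <;> simp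
  have h2 : ‖(if x ∈ 𝔟 then (Ideal.absNorm 𝔠 : ℂ)⁻¹ else 0)‖ ≤ 1 := by
    split_ifs
    · rw [norm_inv, Complex.norm_natCast]
      rcases Nat.eq_zero_or_pos (Ideal.absNorm 𝔠) with h | h
      · rw [h]; simp
      · exact inv_le_one_of_one_le₀ (by exact_mod_cast h)
    · simp
  linarith

variable {𝔟 𝔠 𝔣 : Ideal (𝓞 K)} {k : (K →+* ℂ) → ℤ} {t : (K →+* ℂ) → ℝ} {ψ : Ideal (𝓞 K) →*₀ ℂ}

/-- the summand over the integers of `K` -/
noncomputable def Tm (𝔟 𝔠 : Ideal (𝓞 K)) (k : (K →+* ℂ) → ℤ) (t : (K →+* ℂ) → ℝ)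
    (ψ : Ideal (𝓞 K) →*₀ ℂ) (s : ℂ) (x : 𝓞 K) : ℂ := Wt 𝔟 𝔠 x * (Om k t ψ x * hh k t s (x : K))

/-- the sum over the classes -/
noncomputable def AA (𝔟 𝔠 J : Ideal (𝓞 K)) [Fintype (𝓞 K ⧸ J)] (k : (K →+* ℂ) → ℤ)
    (t : (K →+* ℂ) → ℝ) (ψ : Ideal (𝓞 K) →*₀ ℂ) (s : ℂ) (y : 𝓞 K) : ℂ :=
  ∑ q : 𝓞 K ⧸ J, Tm 𝔟 𝔠 k t ψ s (rep q + y)

lemma Wt_add {J : Ideal (𝓞 K)} (hJ : J = 𝔟 * 𝔠 * 𝔣) {x y : 𝓞 K} (hy : y ∈ J) :
    Wt 𝔟 𝔠 (x + y) = Wt 𝔟 𝔠 x := by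
  classical
  have h1 : y ∈ 𝔟 * 𝔠 := by rw [hJ] at hy; exact Ideal.mul_le_left hy
  have h2 : y ∈ 𝔟 := Ideal.mul_le_left h1
  unfold Wt
  rw [Ideal.add_mem_iff_left _ h1, Ideal.add_mem_iff_left _ h2]

lemma SameSign.symm {x y : K} (h : SameSign x y) : SameSign y x := fun σ => (h σ).symm

lemma SameSign.trans {x y z : K} (h : SameSign x y) (h' : SameSign y z) : SameSign x z :=
  fun σ => (h σ).trans (h' σ)

lemma sameSign_nat {M : ℕ} (hM : 0 < M) (y : K) : SameSign ((M : K) * y) y := by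
  intro σ
  rw [map_mul, map_natCast]
  have : (0 : ℝ) < M := by exact_mod_cast hM
  constructor
  · intro h; exact (mul_pos_iff_of_pos_left this).1 h
  · intro h; positivity

lemma place_nat (w : InfinitePlace K) (M : ℕ) (y : K) : w ((M : K) * y) = M * w y := by
  rw [map_mul]
  congr 1
  rw [← InfinitePlace.norm_embedding_eq, map_natCast, Complex.norm_natCast]

theorem AA_bound (h : IsHecke 𝔣 k t ψ) (h𝔟 : 𝔟 ≠ ⊥) (hcop : IsCoprime 𝔠 𝔣) {J : Ideal (𝓞 K)}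
    (hJ : J = 𝔟 * 𝔠 * 𝔣) [Fintype (𝓞 K ⧸ J)] (B : ℝ) (hB : 0 ≤ B) :
    ∃ C R : ℝ, 0 ≤ C ∧ 1 ≤ R ∧ ∀ y : 𝓞 K, y ∈ J → R ≤ hs (y : K) → ∀ s : ℂ, ‖s‖ ≤ B → 0 ≤ s.re →
      ‖AA 𝔟 𝔠 J k t ψ s y‖ ≤ C * hs (y : K) ^ (-(finrank ℚ K * s.re) - 1) := by
  classical
  set C₀ : ℝ := ∑ q : 𝓞 K ⧸ J, hs ((rep q : 𝓞 K) : K) with hC₀
  have hC₀0 : 0 ≤ C₀ := Finset.sum_nonneg fun _ _ => hs_nonneg _
  have hq : ∀ (q : 𝓞 K ⧸ J) (w : InfinitePlace K), w ((rep q : 𝓞 K) : K) ≤ C₀ := fun q w =>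
    (place_le_hs w _).trans (Finset.single_le_sum (f := fun q : 𝓞 K ⧸ J => hs ((rep q : 𝓞 K) : K))
      (fun _ _ => hs_nonneg _) (Finset.mem_univ q))
  obtain ⟨C, R₁, hC, hR₁, hnear⟩ := hh_near k t B C₀ hB hC₀0
  refine ⟨∑ q : 𝓞 K ⧸ J, 2 * C, R₁ + C₀ + 1, Finset.sum_nonneg fun _ _ => by positivity,
    by linarith, fun y hyJ hyR s hs hs0 => ?_⟩
  have hy0' : (0 : ℝ) < HS.hs (y : K) := by linarith
  have hy0 : y ≠ 0 := by
    rintro rfl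
    rw [show ((0 : 𝓞 K) : K) = 0 from map_zero _, hs_zero] at hy0'
    exact lt_irrefl _ hy0'
  have hyK : (y : K) ≠ 0 := coe_ne hy0
  have hcoe : ∀ a b : 𝓞 K, ((a + b : 𝓞 K) : K) = (a : K) + (b : K) := fun a b => map_add _ _ _
  have hrep0 : ∀ q : 𝓞 K ⧸ J, rep q + y ≠ 0 := by
    intro q h0
    obtain ⟨w, hw⟩ := exists_place (y : K)
    have h1 : (y : K) = -((rep q : 𝓞 K) : K) := by
      have := congrArg (fun z : 𝓞 K => (z : K)) h0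
      simp only [hcoe] at this
      rw [show ((0 : 𝓞 K) : K) = 0 from map_zero _] at this
      exact eq_neg_of_add_eq_zero_right this
    have h2 : w (y : K) ≤ C₀ := by
      rw [h1, place_neg]
      exact hq q w
    linarith
  -- the multiple
  obtain ⟨M, hM, hMw⟩ : ∃ M : ℕ, 0 < M ∧ ∀ w : InfinitePlace K, C₀ ≤ 1 / 2 * (M * w (y : K)) := by
    have h1 : ∀ w : InfinitePlace K, ∃ M : ℕ, ∀ M' ≥ M, C₀ ≤ 1 / 2 * (M' * w (y : K)) := by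
      intro w
      have hw : 0 < w (y : K) := (InfinitePlace.pos_iff).2 hyK
      obtain ⟨M, hM⟩ := exists_nat_ge (2 * C₀ / w (y : K))
      refine ⟨M, fun M' hM' => ?_⟩
      have h2 : (M : ℝ) ≤ M' := by exact_mod_cast hM'
      rw [div_le_iff₀ hw] at hM
      nlinarith
    choose f hf using h1
    refine ⟨∑ w, f w + 1, by omega, fun w => hf w _ ?_⟩
    have := Finset.single_le_sum (f := f) (fun _ _ => Nat.zero_le _) (Finset.mem_univ w)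
    show f w ≤ ∑ w, f w + 1
    omega
  set z : 𝓞 K := (M : 𝓞 K) * y with hz
  have hzK : (z : K) = (M : K) * (y : K) := by
    rw [hz]
    push_cast
    rfl
  have hzJ : z ∈ J := J.mul_mem_left _ hyJ
  have hz0 : (z : K) ≠ 0 := by
    rw [hzK]
    exact mul_ne_zero (by exact_mod_cast hM.ne') hyK
  have hcl : ∀ q : 𝓞 K ⧸ J, Close (1 / 2) ((rep q + z : 𝓞 K) : K) (z : K) := by
    intro q w
    rw [hcoe, add_sub_cancel_right, hzK, place_nat]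
    exact (hq q w).trans (hMw w)
  have hrz0 : ∀ q : 𝓞 K ⧸ J, rep q + z ≠ 0 := by
    intro q h0
    obtain ⟨w⟩ := (inferInstance : Nonempty (InfinitePlace K))
    have h1 := hcl q w
    rw [h0, show ((0 : 𝓞 K) : K) = 0 from map_zero _, zero_sub, place_neg] at h1
    have h2 : 0 < w (z : K) := (InfinitePlace.pos_iff).2 hz0
    linarith
  have hsg : ∀ q : 𝓞 K ⧸ J, SameSign ((rep q + z : 𝓞 K) : K) (y : K) := by
    intro q
    refine ((hcl q).sign hz0 le_rfl).trans ?_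
    rw [hzK]
    exact sameSign_nat hM _
  have hJ𝔣 : J ≤ 𝔣 := by rw [hJ]; exact Ideal.mul_le_right
  -- the orthogonality
  have horth : ∑ q : 𝓞 K ⧸ J, Wt 𝔟 𝔠 (rep q) * Om k t ψ (rep q + z) = 0 := by
    have hJ1 : J ≤ 𝔟 * 𝔠 := by rw [hJ]; exact Ideal.mul_le_left
    have hJ2 : J ≤ 𝔟 := hJ1.trans Ideal.mul_le_left
    have h1 := crt (𝔟 := 𝔟) (𝔠 := 𝔠) (𝔣 := 𝔣) hJ h𝔟 hcop (fun q => Om k t ψ (rep q + z)) (by
      intro a b hab
      refine Om_congr h (hrz0 _) (hrz0 _) ?_ ((hsg _).trans (hsg _).symm)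
      have e : rep (Ideal.Quotient.mk J a) + z - (rep (Ideal.Quotient.mk J b) + z) =
          (rep (Ideal.Quotient.mk J a) - a) - (rep (Ideal.Quotient.mk J b) - b) + (a - b) := by ring
      rw [e]
      exact add_mem (sub_mem (hJ𝔣 (rep_mk a)) (hJ𝔣 (rep_mk b))) hab)
    have m1 : ∀ q : 𝓞 K ⧸ J, q ∈ 𝔟.map (Ideal.Quotient.mk J) ↔ rep q ∈ 𝔟 := fun q => by
      conv_lhs => rw [← mk_rep q]
      exact Ideal.mem_quotient_iff_mem hJ2
    have m2 : ∀ q : 𝓞 K ⧸ J, q ∈ (𝔟 * 𝔠).map (Ideal.Quotient.mk J) ↔ rep q ∈ 𝔟 * 𝔠 := fun q => by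
      conv_lhs => rw [← mk_rep q]
      exact Ideal.mem_quotient_iff_mem hJ1
    simp_rw [m1, m2] at h1
    have h2 : ∀ q : 𝓞 K ⧸ J, Wt 𝔟 𝔠 (rep q) * Om k t ψ (rep q + z) =
        (if rep q ∈ 𝔟 * 𝔠 then Om k t ψ (rep q + z) else 0) -
        (Ideal.absNorm 𝔠 : ℂ)⁻¹ * (if rep q ∈ 𝔟 then Om k t ψ (rep q + z) else 0) := by
      intro q
      unfold Wt
      split_ifs <;> ring
    rw [Finset.sum_congr rfl fun q _ => h2 q, Finset.sum_sub_distrib, ← Finset.mul_sum, h1,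
      ← mul_assoc]
    by_cases h3 : (Ideal.absNorm 𝔠 : ℂ) = 0
    · have h4 : 𝔠 = ⊥ := by
        rw [← Ideal.absNorm_eq_zero_iff]
        exact_mod_cast h3
      have h5 : ∀ q : 𝓞 K ⧸ J, (if rep q ∈ 𝔟 * 𝔠 then Om k t ψ (rep q + z) else 0) = 0 := by
        intro q
        split_ifs with h6
        · exfalso
          rw [hJ, h4, Ideal.mul_bot, Ideal.bot_mul] at hyJ
          exact hy0 hyJ
        · rfl
      simp_rw [h5]
      simp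
    · rw [inv_mul_cancel₀ h3, one_mul, sub_self]
  have e1 : AA 𝔟 𝔠 J k t ψ s y = ∑ q : 𝓞 K ⧸ J, Wt 𝔟 𝔠 (rep q) *
      (Om k t ψ (rep q + y) * hh k t s ((rep q + y : 𝓞 K) : K) -
        Om k t ψ (rep q + z) * hh k t s (y : K)) := by
    have e2 : ∑ q : 𝓞 K ⧸ J, Wt 𝔟 𝔠 (rep q) * (Om k t ψ (rep q + z) * hh k t s (y : K)) = 0 := by
      have : ∀ q : 𝓞 K ⧸ J, Wt 𝔟 𝔠 (rep q) * (Om k t ψ (rep q + z) * hh k t s (y : K)) =
          (Wt 𝔟 𝔠 (rep q) * Om k t ψ (rep q + z)) * hh k t s (y : K) := fun q => by ring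
      rw [Finset.sum_congr rfl fun q _ => this q, ← Finset.sum_mul, horth, zero_mul]
    unfold AA Tm
    rw [← sub_zero (∑ q : 𝓞 K ⧸ J, _), ← e2, ← Finset.sum_sub_distrib]
    refine Finset.sum_congr rfl fun q _ => ?_
    rw [Wt_add hJ hyJ]
    ring
  rw [e1, Finset.sum_mul]
  refine (norm_sum_le _ _).trans (Finset.sum_le_sum fun q _ => ?_)
  obtain ⟨n1, n2⟩ := hnear ((rep q + y : 𝓞 K) : K) (y : K) (coe_ne (hrep0 q)) hyK (fun w => by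
    rw [hcoe, add_sub_cancel_right]
    exact hq q w) (by linarith)
  have n3 := n2 s hs hs0
  rw [norm_mul, mul_assoc]
  refine mul_le_mul (norm_Wt_le _ _ _) ?_ (norm_nonneg _) (by norm_num)
  by_cases hphi : phi ((rep q + y : 𝓞 K) : K) ≠ 0 ∨ phi (y : K) ≠ 0
  · have o1 : Om k t ψ (rep q + y) = Om k t ψ (rep q + z) := by
      refine Om_congr h (hrep0 q) (hrz0 q) ?_ ((n1 hphi).trans (hsg q).symm)
      have e : rep q + y - (rep q + z) = y - z := by ring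
      rw [e]
      exact hJ𝔣 (sub_mem hyJ hzJ)
    rw [o1, ← mul_sub, norm_mul]
    calc _ ≤ 1 * ‖hh k t s ((rep q + y : 𝓞 K) : K) - hh k t s (y : K)‖ :=
          mul_le_mul_of_nonneg_right (norm_Om_le h _) (norm_nonneg _)
      _ ≤ _ := by rw [one_mul]; exact n3
  · push Not at hphi
    have e2 : hh k t s ((rep q + y : 𝓞 K) : K) = 0 := by unfold hh; rw [hphi.1]; simp
    have e3 : hh k t s (y : K) = 0 := by unfold hh; rw [hphi.2]; simp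
    rw [e2, e3, mul_zero, mul_zero, sub_zero, norm_zero]
    positivity

end field

end Pool.Agent.N172.HS
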