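import Pool.Agent.N172.HS.Mn

/-!
# The Gram matrix of the monomial representations of the Weil group
-/

set_option autoImplicit false
set_option linter.unusedSectionVars false

namespace Pool.Agent.N172.HS

open NumberField Complex Filter Topology IsDedekindDomain Asymptotics
open Pool.Agent.H341R2 (lam)
open Pool.Agent.W353.TP (HX LL bdd_isLittleO push res Fac iL iR iL_iR_coe pairs_sum card_hom_le
  dq)
open Pool.Agent.W353.NF (vx)
open scoped ComplexConjugate TensorProduct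

section one

variable {K : Type} [Field K] [NumberField K]

/-- the primes of degree one are the kernels -/
theorem exists_vx (W : HeightOneSpectrum (𝓞 K)) (h : (Ideal.absNorm W.asIdeal).Prime) :
    ∃ x : HX K, vx x = W := by
  set p : ℕ := Ideal.absNorm W.asIdeal with hp
  have : Fact p.Prime := ⟨h⟩
  have hcard : Nat.card (𝓞 K ⧸ W.asIdeal) = p := by
    rw [hp, Ideal.absNorm_apply, Submodule.cardQuot_apply]
  have hfin : Finite (𝓞 K ⧸ W.asIdeal) := Nat.finite_of_card_ne_zero (by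
    rw [hcard]; exact h.ne_zero)
  have := Fintype.ofFinite (𝓞 K ⧸ W.asIdeal)
  have hc' : Fintype.card (𝓞 K ⧸ W.asIdeal) = p := by
    rw [← Nat.card_eq_fintype_card]; exact hcard
  set e := ZMod.ringEquivOfPrime (𝓞 K ⧸ W.asIdeal) h hc' with he
  refine ⟨⟨⟨p, h⟩, (e.symm : 𝓞 K ⧸ W.asIdeal →+* ZMod p).comp (Ideal.Quotient.mk W.asIdeal)⟩, ?_⟩
  apply HeightOneSpectrum.ext
  change RingHom.ker ((e.symm : 𝓞 K ⧸ W.asIdeal →+* ZMod p).comp
    (Ideal.Quotient.mk W.asIdeal)) = W.asIdeal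
  ext x
  rw [RingHom.mem_ker, RingHom.comp_apply]
  rw [RingEquiv.coe_toRingHom, map_eq_zero_iff _ e.symm.injective]
  exact Ideal.Quotient.eq_zero_iff_mem

/-- a Hecke character is different from zero at almost all primes -/
theorem IsHecke.eventually_ne {𝔣 : Ideal (𝓞 K)} {k : (K →+* ℂ) → ℤ} {t : (K →+* ℂ) → ℝ}
    {ψ : Ideal (𝓞 K) →*₀ ℂ} (h : IsHecke 𝔣 k t ψ) :
    ∀ᶠ W : HeightOneSpectrum (𝓞 K) in cofinite, ψ W.asIdeal ≠ 0 := by
  rw [Filter.eventually_cofinite]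
  refine (Ideal.finite_factors h.ne_bot).subset fun W hW => ?_
  rw [Set.mem_ofPred_eq, not_not] at hW
  rw [Set.mem_ofPred_eq, Ideal.dvd_iff_le]
  by_contra h1
  have h2 : ¬ IsCoprime W.asIdeal 𝔣 := fun h3 => (h.supp _ W.ne_bot).2 h3 hW
  apply h2
  rw [Ideal.isCoprime_iff_sup_eq]
  have hm : W.asIdeal.IsMaximal := W.isMaximal
  refine hm.1.2 _ (lt_of_le_of_ne le_sup_left fun h4 => h1 ?_)
  rw [h4]
  exact le_sup_right

end one

section pair

variable (K : Type) {F F' : Type} [Field K] [NumberField K] [Field F] [NumberField F] [Algebra K F]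
  [Field F'] [NumberField F'] [Algebra K F']

/-- `χ(W ∩ F) = χ'(W ∩ F')` for almost all primes `W` of `L` whose norm is a prime number, with `F` and
`F'` embedded in `L` by `σ` and `σ'`. -/
def AgreeOn {F F' L : Type} [Field F] [Field F'] [Field L] [NumberField L] (σ : F →+* L)
    (σ' : F' →+* L) (χ : Ideal (𝓞 F) →*₀ ℂ) (χ' : Ideal (𝓞 F') →*₀ ℂ) : Prop :=
  ∀ᶠ W : HeightOneSpectrum (𝓞 L) in cofinite, (Ideal.absNorm W.asIdeal).Prime →
    χ (W.asIdeal.comap (RingOfIntegers.mapRingHom σ)) =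
      χ' (W.asIdeal.comap (RingOfIntegers.mapRingHom σ'))

/-- The embedding of `F` in the compositum `(F ⊗ F') / m`. -/
def leftEmb (m : MaximalSpectrum (F ⊗[K] F')) : F →+* Fac K F F' m :=
  (Ideal.Quotient.mk m.asIdeal).comp Algebra.TensorProduct.includeLeftRingHom

/-- The embedding of `F'` in the compositum `(F ⊗ F') / m`. -/
def rightEmb (m : MaximalSpectrum (F ⊗[K] F')) : F' →+* Fac K F F' m :=
  (Ideal.Quotient.mk m.asIdeal).comp
    (Algebra.TensorProduct.includeRight : F' →ₐ[K] F ⊗[K] F').toRingHom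

/-- `χ` and `χ'` agree on the compositum `(F ⊗ F') / m` of `F` and `F'` over `K`. -/
def Agree (χ : Ideal (𝓞 F) →*₀ ℂ) (χ' : Ideal (𝓞 F') →*₀ ℂ) (m : MaximalSpectrum (F ⊗[K] F')) :
    Prop := AgreeOn (leftEmb K m) (rightEmb K m) χ χ'

/-- The number of the composita `(F ⊗ F') / m` of `F` and `F'` over `K` on which `χ` and `χ'` agree. -/
noncomputable def mult (χ : Ideal (𝓞 F) →*₀ ℂ) (χ' : Ideal (𝓞 F') →*₀ ℂ) : ℕ :=
  Nat.card {m : MaximalSpectrum (F ⊗[K] F') // Agree K χ χ' m}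

theorem mapL (m : MaximalSpectrum (F ⊗[K] F')) :
    RingOfIntegers.mapRingHom (leftEmb K m) = iL K F F' m := by
  refine RingHom.ext fun x => RingOfIntegers.ext ?_
  have h1 := iL_iR_coe (K := K) m x 1
  have hR1 : iR K F F' m 1 = 1 := map_one _
  rw [hR1, mul_one] at h1
  rw [h1]
  rfl

theorem mapR (m : MaximalSpectrum (F ⊗[K] F')) :
    RingOfIntegers.mapRingHom (rightEmb K m) = iR K F F' m := by
  refine RingHom.ext fun x => RingOfIntegers.ext ?_
  have h1 := iL_iR_coe (K := K) m 1 x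
  have hL1 : iL K F F' m 1 = 1 := map_one _
  rw [hL1, one_mul] at h1
  rw [h1]
  rfl

theorem agree_iff (χ : Ideal (𝓞 F) →*₀ ℂ) (χ' : Ideal (𝓞 F') →*₀ ℂ)
    (m : MaximalSpectrum (F ⊗[K] F')) : Agree K χ χ' m ↔
      ∀ᶠ W : HeightOneSpectrum (𝓞 (Fac K F F' m)) in cofinite, (Ideal.absNorm W.asIdeal).Prime →
        χ (W.asIdeal.comap (iL K F F' m)) = χ' (W.asIdeal.comap (iR K F F' m)) := by
  unfold Agree AgreeOn
  rw [mapL, mapR]

variable {K}

variable {𝔣 : Ideal (𝓞 F)} {k : (F →+* ℂ) → ℤ} {t : (F →+* ℂ) → ℝ} {χ : Ideal (𝓞 F) →*₀ ℂ}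
  {𝔣' : Ideal (𝓞 F')} {k' : (F' →+* ℂ) → ℤ} {t' : (F' →+* ℂ) → ℝ} {χ' : Ideal (𝓞 F') →*₀ ℂ}

/-- the Hecke character of the compositum -/
theorem exists_comp (h : IsHecke 𝔣 k t χ) (h' : IsHecke 𝔣' k' t' χ')
    (m : MaximalSpectrum (F ⊗[K] F')) :
    ∃ (𝔪 : Ideal (𝓞 (Fac K F F' m))) (l : (Fac K F F' m →+* ℂ) → ℤ)
      (u : (Fac K F F' m →+* ℂ) → ℝ) (ψ : Ideal (𝓞 (Fac K F F' m)) →*₀ ℂ), IsHecke 𝔪 l u ψ ∧
      (∀ᶠ W : HeightOneSpectrum (𝓞 (Fac K F F' m)) in cofinite,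
        (Ideal.absNorm W.asIdeal).Prime → χ (W.asIdeal.comap (iL K F F' m)) ≠ 0 ∧
          χ' (W.asIdeal.comap (iR K F F' m)) ≠ 0) ∧
      ∀ x : HX (Fac K F F' m), hv ψ x = χ (RingHom.ker (x.2.comp (iL K F F' m))) *
        conj (χ' (RingHom.ker (x.2.comp (iR K F F' m)))) := by
  have hR1 : iR K F F' m 1 = 1 := map_one _
  have hL1 : iL K F F' m 1 = 1 := map_one _
  obtain ⟨𝔪, l, u, ψ, hψ, hψ2⟩ := exists_along
    ((Ideal.Quotient.mk m.asIdeal).comp
      (Algebra.TensorProduct.includeLeftRingHom : F →+* F ⊗[K] F') : F →+* Fac K F F' m)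
    (iL K F F' m) (fun x => by
      have h1 := iL_iR_coe (K := K) m x 1
      rw [hR1, mul_one] at h1
      rw [h1]
      rfl) h
  obtain ⟨𝔪', l', u', ψ', hψ', hψ'2⟩ := exists_along
    ((Ideal.Quotient.mk m.asIdeal).comp
      (Algebra.TensorProduct.includeRight : F' →ₐ[K] F ⊗[K] F').toRingHom : F' →+* Fac K F F' m)
    (iR K F F' m) (fun x => by
      have h1 := iL_iR_coe (K := K) m 1 x
      rw [hL1, one_mul] at h1
      rw [h1]
      rfl) h'
  refine ⟨_, _, _, _, hψ.mul hψ'.conj, ?_, ?_⟩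
  · filter_upwards [hψ.eventually_ne, hψ'.eventually_ne] with W h1 h2 hW
    obtain ⟨x, rfl⟩ := exists_vx W hW
    have : Fact (x.1 : ℕ).Prime := ⟨x.1.2⟩
    have e1 := hψ2 (x.1 : ℕ) x.2
    have e2 := hψ'2 (x.1 : ℕ) x.2
    have e3 : (vx x).asIdeal = RingHom.ker x.2 := rfl
    rw [e3] at h1 h2 ⊢
    rw [RingHom.comap_ker, RingHom.comap_ker]
    exact ⟨e1 ▸ h1, e2 ▸ h2⟩
  · intro x
    have : Fact (x.1 : ℕ).Prime := ⟨x.1.2⟩
    unfold hv
    rw [mulc_apply, cj_apply, hψ2 (x.1 : ℕ) x.2, hψ'2 (x.1 : ℕ) x.2]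

open Classical in
/-- **One compositum.** -/
theorem one_factor (hQ : StNvq) (h : IsHecke 𝔣 k t χ) (h' : IsHecke 𝔣' k' t' χ')
    (m : MaximalSpectrum (F ⊗[K] F')) :
    (fun ε => EH (Fac K F F' m) ε (fun x => (χ (RingHom.ker (x.2.comp (iL K F F' m))) *
        conj (χ' (RingHom.ker (x.2.comp (iR K F F' m))))).re) -
      (if Agree K χ χ' m then 1 else 0) * LL ε) =o[𝓝[>] 0] LL := by
  obtain ⟨𝔪, l, u, ψ, hψ, hne, hval⟩ := exists_comp h h' m
  have e0 : (fun x : HX (Fac K F F' m) => (χ (RingHom.ker (x.2.comp (iL K F F' m))) *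
      conj (χ' (RingHom.ker (x.2.comp (iR K F F' m))))).re) = fun x => (hv ψ x).re := by
    funext x
    rw [hval]
  rw [e0]
  by_cases hA : Agree K χ χ' m
  · rw [if_pos hA]
    have h1 := meanH_one (K := Fac K F F' m) (g := fun W => (ψ W.asIdeal).re)
      (fun W => (Complex.abs_re_le_norm _).trans (hψ.norm_le _)) (by
        filter_upwards [(agree_iff K χ χ' m).1 hA, hne] with W h1 h2 hW
        have h3 := h1 hW
        obtain ⟨h4, h5⟩ := h2 hW
        obtain ⟨x, rfl⟩ := exists_vx W hW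
        have e1 : ψ (vx x).asIdeal = hv ψ x := rfl
        have e2 : (vx x).asIdeal = RingHom.ker x.2 := rfl
        rw [e1, hval]
        rw [e2, RingHom.comap_ker, RingHom.comap_ker] at h3
        rw [e2, RingHom.comap_ker] at h5
        rw [h3, Complex.mul_conj, Complex.normSq_eq_norm_sq, h'.unit _ h5]
        simp)
    refine h1.congr_left fun ε => ?_
    rw [one_mul]
    rfl
  · rw [if_neg hA]
    have h2 : ∃ 𝔠, ψ 𝔠 ≠ 0 ∧ ψ 𝔠 ≠ 1 := by
      by_contra hcon
      push Not at hcon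
      apply hA
      rw [agree_iff]
      filter_upwards [hne] with W h3 hW
      obtain ⟨h4, h5⟩ := h3 hW
      obtain ⟨x, rfl⟩ := exists_vx W hW
      have e2 : (vx x).asIdeal = RingHom.ker x.2 := rfl
      rw [e2, RingHom.comap_ker, RingHom.comap_ker]
      rw [e2, RingHom.comap_ker] at h4 h5
      have e3 := hval x
      have h6 : hv ψ x ≠ 0 := by
        rw [e3]
        exact mul_ne_zero h4 ((map_ne_zero _).2 h5)
      have h7 : hv ψ x = 1 := hcon _ h6
      rw [e3] at h7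
      have h8 : χ' (RingHom.ker (x.2.comp (iR K F F' m))) *
          conj (χ' (RingHom.ker (x.2.comp (iR K F F' m)))) = 1 := by
        rw [Complex.mul_conj, Complex.normSq_eq_norm_sq, h'.unit _ h5]
        simp
      exact mul_right_cancel₀ ((map_ne_zero _).2 h5) (h7.trans h8.symm)
    refine (meanH_zero hQ hψ h2).congr_left fun ε => ?_
    rw [zero_mul, sub_zero]

theorem sum_hom_le {L : Type} [Field L] [NumberField L] (p : Nat.Primes)
    (f : (𝓞 L →+* ZMod (p : ℕ)) → ℝ) (hf : ∀ Ψ, |f Ψ| ≤ 1) : |∑ Ψ, f Ψ| ≤ dq L := by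
  refine (Finset.abs_sum_le_sum_abs _ _).trans ?_
  refine (Finset.sum_le_sum fun u _ => hf u).trans ?_
  rw [Finset.sum_const, nsmul_eq_mul, Finset.card_univ, mul_one]
  unfold dq
  exact_mod_cast card_hom_le p

/-- the trace of the induced representation -/
noncomputable def pc (K : Type) {F : Type} [Field K] [NumberField K] [Field F] [NumberField F]
    [Algebra K F] (χ : Ideal (𝓞 F) →*₀ ℂ) (x : HX K) : ℂ := push K (hv χ) x

theorem norm_pc_le (h : IsHecke 𝔣 k t χ) (x : HX K) : ‖pc K χ x‖ ≤ Module.finrank ℚ F := by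
  classical
  unfold pc push
  refine (norm_sum_le _ _).trans ?_
  refine (Finset.sum_le_sum fun ψ _ => norm_hv_le h _).trans ?_
  rw [Finset.sum_const, nsmul_eq_mul, mul_one]
  have h1 := Finset.card_filter_le (Finset.univ : Finset (𝓞 F →+* ZMod (x.1 : ℕ)))
    (fun ψ => res K ψ = x.2)
  rw [Finset.card_univ] at h1
  exact_mod_cast h1.trans (card_hom_le x.1)

theorem finset_isLittleO {ι : Type*} (s : Finset ι) {u : ι → ℝ → ℝ}
    (h : ∀ i ∈ s, (u i) =o[𝓝[>] 0] LL) : (fun ε => ∑ i ∈ s, u i ε) =o[𝓝[>] 0] LL := by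
  classical
  induction s using Finset.induction_on with
  | empty =>
    simp only [Finset.sum_empty]
    exact isLittleO_zero LL (𝓝[>] (0 : ℝ))
  | insert a s ha ih =>
    simp only [Finset.sum_insert ha]
    exact (h a (Finset.mem_insert_self a s)).add
      (ih fun i hi => h i (Finset.mem_insert_of_mem hi))

/-- a bounded function on the prime numbers which is zero outside of the divisors of `N` -/
theorem E_div {N : ℤ} (hN : N ≠ 0) {φ : Nat.Primes → ℝ} {B : ℝ} (hB : ∀ p, |φ p| ≤ B)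
    (h : ∀ p : Nat.Primes, ¬ ((p : ℕ) : ℤ) ∣ N → φ p = 0) :
    (fun ε => Pool.Agent.H341R2.E ε φ) =o[𝓝[>] 0] LL := by
  classical
  have hfin : {p : Nat.Primes | ((p : ℕ) : ℤ) ∣ N}.Finite := by
    have h1 : (N.natAbs.primeFactors : Set ℕ).Finite := Finset.finite_toSet _
    refine (h1.preimage (f := fun p : Nat.Primes => (p : ℕ)) ?_).subset ?_
    · exact fun a _ b _ h => Subtype.ext h
    · intro p hp
      simp only [Set.mem_preimage, Finset.mem_coe, Nat.mem_primeFactors]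
      refine ⟨p.2, ?_, Int.natAbs_ne_zero.2 hN⟩
      exact Int.natCast_dvd.1 hp
  apply bdd_isLittleO
  refine ⟨∑ p ∈ hfin.toFinset, B, ?_⟩
  filter_upwards [self_mem_nhdsWithin] with ε hε
  have hε' : (0 : ℝ) < ε := hε
  rw [Pool.Agent.H341R2.E, tsum_eq_sum (s := hfin.toFinset)]
  · refine (Finset.abs_sum_le_sum_abs _ _).trans (Finset.sum_le_sum fun p _ => ?_)
    rw [abs_mul, abs_of_nonneg (Pool.Agent.H341R2.w_nonneg ε p)]
    refine (mul_le_of_le_one_right (abs_nonneg _) ?_).trans (hB p)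
    apply Real.rpow_le_one_of_one_le_of_nonpos
    · exact_mod_cast p.2.one_lt.le
    · linarith
  · intro p hp
    have h2 : ¬ ((p : ℕ) : ℤ) ∣ N := fun h' => hp (hfin.mem_toFinset.2 h')
    rw [h p h2, zero_mul]

/-- **The Gram matrix.** -/
theorem gram (hQ : StNvq) (h : IsHecke 𝔣 k t χ) (h' : IsHecke 𝔣' k' t' χ') :
    (fun ε => EH K ε (fun x => (pc K χ x * conj (pc K χ' x)).re) - mult K χ χ' * LL ε)
      =o[𝓝[>] 0] LL := by
  classical
  obtain ⟨N, hN, hsum⟩ := pairs_sum K F F'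
  set f : ∀ m : MaximalSpectrum (F ⊗[K] F'), HX (Fac K F F' m) → ℝ := fun m x =>
    (χ (RingHom.ker (x.2.comp (iL K F F' m))) *
      conj (χ' (RingHom.ker (x.2.comp (iR K F F' m))))).re with hf
  have hfb : ∀ m x, |f m x| ≤ 1 := by
    intro m x
    rw [hf]
    refine (Complex.abs_re_le_norm _).trans ?_
    rw [norm_mul, Complex.norm_conj]
    exact mul_le_one₀ (h.norm_le _) (norm_nonneg _) (h'.norm_le _)
  -- the sum over the composita
  have h1 : (fun ε => (∑ m : MaximalSpectrum (F ⊗[K] F'), EH (Fac K F F' m) ε (f m)) -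
      mult K χ χ' * LL ε) =o[𝓝[>] 0] LL := by
    have h2 := finset_isLittleO (Finset.univ : Finset (MaximalSpectrum (F ⊗[K] F')))
      (fun m _ => one_factor hQ h h' m)
    refine h2.congr_left fun ε => ?_
    rw [Finset.sum_sub_distrib, ← Finset.sum_mul, Finset.sum_boole]
    congr 2
    unfold mult
    rw [Nat.card_eq_fintype_card, Fintype.card_subtype]
  -- comparison
  set Φ : Nat.Primes → ℝ := fun p => ∑ u : 𝓞 K →+* ZMod (p : ℕ),
    (pc K χ ⟨p, u⟩ * conj (pc K χ' ⟨p, u⟩)).re with hΦ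
  set Φ' : Nat.Primes → ℝ := fun p => ∑ m : MaximalSpectrum (F ⊗[K] F'),
    ∑ Ψ : 𝓞 (Fac K F F' m) →+* ZMod (p : ℕ), f m ⟨p, Ψ⟩ with hΦ'
  have hpcb : ∀ x : HX K, |(pc K χ x * conj (pc K χ' x)).re| ≤
      (Module.finrank ℚ F : ℝ) * Module.finrank ℚ F' := by
    intro x
    refine (Complex.abs_re_le_norm _).trans ?_
    rw [norm_mul, Complex.norm_conj]
    exact mul_le_mul (norm_pc_le h x) (norm_pc_le h' x) (norm_nonneg _) (by positivity)
  have hΦb : ∀ p, |Φ p| ≤ Module.finrank ℚ K * ((Module.finrank ℚ F : ℝ) * Module.finrank ℚ F') := by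
    intro p
    refine (Finset.abs_sum_le_sum_abs _ _).trans ?_
    refine (Finset.sum_le_sum fun u _ => hpcb _).trans ?_
    rw [Finset.sum_const, nsmul_eq_mul, Finset.card_univ]
    exact mul_le_mul_of_nonneg_right (by exact_mod_cast card_hom_le p) (by positivity)
  have hin : ∀ (m : MaximalSpectrum (F ⊗[K] F')) (p : Nat.Primes),
      |∑ Ψ : 𝓞 (Fac K F F' m) →+* ZMod (p : ℕ), f m ⟨p, Ψ⟩| ≤ dq (Fac K F F' m) :=
    fun m p => sum_hom_le p _ fun Ψ => hfb m _
  have hΦ'b : ∀ p, |Φ' p| ≤ ∑ m : MaximalSpectrum (F ⊗[K] F'),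
      dq (Fac K F F' m) := fun p =>
    (Finset.abs_sum_le_sum_abs _ _).trans (Finset.sum_le_sum fun m _ => hin m p)
  have heq : ∀ p : Nat.Primes, ¬ ((p : ℕ) : ℤ) ∣ N → Φ p = Φ' p := by
    intro p hp
    have h3 := hsum p hp (fun ψ ψ' => (χ (RingHom.ker ψ) * conj (χ' (RingHom.ker ψ'))).re)
    rw [hΦ, hΦ']
    simp only
    rw [hf]
    simp only
    rw [← h3]
    refine Finset.sum_congr rfl fun u _ => ?_
    unfold pc push
    rw [map_sum, Finset.sum_mul_sum, Complex.re_sum]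
    refine Finset.sum_congr rfl fun ψ _ => ?_
    rw [Complex.re_sum]
    rfl
  have h4 := E_div hN (φ := fun p => Φ p + (-1) * Φ' p) (B := Module.finrank ℚ K *
    ((Module.finrank ℚ F : ℝ) * Module.finrank ℚ F') + ∑ m : MaximalSpectrum (F ⊗[K] F'),
      dq (Fac K F F' m)) (fun p => by
      refine (abs_add_le _ _).trans (add_le_add (hΦb p) ?_)
      rw [abs_mul, abs_neg, abs_one, one_mul]
      exact hΦ'b p) (fun p hp => by rw [heq p hp]; ring)
  refine (h4.add h1).congr' ?_ (EventuallyEq.refl _ _)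
  filter_upwards [self_mem_nhdsWithin] with ε hε
  have hε' : (0 : ℝ) < ε := hε
  have e1 := EH_prime (K := K) hε' hpcb
  rw [Pool.Agent.H341R2.E_add hε' hΦb (B' := ∑ m : MaximalSpectrum (F ⊗[K] F'),
      dq (Fac K F F' m)) (fun p => by
      rw [abs_mul, abs_neg, abs_one, one_mul]
      exact hΦ'b p), Pool.Agent.H341R2.E_const_mul, e1]
  have e2 : Pool.Agent.H341R2.E ε Φ' =
      ∑ m : MaximalSpectrum (F ⊗[K] F'), EH (Fac K F F' m) ε (f m) := by
    rw [hΦ', Pool.Agent.H341R2.E_sum hε' _ _ (fun m => dq (Fac K F F' m))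
      (fun m _ p => hin m p)]
    refine Finset.sum_congr rfl fun m _ => ?_
    exact (EH_prime (K := Fac K F F' m) hε' (hfb m)).symm
  rw [e2]
  ring

end pair

end Pool.Agent.N172.HS
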