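import Pool.Agent.N172.HS.Cos

/-!
# Holomorphic continuation of the differences
-/

set_option autoImplicit false
set_option linter.unusedSectionVars false

namespace Pool.Agent.N172.HS

open NumberField Module

section field

variable {K : Type} [Field K] [NumberField K]

/-- the region -/
def Reg (K : Type) [Field K] [NumberField K] : Set ℂ :=
  {s | ‖s‖ < 3 ∧ 1 - 1 / (2 * (finrank ℚ K : ℝ)) < s.re}

lemma isOpen_Reg (K : Type) [Field K] [NumberField K] : IsOpen (Reg K) :=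
  (isOpen_lt continuous_norm continuous_const).inter
    (isOpen_lt continuous_const Complex.continuous_re)

lemma one_mem_Reg (K : Type) [Field K] [NumberField K] : (1 : ℂ) ∈ Reg K := by
  have := finrank_pos' (K := K)
  refine ⟨by rw [norm_one]; norm_num, ?_⟩
  rw [Complex.one_re]
  have : 0 < 1 / (2 * (finrank ℚ K : ℝ)) := by positivity
  linarith

lemma Reg_re {s : ℂ} (hs : s ∈ Reg K) : 0 < s.re ∧ (finrank ℚ K : ℝ) - 1 / 2 < finrank ℚ K * s.re := by
  have hn := finrank_pos' (K := K)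
  have h1 : (1 : ℝ) ≤ finrank ℚ K := by
    have : 0 < finrank ℚ K := Module.finrank_pos
    exact_mod_cast this
  have h2 := hs.2
  have h3 : 1 / (2 * (finrank ℚ K : ℝ)) ≤ 1 / 2 := by
    apply one_div_le_one_div_of_le (by norm_num)
    linarith
  constructor
  · linarith
  · have h4 : (finrank ℚ K : ℝ) * (1 - 1 / (2 * (finrank ℚ K : ℝ))) < finrank ℚ K * s.re :=
      mul_lt_mul_of_pos_left h2 hn
    have h5 : (finrank ℚ K : ℝ) * (1 - 1 / (2 * (finrank ℚ K : ℝ))) = finrank ℚ K - 1 / 2 := by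
      field_simp
    linarith

variable {𝔟 𝔠 𝔣 : Ideal (𝓞 K)} {k : (K →+* ℂ) → ℤ} {t : (K →+* ℂ) → ℝ} {ψ : Ideal (𝓞 K) →*₀ ℂ}

lemma differentiable_hh (k : (K →+* ℂ) → ℤ) (t : (K →+* ℂ) → ℝ) (x : K) :
    Differentiable ℂ fun s => hh k t s x := by
  unfold hh Ns
  fun_prop

lemma differentiable_Tm (x : 𝓞 K) : Differentiable ℂ fun s => Tm 𝔟 𝔠 k t ψ s x := by
  unfold Tm
  exact ((differentiable_hh k t (x : K)).const_mul _).const_mul _

lemma differentiable_AA {J : Ideal (𝓞 K)} [Fintype (𝓞 K ⧸ J)] (y : 𝓞 K) :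
    Differentiable ℂ fun s => AA 𝔟 𝔠 J k t ψ s y := by
  unfold AA
  exact Differentiable.fun_sum fun q _ => differentiable_Tm _

lemma exists_hh_le (K : Type) [Field K] [NumberField K] : ∃ c : ℝ, 0 < c ∧
    ∀ (k : (K →+* ℂ) → ℤ) (t : (K →+* ℂ) → ℝ) (s : ℂ) (x : K), 0 ≤ s.re → x ≠ 0 →
    ‖hh k t s x‖ ≤ (c * hs x) ^ (-(finrank ℚ K * s.re)) := by
  obtain ⟨c, hc, -, hsup⟩ := exists_support K
  refine ⟨c, hc, fun k t s x hs0 hx => ?_⟩
  have hp := hs_pos hx
  by_cases h : phi x = 0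
  · unfold hh
    rw [h, Complex.ofReal_zero, zero_mul, zero_mul, norm_zero]
    positivity
  · unfold hh
    rw [norm_mul, norm_mul, Complex.norm_real, Real.norm_eq_abs, abs_of_nonneg (phi_nonneg x),
      norm_arch hx, mul_one, norm_Ns]
    have h1 := Nm_ge hc hx (hsup x hx h)
    have h2 : Real.exp (-s.re * Real.log (Nm x)) ≤ (c * hs x) ^ (-(finrank ℚ K * s.re)) := by
      rw [Real.rpow_def_of_pos (by positivity), Real.exp_le_exp]
      nlinarith
    calc _ ≤ 1 * Real.exp (-s.re * Real.log (Nm x)) :=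
          mul_le_mul_of_nonneg_right (phi_le_one x) (Real.exp_pos _).le
      _ ≤ _ := by rw [one_mul]; exact h2

lemma Tm_zero (s : ℂ) : Tm 𝔟 𝔠 k t ψ s 0 = 0 := by
  unfold Tm
  rw [Om_zero, zero_mul, mul_zero]

lemma summable_OmHh (h : IsHecke 𝔣 k t ψ) {s : ℂ} (hs : 1 < s.re) :
    Summable fun x : 𝓞 K => ‖Om k t ψ x * hh k t s (x : K)‖ := by
  obtain ⟨c, hc, hle⟩ := exists_hh_le K
  have hn := finrank_pos' (K := K)
  have h1 := (summable_hs (K := K) (r := -(finrank ℚ K * s.re)) (by nlinarith)).mul_left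
    (c ^ (-(finrank ℚ K * s.re)))
  refine Summable.of_nonneg_of_le (fun _ => norm_nonneg _) (fun x => ?_) h1
  by_cases hx : x = 0
  · rw [hx, Om_zero, zero_mul, norm_zero]
    have := hs_nonneg ((0 : 𝓞 K) : K)
    positivity
  · rw [norm_mul, ← Real.mul_rpow hc.le (hs_nonneg _)]
    calc _ ≤ 1 * ‖hh k t s (x : K)‖ := mul_le_mul_of_nonneg_right (norm_Om_le h x) (norm_nonneg _)
      _ ≤ _ := by rw [one_mul]; exact hle k t s _ (by linarith) (coe_ne hx)

lemma summable_Tm (h : IsHecke 𝔣 k t ψ) {s : ℂ} (hs : 1 < s.re) :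
    Summable fun x : 𝓞 K => Tm 𝔟 𝔠 k t ψ s x := by
  refine Summable.of_norm_bounded ((summable_OmHh h hs).mul_left 2) fun x => ?_
  unfold Tm
  rw [norm_mul]
  exact mul_le_mul_of_nonneg_right (norm_Wt_le _ _ _) (norm_nonneg _)

/-- the decomposition into cosets -/
noncomputable def cosEquiv (J : Ideal (𝓞 K)) : J × (𝓞 K ⧸ J) ≃ 𝓞 K where
  toFun p := rep p.2 + p.1
  invFun x := (⟨x - rep (Ideal.Quotient.mk J x), by
    have := rep_mk (J := J) x
    rw [← neg_sub]
    exact neg_mem this⟩, Ideal.Quotient.mk J x)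
  left_inv p := by
    obtain ⟨⟨y, hy⟩, q⟩ := p
    have h1 : Ideal.Quotient.mk J (rep q + y) = q := by
      rw [map_add, mk_rep, Ideal.Quotient.eq_zero_iff_mem.2 hy, add_zero]
    refine Prod.ext (Subtype.ext ?_) h1
    simp only [h1]
    ring
  right_inv x := by
    simp only
    ring

lemma finite_hs_lt (R : ℝ) : {x : 𝓞 K | hs (x : K) < R}.Finite := by
  have h1 := Embeddings.finite_of_norm_le K ℂ R
  refine Set.Finite.of_finite_image (f := fun x : 𝓞 K => (x : K)) (h1.subset ?_)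
    (RingOfIntegers.coe_injective.injOn)
  rintro _ ⟨x, hx, rfl⟩
  refine ⟨RingOfIntegers.isIntegral_coe x, fun φ => ?_⟩
  exact (place_le_hs (InfinitePlace.mk φ) (x : K)).trans hx.le

/-- **Holomorphic continuation.** -/
theorem exists_hol (h : IsHecke 𝔣 k t ψ) (h𝔟 : 𝔟 ≠ ⊥) (h𝔠 : 𝔠 ≠ ⊥) (hcop : IsCoprime 𝔠 𝔣) :
    ∃ F : ℂ → ℂ, DifferentiableOn ℂ F (Reg K) ∧
      ∀ s ∈ Reg K, 1 < s.re → F s = ∑' x : 𝓞 K, Tm 𝔟 𝔠 k t ψ s x := by
  classical
  have hJne : 𝔟 * 𝔠 * 𝔣 ≠ ⊥ := mul_ne_zero (mul_ne_zero h𝔟 h𝔠) h.ne_bot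
  obtain ⟨J, hJ⟩ : ∃ J, J = 𝔟 * 𝔠 * 𝔣 := ⟨_, rfl⟩
  rw [← hJ] at hJne
  have hfin : Finite (𝓞 K ⧸ J) := Ideal.finiteQuotientOfFreeOfNeBot J hJne
  have hft : Fintype (𝓞 K ⧸ J) := Fintype.ofFinite _
  obtain ⟨C, R, hC, hR, hb⟩ := AA_bound h h𝔟 hcop hJ 3 (by norm_num)
  have hn := finrank_pos' (K := K)
  have hS : {y : J | hs ((y : 𝓞 K) : K) < R}.Finite :=
    (finite_hs_lt (K := K) R).preimage Subtype.val_injective.injOn
  set S : Finset J := hS.toFinset with hSdef
  have hmS : ∀ y : J, y ∈ S ↔ hs ((y : 𝓞 K) : K) < R := fun y => by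
    rw [hSdef, Set.Finite.mem_toFinset]
    rfl
  set D : J → ℂ → ℂ := fun y s => if y ∈ S then 0 else AA 𝔟 𝔠 J k t ψ s y with hD
  set u : J → ℝ := fun y => C * hs ((y : 𝓞 K) : K) ^ (-(finrank ℚ K : ℝ) - 1 / 2) with hu
  have husum : Summable u := by
    have h1 := (summable_hs (K := K) (r := -(finrank ℚ K : ℝ) - 1 / 2) (by linarith)).comp_injective
      (Subtype.val_injective : Function.Injective (fun y : J => (y : 𝓞 K)))
    exact h1.mul_left C
  have hDle : ∀ (y : J) (s : ℂ), s ∈ Reg K → ‖D y s‖ ≤ u y := by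
    intro y s hs
    simp only [hD, hu]
    by_cases hy : y ∈ S
    · rw [if_pos hy, norm_zero]
      have := hs_nonneg ((y : 𝓞 K) : K)
      positivity
    · rw [if_neg hy]
      have hy' : R ≤ HS.hs ((y : 𝓞 K) : K) := by
        by_contra h1
        exact hy ((hmS y).2 (not_le.1 h1))
      obtain ⟨r1, r2⟩ := Reg_re hs
      refine (hb y y.2 hy' s hs.1.le r1.le).trans ?_
      refine mul_le_mul_of_nonneg_left ?_ hC
      exact Real.rpow_le_rpow_of_exponent_le (hR.trans hy') (by linarith)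
  refine ⟨fun s => ∑ y ∈ S, AA 𝔟 𝔠 J k t ψ s y + ∑' y : J, D y s, ?_, fun s hs hs1 => ?_⟩
  · refine DifferentiableOn.add ?_ ?_
    · exact DifferentiableOn.fun_sum fun y _ => (differentiable_AA _).differentiableOn
    · refine Complex.differentiableOn_tsum_of_summable_norm husum (fun y => ?_) (isOpen_Reg K)
        fun y s hs => hDle y s hs
      simp only [hD]
      by_cases hy : y ∈ S
      · simp only [if_pos hy]
        exact differentiableOn_const _
      · simp only [if_neg hy]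
        exact (differentiable_AA _).differentiableOn
  · have hDs : Summable fun y : J => D y s :=
      Summable.of_norm_bounded husum fun y => hDle y s hs
    have hAs : Summable fun y : J => (if y ∈ S then AA 𝔟 𝔠 J k t ψ s y else 0) :=
      summable_of_ne_finset_zero (s := S) fun y hy => if_neg hy
    have e1 : ∑ y ∈ S, AA 𝔟 𝔠 J k t ψ s y =
        ∑' y : J, (if y ∈ S then AA 𝔟 𝔠 J k t ψ s y else 0) := by
      rw [tsum_eq_sum (s := S) (fun y hy => if_neg hy)]
      exact Finset.sum_congr rfl fun y hy => (if_pos hy).symm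
    show ∑ y ∈ S, AA 𝔟 𝔠 J k t ψ s y + ∑' y : J, D y s = _
    rw [e1, ← hAs.tsum_add hDs]
    have e2 : ∀ y : J, (if y ∈ S then AA 𝔟 𝔠 J k t ψ s y else 0) + D y s = AA 𝔟 𝔠 J k t ψ s y := by
      intro y
      simp only [hD]
      split_ifs <;> simp
    simp_rw [e2]
    have hT := summable_Tm (𝔟 := 𝔟) (𝔠 := 𝔠) h hs1
    rw [← (cosEquiv J).tsum_eq]
    have hT2 : Summable fun p : J × (𝓞 K ⧸ J) => Tm 𝔟 𝔠 k t ψ s (cosEquiv J p) :=
      hT.comp_injective (cosEquiv J).injective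
    rw [hT2.tsum_prod]
    refine tsum_congr fun y => ?_
    rw [tsum_fintype]
    rfl

end field

end Pool.Agent.N172.HS
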