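import Pool.Agent.N172.HS.Tent

/-!
# Sums over the ring of integers of a number field
-/

set_option autoImplicit false

namespace Pool.Agent.N172.HS

open NumberField Module

variable {K : Type} [Field K] [NumberField K]

/-- the largest absolute value of the conjugates -/
noncomputable def hs (x : K) : ℝ :=
  (Finset.univ : Finset (InfinitePlace K)).sup' Finset.univ_nonempty fun w => w x

lemma place_le_hs (w : InfinitePlace K) (x : K) : w x ≤ hs x :=
  Finset.le_sup' (fun w : InfinitePlace K => w x) (Finset.mem_univ w)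

lemma exists_place (x : K) : ∃ w : InfinitePlace K, w x = hs x := by
  obtain ⟨w, -, hw⟩ := Finset.exists_mem_eq_sup' (Finset.univ_nonempty (α := InfinitePlace K))
    (fun w => w x)
  exact ⟨w, hw.symm⟩

lemma hs_nonneg (x : K) : 0 ≤ hs x := by
  obtain ⟨w, hw⟩ := exists_place x
  rw [← hw]
  exact apply_nonneg w x

lemma hs_le {x : K} {B : ℝ} (h : ∀ w : InfinitePlace K, w x ≤ B) : hs x ≤ B := by
  obtain ⟨w, hw⟩ := exists_place x
  rw [← hw]
  exact h w

lemma hs_pos {x : K} (hx : x ≠ 0) : 0 < hs x := by
  obtain ⟨w⟩ := (inferInstance : Nonempty (InfinitePlace K))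
  exact lt_of_lt_of_le ((InfinitePlace.pos_iff).2 hx) (place_le_hs w x)

lemma hs_zero : hs (0 : K) = 0 := by
  obtain ⟨w, hw⟩ := exists_place (0 : K)
  rw [← hw, map_zero]

lemma place_add_le (w : InfinitePlace K) (x y : K) : w (x + y) ≤ w x + w y := by
  rw [← InfinitePlace.norm_embedding_eq, ← InfinitePlace.norm_embedding_eq,
    ← InfinitePlace.norm_embedding_eq, map_add]
  exact norm_add_le _ _

lemma hs_add_le (x y : K) : hs (x + y) ≤ hs x + hs y := by
  refine hs_le fun w => ?_
  have h1 := place_add_le w x y
  linarith [place_le_hs w x, place_le_hs w y]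

open scoped Classical in
lemma hs_eq_norm (x : K) : hs x = ‖mixedEmbedding K x‖ := by
  rw [mixedEmbedding.norm_eq_sup'_normAtPlace]
  unfold hs
  simp only [mixedEmbedding.normAtPlace_apply]

open scoped Classical in
theorem summable_hs {r : ℝ} (hr : r < -(finrank ℚ K : ℝ)) :
    Summable fun x : 𝓞 K => hs (x : K) ^ r := by
  have h0 : finrank ℤ (mixedEmbedding.integerLattice K) = finrank ℚ K := by
    rw [ZLattice.rank ℝ, mixedEmbedding.finrank]
  have h1 := ZLattice.summable_norm_rpow (mixedEmbedding.integerLattice K) r (by rw [h0]; exact hr)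
  let f : 𝓞 K → mixedEmbedding.integerLattice K := fun x => ⟨mixedEmbedding K (x : K), ⟨x, rfl⟩⟩
  have hf : Function.Injective f := by
    intro x y h
    have h2 : mixedEmbedding K (x : K) = mixedEmbedding K (y : K) := congrArg Subtype.val h
    exact RingOfIntegers.coe_injective (mixedEmbedding_injective K h2)
  refine (h1.comp_injective hf).congr fun x => ?_
  simp only [Function.comp_apply]
  rw [hs_eq_norm]
  rfl

end Pool.Agent.N172.HS
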