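import Pool.Agent.N172.HS.Nrm
import Pool.Agent.Y773.HK.Eul
import Pool.Agent.W353.PV.Sys

/-!
# Mean values of Hecke characters over the primes
-/

set_option autoImplicit false
set_option linter.unusedSectionVars false

namespace Pool.Agent.N172.HS

open NumberField Complex Filter Topology IsDedekindDomain Asymptotics
open Pool.Agent.Y773 (LI zz norm_zz_lt hasSum_log)
open Pool.Agent.Y772.DK (LI_eq_exp)
open Pool.Agent.W540.BE (EP nm normSys two_le_nm summable_and_boundP)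
open Pool.Agent.H341R2 (sysK NormSys lam norm_neg_log_sub_le nm_kerPrime)
open Pool.Agent.H921R2.TatePole (kerPrime)
open Pool.Agent.W353.TP (HX sysH E_H EH_eq LL bdd_isLittleO lamS_sub push res)
open Pool.Agent.W353.NF (vx)
open scoped ComplexConjugate

theorem finsupp_E (S : NormSys) (T : Finset S.X) {φ : S.X → ℝ} (hφ : ∀ x ∉ T, φ x = 0) {B : ℝ}
    (hB : ∀ x, |φ x| ≤ B) {ε : ℝ} (hε : 0 < ε) : |S.E ε φ| ≤ T.card * B := by
  classical
  unfold NormSys.E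
  rw [tsum_eq_sum (s := T)]
  · refine (Finset.abs_sum_le_sum_abs _ _).trans ?_
    refine (Finset.sum_le_card_nsmul _ _ B fun x _ => ?_).trans (by rw [nsmul_eq_mul])
    rw [abs_mul, abs_of_nonneg (S.w_nonneg ε x)]
    refine (mul_le_of_le_one_right (abs_nonneg _) ?_).trans (hB x)
    apply Real.rpow_le_one_of_one_le_of_nonpos
    · have := S.two_le x
      exact_mod_cast (by omega : 1 ≤ S.N x)
    · linarith
  · intro x hx
    rw [hφ x hx, zero_mul]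

section sums

variable (K : Type) [Field K] [NumberField K]

/-- the weighted sum over the primes of degree one -/
noncomputable def EH (ε : ℝ) (φ : HX K → ℝ) : ℝ := (sysH K).E ε φ

/-- the weighted sum over the primes -/
noncomputable def EV (ε : ℝ) (g : HeightOneSpectrum (𝓞 K) → ℝ) : ℝ := (sysK K).E ε g

variable {K}

theorem EH_add {ε : ℝ} (hε : 0 < ε) {φ ψ : HX K → ℝ} {B B' : ℝ} (hφ : ∀ p, |φ p| ≤ B)
    (hψ : ∀ p, |ψ p| ≤ B') : EH K ε (fun p => φ p + ψ p) = EH K ε φ + EH K ε ψ :=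
  (sysH K).E_add hε hφ hψ

theorem EH_const_mul {ε : ℝ} (c : ℝ) (φ : HX K → ℝ) :
    EH K ε (fun p => c * φ p) = c * EH K ε φ := (sysH K).E_const_mul c φ

theorem EH_sum {ε : ℝ} (hε : 0 < ε) {κ : Type*} (T : Finset κ) (φ : κ → HX K → ℝ)
    (B : κ → ℝ) (hφ : ∀ k ∈ T, ∀ p, |φ k p| ≤ B k) :
    EH K ε (fun p => ∑ k ∈ T, φ k p) = ∑ k ∈ T, EH K ε (φ k) := (sysH K).E_sum hε T φ B hφ

theorem EH_one (ε : ℝ) : EH K ε (fun _ => 1) = (sysH K).lam ε := by
  unfold EH NormSys.E NormSys.lam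
  exact tsum_congr fun p => one_mul _

theorem EV_finsupp (T : Finset (HeightOneSpectrum (𝓞 K))) {g : HeightOneSpectrum (𝓞 K) → ℝ}
    (hg : ∀ x ∉ T, g x = 0) {B : ℝ} (hB : ∀ x, |g x| ≤ B) {ε : ℝ} (hε : 0 < ε) :
    |EV K ε g| ≤ T.card * B := finsupp_E (sysK K) T hg hB hε

theorem EV_EH {g : HeightOneSpectrum (𝓞 K) → ℝ} {C : ℝ} (hg : ∀ v, |g v| ≤ C) {ε : ℝ}
    (hε : 0 < ε) : |EV K ε g - EH K ε (fun x => g (vx x))| ≤
      C * Module.finrank ℚ K * Pool.Agent.H921R2.TatePole.C0 := E_H hg hε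

theorem EH_push' {F : Type} [Field F] [NumberField F] [Algebra K F] {ε : ℝ} (hε : 0 < ε)
    {h : HX F → ℝ} {B : ℝ} (hB : ∀ x, |h x| ≤ B) : EH F ε h = EH K ε (push K h) :=
  Pool.Agent.W353.TP.EH_push hε hB

theorem EH_prime {ε : ℝ} (hε : 0 < ε) {φ : HX K → ℝ} {B : ℝ} (hφ : ∀ x, |φ x| ≤ B) :
    EH K ε φ = Pool.Agent.H341R2.E ε fun p => ∑ u : 𝓞 K →+* ZMod (p : ℕ), φ ⟨p, u⟩ :=
  EH_eq hε hφ

end sums

section field

variable {K : Type} [Field K] [NumberField K]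

/-- the primes as ideals -/
def primeEquiv (K : Type) [Field K] [NumberField K] :
    HeightOneSpectrum (𝓞 K) ≃ {𝔭 : Ideal (𝓞 K) // Prime 𝔭} where
  toFun v := ⟨v.asIdeal, v.prime⟩
  invFun 𝔭 := ⟨𝔭.1, Ideal.isPrime_of_prime 𝔭.2, 𝔭.2.ne_zero⟩
  left_inv _ := rfl
  right_inv _ := rfl

/-- **The logarithm of the L-function near `s = 1`** -/
theorem log_LI {ψ : Ideal (𝓞 K) →*₀ ℂ} (hψ : ∀ 𝔞, ‖ψ 𝔞‖ ≤ 1) :
    ∃ C : ℝ, ∀ ε : ℝ, 0 < ε →
      |Real.log ‖LI ψ (1 + (ε : ℂ))‖ - EV K ε (fun v => (ψ v.asIdeal).re)| ≤ C := by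
  classical
  refine ⟨|1| * ∑' v : HeightOneSpectrum (𝓞 K), (nm K v : ℝ) ^ (-2 : ℝ), fun ε hε => ?_⟩
  have hs : 1 < (1 + (ε : ℂ)).re := by
    rw [add_re, one_re, ofReal_re]; linarith
  set G : HeightOneSpectrum (𝓞 K) → ℂ := fun v => -Complex.log (1 - zz ψ (1 + (ε : ℂ)) v.asIdeal)
    with hG
  have h1 := hasSum_log hψ hs
  have h2 : HasSum G (Pool.Agent.Y772.DK.LA (Pool.Agent.Y772.DK.ee ψ) (1 + (ε : ℂ))) :=
    (primeEquiv K).hasSum_iff.2 h1
  have hN : (Pool.Agent.W540.BE.NormSys (nm K)) := normSys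
  have hz : ∀ v : HeightOneSpectrum (𝓞 K), zz ψ (1 + (ε : ℂ)) v.asIdeal =
      ψ v.asIdeal * (((nm K v : ℝ) ^ (-(1 + ε)) : ℝ) : ℂ) := by
    intro v
    unfold zz
    congr 1
    rw [Complex.ofReal_cpow (Nat.cast_nonneg _)]
    push_cast
    rfl
  have hzn : ∀ v : HeightOneSpectrum (𝓞 K), ‖zz ψ (1 + (ε : ℂ)) v.asIdeal‖ ≤
      (nm K v : ℝ) ^ (-1 : ℝ) := by
    intro v
    rw [hz, norm_mul, Complex.norm_real, Real.norm_of_nonneg (by positivity)]
    have h3 : (1 : ℝ) ≤ nm K v := by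
      have := two_le_nm v
      exact_mod_cast (by omega : 1 ≤ nm K v)
    calc ‖ψ v.asIdeal‖ * (nm K v : ℝ) ^ (-(1 + ε)) ≤ 1 * (nm K v : ℝ) ^ (-(1 + ε)) :=
          mul_le_mul_of_nonneg_right (hψ _) (by positivity)
      _ ≤ (nm K v : ℝ) ^ (-1 : ℝ) := by
          rw [one_mul]
          exact Real.rpow_le_rpow_of_exponent_le h3 (by linarith)
  have hhalf : ∀ v : HeightOneSpectrum (𝓞 K), (nm K v : ℝ) ^ (-1 : ℝ) ≤ 1 / 2 := by
    intro v
    rw [Real.rpow_neg_one, one_div]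
    exact inv_anti₀ (by norm_num) (by exact_mod_cast two_le_nm v)
  obtain ⟨-, hb⟩ := summable_and_boundP hN (Good := fun _ => True) hε G (fun v => ψ v.asIdeal)
    (C := 1) (K := 1) (fun v => hψ _) (fun v hv => absurd trivial hv) (fun v _ => by
      rw [← hz]
      refine (norm_neg_log_sub_le ((hzn v).trans (hhalf v))).trans ?_
      rw [one_mul]
      have h4 := pow_le_pow_left₀ (norm_nonneg _) (hzn v) 2
      refine h4.trans (le_of_eq ?_)
      rw [← Real.rpow_natCast, ← Real.rpow_mul (Nat.cast_nonneg _)]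
      norm_num)
  simp only [if_true] at hb
  rw [h2.tsum_eq] at hb
  rw [LI_eq_exp ψ hψ hs, Complex.norm_exp, Real.log_exp]
  exact hb

/-- **The mean value of a nontrivial Hecke character is zero.** -/
theorem mean_zero (hQ : StNvq) {𝔣 : Ideal (𝓞 K)} {k : (K →+* ℂ) → ℤ} {t : (K →+* ℂ) → ℝ}
    {ψ : Ideal (𝓞 K) →*₀ ℂ} (h : IsHecke 𝔣 k t ψ) (h1 : ∃ 𝔠, ψ 𝔠 ≠ 0 ∧ ψ 𝔠 ≠ 1) :
    ∃ C : ℝ, ∀ᶠ ε : ℝ in 𝓝[>] 0, |EV K ε (fun v => (ψ v.asIdeal).re)| ≤ C := by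
  obtain ⟨G, hG, hG1, hGL⟩ := nonvanishing hQ h h1
  obtain ⟨C, hC⟩ := log_LI h.norm_le
  have ht : Tendsto (fun ε : ℝ => (1 : ℂ) + (ε : ℂ)) (𝓝[>] 0) (𝓝 (1 : ℂ)) := by
    have : Continuous (fun ε : ℝ => (1 : ℂ) + (ε : ℂ)) := by fun_prop
    have h0 := this.tendsto 0
    simp only [Complex.ofReal_zero, add_zero] at h0
    exact h0.mono_left nhdsWithin_le_nhds
  have h2 : Tendsto (fun ε : ℝ => Real.log ‖G (1 + (ε : ℂ))‖) (𝓝[>] 0) (𝓝 (Real.log ‖G 1‖)) :=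
    ((hG.continuousAt.tendsto.comp ht).norm).log (norm_ne_zero_iff.2 hG1)
  obtain ⟨C₂, hC₂⟩ := h2.abs.isBoundedUnder_le
  refine ⟨C + C₂, ?_⟩
  filter_upwards [Filter.eventually_map.1 hC₂, self_mem_nhdsWithin] with ε h3 h4
  have hε : (0 : ℝ) < ε := h4
  have h5 := hC ε hε
  rw [← hGL _ (by rw [add_re, one_re, ofReal_re]; linarith)] at h5
  have h6 : EV K ε (fun v => (ψ v.asIdeal).re) =
      -(Real.log ‖G (1 + (ε : ℂ))‖ - EV K ε (fun v => (ψ v.asIdeal).re)) +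
        Real.log ‖G (1 + (ε : ℂ))‖ := by ring
  rw [h6]
  refine (abs_add_le _ _).trans (add_le_add ?_ h3)
  rwa [abs_neg]

/-- the value at the primes of degree one -/
noncomputable def hv (ψ : Ideal (𝓞 K) →*₀ ℂ) (x : HX K) : ℂ := ψ (RingHom.ker x.2)

theorem hv_eq (ψ : Ideal (𝓞 K) →*₀ ℂ) (x : HX K) : hv ψ x = ψ (vx x).asIdeal := rfl

theorem norm_hv_le {𝔣 : Ideal (𝓞 K)} {k : (K →+* ℂ) → ℤ} {t : (K →+* ℂ) → ℝ}
    {ψ : Ideal (𝓞 K) →*₀ ℂ} (h : IsHecke 𝔣 k t ψ) (x : HX K) : ‖hv ψ x‖ ≤ 1 := h.norm_le _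

/-- a nontrivial Hecke character at the primes of degree one -/
theorem meanH_zero (hQ : StNvq) {𝔣 : Ideal (𝓞 K)} {k : (K →+* ℂ) → ℤ} {t : (K →+* ℂ) → ℝ}
    {ψ : Ideal (𝓞 K) →*₀ ℂ} (h : IsHecke 𝔣 k t ψ) (h1 : ∃ 𝔠, ψ 𝔠 ≠ 0 ∧ ψ 𝔠 ≠ 1) :
    (fun ε => EH K ε (fun x => (hv ψ x).re)) =o[𝓝[>] 0] LL := by
  obtain ⟨C, hC⟩ := mean_zero hQ h h1
  apply bdd_isLittleO
  refine ⟨C + 1 * Module.finrank ℚ K * Pool.Agent.H921R2.TatePole.C0, ?_⟩
  filter_upwards [hC, self_mem_nhdsWithin] with ε h2 h3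
  have hε : (0 : ℝ) < ε := h3
  have h4 := EV_EH (K := K) (g := fun v => (ψ v.asIdeal).re) (C := 1)
    (fun v => (Complex.abs_re_le_norm _).trans (h.norm_le _)) hε
  have e : (fun x : HX K => (ψ (vx x).asIdeal).re) = fun x : HX K => (hv ψ x).re := rfl
  rw [e] at h4
  have h5 : EH K ε (fun x => (hv ψ x).re) =
      EV K ε (fun v => (ψ v.asIdeal).re) - (EV K ε (fun v => (ψ v.asIdeal).re) -
        EH K ε (fun x : HX K => (hv ψ x).re)) := by ring
  rw [h5]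
  exact (abs_sub _ _).trans (add_le_add h2 h4)

theorem absNorm_vx (x : HX K) : Ideal.absNorm (vx x).asIdeal = (x.1 : ℕ) := nm_kerPrime x.1 x.2

/-- a function equal to one at almost all primes of degree one -/
theorem meanH_one {g : HeightOneSpectrum (𝓞 K) → ℝ} (hg : ∀ v, |g v| ≤ 1)
    (h : ∀ᶠ v : HeightOneSpectrum (𝓞 K) in cofinite, (Ideal.absNorm v.asIdeal).Prime → g v = 1) :
    (fun ε => EH K ε (fun x => g (vx x)) - LL ε) =o[𝓝[>] 0] LL := by
  classical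
  set u : HeightOneSpectrum (𝓞 K) → ℝ := fun v =>
    if (Ideal.absNorm v.asIdeal).Prime then g v - 1 else 0 with hu
  have hub : ∀ v, |u v| ≤ 2 := by
    intro v
    rw [hu]
    simp only
    split_ifs
    · refine (abs_sub _ _).trans ?_
      rw [abs_one]
      linarith [hg v]
    · rw [abs_zero]; norm_num
  have hfin : {v | ¬ u v = 0}.Finite := by
    have h2 : ∀ᶠ v in cofinite, u v = 0 := by
      filter_upwards [h] with v hv
      rw [hu]
      simp only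
      split_ifs with h3
      · rw [hv h3, sub_self]
      · rfl
    rwa [Filter.eventually_cofinite] at h2
  have h1 : (fun ε => EH K ε (fun x => g (vx x)) - (sysH K).lam ε) =o[𝓝[>] 0] LL := by
    apply bdd_isLittleO
    refine ⟨hfin.toFinset.card * 2 + 2 * Module.finrank ℚ K * Pool.Agent.H921R2.TatePole.C0, ?_⟩
    filter_upwards [self_mem_nhdsWithin] with ε h3
    have hε : (0 : ℝ) < ε := h3
    have h4 := EV_EH (K := K) hub hε
    have h5 := EV_finsupp hfin.toFinset (g := u) (fun v hv => by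
      rw [Set.Finite.mem_toFinset] at hv
      by_contra h
      exact hv h) hub hε
    have h6 : EH K ε (fun x => g (vx x)) - (sysH K).lam ε =
        EH K ε (fun x : HX K => u (vx x)) := by
      have e2 : (fun x : HX K => g (vx x)) = fun x : HX K => u (vx x) + 1 := by
        funext x
        have hp : (Ideal.absNorm (vx x).asIdeal).Prime := by
          rw [absNorm_vx]
          exact x.1.2
        rw [hu]
        simp only
        rw [if_pos hp]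
        ring
      rw [← EH_one, e2, EH_add hε (fun x => hub _) (B' := 1) (fun _ => by simp)]
      ring
    rw [h6]
    have h7 : EH K ε (fun x : HX K => u (vx x)) =
        EV K ε u - (EV K ε u - EH K ε (fun x : HX K => u (vx x))) := by ring
    rw [h7]
    exact (abs_sub _ _).trans (add_le_add h5 h4)
  refine (h1.add (lamS_sub (sysH K))).congr_left fun ε => ?_
  ring

end field

end Pool.Agent.N172.HS
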