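import Pool.Agent.N172.HS.Sg

/-!
# The general inequality
-/

set_option autoImplicit false
set_option linter.unusedSectionVars false

namespace Pool.Agent.N172.HS

open NumberField Complex Filter Topology IsDedekindDomain Asymptotics Polynomial
open Pool.Agent.W353.TP (HX sysH LL LL_tendsto bdd_isLittleO corr_sq_le E_norm_sq final_ineq
  lamS_sub)
open Pool.Agent.H341R2 (NormSys)
open scoped ComplexConjugate

section

variable {K : Type} [Field K] [NumberField K]

/-- the Gram matrix of bounded functions on the primes of degree one -/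
def HasGram (f f' : HX K → ℂ) (g : ℝ) : Prop :=
  (fun ε => EH K ε (fun x => (f x * conj (f' x)).re) - g * LL ε) =o[𝓝[>] 0] LL

/-- a bounded function -/
def Bdd (f : HX K → ℂ) : Prop := ∃ b : ℝ, 0 ≤ b ∧ ∀ x, ‖f x‖ ≤ b

theorem Bdd.re_mul {f f' : HX K → ℂ} (h : Bdd f) (h' : Bdd f') :
    ∃ b : ℝ, ∀ x, |(f x * conj (f' x)).re| ≤ b := by
  obtain ⟨b, hb0, hb⟩ := h
  obtain ⟨b', hb'0, hb'⟩ := h'
  refine ⟨b * b', fun x => ?_⟩
  refine (Complex.abs_re_le_norm _).trans ?_
  rw [norm_mul, Complex.norm_conj]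
  exact mul_le_mul (hb x) (hb' x) (norm_nonneg _) hb0

theorem Bdd.sum {κ : Type*} (T : Finset κ) {f : κ → HX K → ℂ} (h : ∀ k ∈ T, Bdd (f k))
    (c : κ → ℂ) : Bdd (fun x => ∑ k ∈ T, c k * f k x) := by
  classical
  induction T using Finset.induction_on with
  | empty => exact ⟨0, le_rfl, fun x => by simp⟩
  | insert a s ha ih =>
    obtain ⟨b, hb0, hb⟩ := ih fun k hk => h k (Finset.mem_insert_of_mem hk)
    obtain ⟨b', hb'0, hb'⟩ := h a (Finset.mem_insert_self a s)
    refine ⟨‖c a‖ * b' + b, by positivity, fun x => ?_⟩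
    simp only
    rw [Finset.sum_insert ha]
    refine (norm_add_le _ _).trans (add_le_add ?_ (hb x))
    rw [norm_mul]
    exact mul_le_mul_of_nonneg_left (hb' x) (norm_nonneg _)

theorem WRep.bdd (ρ : WRep K) : Bdd ρ.tH := ⟨ρ.bd, ρ.bd_nonneg, ρ.norm_tH_le⟩

theorem LL_not_littleO {c : ℝ} (h : (fun ε => c * LL ε) =o[𝓝[>] 0] LL) : c = 0 := by
  by_contra hc
  have h1 : (fun ε => LL ε) =o[𝓝[>] 0] LL := by
    have h2 := h.const_mul_left c⁻¹
    refine h2.congr_left fun ε => ?_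
    rw [inv_mul_cancel_left₀ hc]
  have h3 := h1.tendsto_div_nhds_zero
  have h4 : Tendsto (fun ε => LL ε / LL ε) (𝓝[>] 0) (𝓝 1) := by
    refine tendsto_const_nhds.congr' ?_
    filter_upwards [LL_tendsto.eventually_gt_atTop 0] with ε h5
    exact (div_self h5.ne').symm
  exact zero_ne_one (tendsto_nhds_unique h3 h4)

theorem HasGram.unique {f f' : HX K → ℂ} {g g' : ℝ} (h : HasGram f f' g) (h' : HasGram f f' g') :
    g = g' := by
  have h1 : (fun ε => (g' - g) * LL ε) =o[𝓝[>] 0] LL := by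
    refine (h.sub h').congr_left fun ε => ?_
    ring
  have := LL_not_littleO h1
  linarith

theorem HasGram.symm {f f' : HX K → ℂ} {g : ℝ} (h : HasGram f f' g) : HasGram f' f g := by
  unfold HasGram at h ⊢
  refine h.congr_left fun ε => ?_
  congr 2
  funext x
  have : f' x * conj (f x) = conj (f x * conj (f' x)) := by
    rw [map_mul, Complex.conj_conj, mul_comm]
  rw [this, Complex.conj_re]

/-- bilinearity -/
theorem HasGram.sum {κ κ' : Type*} (T : Finset κ) (T' : Finset κ') {f : κ → HX K → ℂ}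
    {f' : κ' → HX K → ℂ} (hf : ∀ k ∈ T, Bdd (f k)) (hf' : ∀ k ∈ T', Bdd (f' k)) (c : κ → ℝ)
    (c' : κ' → ℝ) {g : κ → κ' → ℝ} (h : ∀ k ∈ T, ∀ l ∈ T', HasGram (f k) (f' l) (g k l)) :
    HasGram (fun x => ∑ k ∈ T, (c k : ℂ) * f k x) (fun x => ∑ l ∈ T', (c' l : ℂ) * f' l x)
      (∑ k ∈ T, ∑ l ∈ T', c k * c' l * g k l) := by
  classical
  have h4 := finset_isLittleO T (fun k hk => finset_isLittleO T'
    (fun l hl => (h k hk l hl).const_mul_left (c k * c' l)))
  refine h4.congr' ?_ (EventuallyEq.refl _ _)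
  filter_upwards [self_mem_nhdsWithin] with ε hε
  have hε' : (0 : ℝ) < ε := hε
  have hb : ∀ k l, ∃ b : ℝ, k ∈ T → l ∈ T' → ∀ x, |c k * c' l * (f k x * conj (f' l x)).re| ≤ b := by
    intro k l
    by_cases hk : k ∈ T ∧ l ∈ T'
    · obtain ⟨b, hb⟩ := (hf k hk.1).re_mul (hf' l hk.2)
      refine ⟨|c k * c' l| * b, fun _ _ x => ?_⟩
      rw [abs_mul]
      exact mul_le_mul_of_nonneg_left (hb x) (abs_nonneg _)
    · exact ⟨0, fun h1 h2 => absurd ⟨h1, h2⟩ hk⟩
  choose b hb using hb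
  have e1 : (fun x => ((∑ k ∈ T, (c k : ℂ) * f k x) * conj (∑ l ∈ T', (c' l : ℂ) * f' l x)).re) =
      fun x => ∑ k ∈ T, ∑ l ∈ T', c k * c' l * (f k x * conj (f' l x)).re := by
    funext x
    rw [map_sum, Finset.sum_mul_sum, Complex.re_sum]
    refine Finset.sum_congr rfl fun k _ => ?_
    rw [Complex.re_sum]
    refine Finset.sum_congr rfl fun l _ => ?_
    rw [map_mul, Complex.conj_ofReal]
    have e2 : (c k : ℂ) * f k x * ((c' l : ℂ) * conj (f' l x)) =
        ((c k * c' l : ℝ) : ℂ) * (f k x * conj (f' l x)) := by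
      push_cast
      ring
    rw [e2, Complex.re_ofReal_mul]
  rw [e1, EH_sum hε' T (fun k x => ∑ l ∈ T', c k * c' l * (f k x * conj (f' l x)).re)
    (fun k => ∑ l ∈ T', b k l) (fun k hk x => (Finset.abs_sum_le_sum_abs _ _).trans
      (Finset.sum_le_sum fun l hl => hb k l hk hl x)), Finset.sum_mul, ← Finset.sum_sub_distrib]
  refine Finset.sum_congr rfl fun k hk => ?_
  rw [EH_sum hε' T' _ (fun l => b k l) (fun l hl x => hb k l hk hl x), Finset.sum_mul,
    ← Finset.sum_sub_distrib]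
  refine Finset.sum_congr rfl fun l _ => ?_
  rw [EH_const_mul]
  ring

theorem EH_sq_le {T : HX K → ℝ} {W : HX K → ℂ} {b w : ℝ} (hb0 : 0 ≤ b) (hT : ∀ x, |T x| ≤ b)
    (hW : ∀ x, ‖W x‖ ≤ w) {ε : ℝ} (hε : 0 < ε) :
    (EH K ε (fun x => T x * (W x).re)) ^ 2 ≤
      b ^ 2 * ((sysH K).lam ε * EH K ε (fun x => ‖W x‖ ^ 2)) := by
  have h := corr_sq_le (sysH K) ({()} : Finset Unit) (fun _ x => ((T x : ℝ) : ℂ)) (fun _ => W)
    (fun _ => b) (fun _ => w) (fun _ _ => hb0) (fun _ _ x => by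
      rw [Complex.norm_real, Real.norm_eq_abs]
      exact hT x) (fun _ _ => hW) hε
  simp only [Finset.sum_singleton] at h
  have e1 : ((sysH K).E ε fun p => (((T p : ℝ) : ℂ) * conj (W p)).re) =
      EH K ε (fun x => T x * (W x).re) := by
    unfold EH
    congr 1
    funext x
    rw [Complex.re_ofReal_mul, Complex.conj_re]
  rw [e1] at h
  refine h.trans (le_of_eq ?_)
  have e2 : ((sysH K).E ε fun p => ‖W p‖ ^ 2) = EH K ε (fun x => ‖W x‖ ^ 2) := rfl
  rw [e2]
  ring

/-- **The general inequality.** -/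
theorem multi {κ A : Type} [Fintype κ] [Fintype A] (f : κ → A → HX K → ℂ)
    (hf : ∀ k a, Bdd (f k a)) (g : A → κ → κ → ℝ)
    (hg : ∀ a k k', HasGram (f k a) (f k' a) (g a k k')) (T : A → HX K → ℝ) (N : A → ℝ)
    (hT : ∀ a x, |T a x| ≤ N a) (c : κ → ℝ) (z : κ → ℝ → ℝ)
    (hz : ∀ k, (fun ε => z k ε * LL ε - EH K ε (fun x => ∑ a, T a x * (f k a x).re))
      =o[𝓝[>] 0] LL) {η : ℝ} (hη : 0 < η) :
    ∀ᶠ ε : ℝ in 𝓝[>] 0, (∑ k, c k * z k ε) ^ 2 ≤
      (∑ a, N a ^ 2) * ∑ a, ∑ k, ∑ k', c k * c k' * g a k k' + η := by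
  classical
  have hN0 : ∀ a, 0 ≤ N a := by
    intro a
    exact (abs_nonneg _).trans (hT a ((Pool.Agent.W353.TP.sysH K).nonempty.some))
  choose b hb0 hb using hf
  set W : A → HX K → ℂ := fun a x => ∑ k, (c k : ℂ) * f k a x with hW
  have hWb : ∀ a x, ‖W a x‖ ≤ ∑ k, |c k| * b k a := by
    intro a x
    refine (norm_sum_le _ _).trans (Finset.sum_le_sum fun k _ => ?_)
    rw [norm_mul, Complex.norm_real, Real.norm_eq_abs]
    exact mul_le_mul_of_nonneg_left (hb k a x) (abs_nonneg _)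
  set G : HX K → ℝ := fun x => Real.sqrt (∑ a, ‖W a x‖ ^ 2) with hG
  have hGsq : ∀ x, G x ^ 2 = ∑ a, ‖W a x‖ ^ 2 := fun x =>
    Real.sq_sqrt (Finset.sum_nonneg fun a _ => sq_nonneg _)
  have hG0 : ∀ x, 0 ≤ G x := fun x => Real.sqrt_nonneg _
  set R : ℝ := ∑ a, N a ^ 2 with hR
  have hR0 : 0 ≤ R := Finset.sum_nonneg fun a _ => sq_nonneg _
  set φ : HX K → ℝ := fun x => ∑ a, T a x * (W a x).re with hφ
  have hφb : ∀ x, |φ x| ≤ Real.sqrt R * G x := by
    intro x
    have h1 : |φ x| ≤ ∑ a, N a * ‖W a x‖ := by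
      refine (Finset.abs_sum_le_sum_abs _ _).trans (Finset.sum_le_sum fun a _ => ?_)
      rw [abs_mul]
      exact mul_le_mul (hT a x) (Complex.abs_re_le_norm _) (abs_nonneg _) (hN0 a)
    refine h1.trans ?_
    have h2 := Finset.sum_mul_sq_le_sq_mul_sq Finset.univ N (fun a => ‖W a x‖)
    rw [← Real.sqrt_mul hR0]
    refine Real.le_sqrt_of_sq_le ?_
    exact h2
  -- `φ = T' Re W'`
  have hGb : ∀ x, G x ≤ Real.sqrt (∑ a, (∑ k, |c k| * b k a) ^ 2) := by
    intro x
    refine Real.sqrt_le_sqrt (Finset.sum_le_sum fun a _ => ?_)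
    exact pow_le_pow_left₀ (norm_nonneg _) (hWb a x) 2
  have h2 : ∀ᶠ ε : ℝ in 𝓝[>] 0, (EH K ε φ) ^ 2 ≤
      R * ((sysH K).lam ε * EH K ε (fun x => G x ^ 2)) := by
    filter_upwards [self_mem_nhdsWithin] with ε hε
    have h3 := EH_sq_le (K := K) (T := fun x => φ x / G x) (W := fun x => ((G x : ℝ) : ℂ))
      (Real.sqrt_nonneg R) (fun x => by
        rw [abs_div, abs_of_nonneg (hG0 x)]
        exact div_le_of_le_mul₀ (hG0 x) (Real.sqrt_nonneg R) (hφb x))
      (w := Real.sqrt (∑ a, (∑ k, |c k| * b k a) ^ 2)) (fun x => by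
        rw [Complex.norm_real, Real.norm_of_nonneg (hG0 x)]
        exact hGb x) hε
    have e1 : (fun x => φ x / G x * (((G x : ℝ) : ℂ)).re) = φ := by
      funext x
      rw [Complex.ofReal_re]
      by_cases h0 : G x = 0
      · have h4 := hφb x
        rw [h0, mul_zero] at h4
        rw [h0, mul_zero]
        exact (abs_nonpos_iff.1 h4).symm
      · exact div_mul_cancel₀ _ h0
    have e2 : (fun x => ‖((G x : ℝ) : ℂ)‖ ^ 2) = fun x => G x ^ 2 := by
      funext x
      rw [Complex.norm_real, Real.norm_of_nonneg (hG0 x)]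
    rw [e1, e2, Real.sq_sqrt hR0] at h3
    exact h3
  have h3 : (fun ε => EH K ε (fun x => G x ^ 2) -
      (∑ a, ∑ k, ∑ k', c k * c k' * g a k k') * LL ε) =o[𝓝[>] 0] LL := by
    have h4 := finset_isLittleO (Finset.univ : Finset A) (fun a _ =>
      HasGram.sum Finset.univ Finset.univ (fun k _ => ⟨b k a, hb0 k a, hb k a⟩)
        (fun k _ => ⟨b k a, hb0 k a, hb k a⟩) c c (fun k _ l _ => hg a k l))
    refine h4.congr' ?_ (EventuallyEq.refl _ _)
    filter_upwards [self_mem_nhdsWithin] with ε hε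
    have hε' : (0 : ℝ) < ε := hε
    have e1 : (fun x => G x ^ 2) = fun x => ∑ a, (W a x * conj (W a x)).re := by
      funext x
      rw [hGsq]
      refine Finset.sum_congr rfl fun a _ => ?_
      rw [Complex.mul_conj, Complex.ofReal_re, Complex.normSq_eq_norm_sq]
    rw [e1, EH_sum hε' Finset.univ (fun a x => (W a x * conj (W a x)).re)
      (fun a => (∑ k, |c k| * b k a) ^ 2) (fun a _ x => by
        rw [Complex.mul_conj, Complex.ofReal_re, Complex.normSq_eq_norm_sq,
          abs_of_nonneg (sq_nonneg _)]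
        exact pow_le_pow_left₀ (norm_nonneg _) (hWb a x) 2), Finset.sum_mul,
      ← Finset.sum_sub_distrib]
  have h1 : (fun ε => (∑ k, c k * z k ε) * LL ε - EH K ε φ) =o[𝓝[>] 0] LL := by
    have h4 := finset_isLittleO (Finset.univ : Finset κ)
      (fun k _ => (hz k).const_mul_left (c k))
    refine h4.congr' ?_ (EventuallyEq.refl _ _)
    filter_upwards [self_mem_nhdsWithin] with ε hε
    have hε' : (0 : ℝ) < ε := hε
    have e1 : φ = fun x => ∑ k, c k * ∑ a, T a x * (f k a x).re := by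
      funext x
      rw [hφ]
      simp only
      have e2 : ∀ k, c k * ∑ a, T a x * (f k a x).re = ∑ a, T a x * (c k * (f k a x).re) := by
        intro k
        rw [Finset.mul_sum]
        exact Finset.sum_congr rfl fun a _ => by ring
      simp only [e2]
      rw [Finset.sum_comm]
      refine Finset.sum_congr rfl fun a _ => ?_
      rw [hW]
      simp only
      rw [Complex.re_sum, Finset.mul_sum]
      refine Finset.sum_congr rfl fun k _ => ?_
      rw [Complex.re_ofReal_mul]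
    rw [e1, EH_sum hε' Finset.univ (fun k x => c k * ∑ a, T a x * (f k a x).re)
      (fun k => |c k| * ∑ a, N a * b k a) (fun k _ x => by
        rw [abs_mul]
        refine mul_le_mul_of_nonneg_left ?_ (abs_nonneg _)
        refine (Finset.abs_sum_le_sum_abs _ _).trans (Finset.sum_le_sum fun a _ => ?_)
        rw [abs_mul]
        exact mul_le_mul (hT a x) ((Complex.abs_re_le_norm _).trans (hb k a x)) (abs_nonneg _)
          (hN0 a)), Finset.sum_mul, ← Finset.sum_sub_distrib]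
    refine Finset.sum_congr rfl fun k _ => ?_
    rw [EH_const_mul]
    ring
  have h5 := final_ineq h1 h2 (lamS_sub (sysH K)) h3 hη
  filter_upwards [h5, LL_tendsto.eventually_gt_atTop 0] with ε h6 h7
  rwa [mul_div_cancel_right₀ _ h7.ne'] at h6

end

end Pool.Agent.N172.HS
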