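import Pool.Agent.N172.HS.Nv

/-!
# Composition of Hecke characters with the norm
-/

set_option autoImplicit false
set_option linter.unusedSectionVars false

namespace Pool.Agent.N172.HS

open NumberField Complex
open scoped ComplexConjugate

section ext

variable {F E : Type} [Field F] [NumberField F] [Field E] [NumberField E] [Algebra F E]

open Classical in
/-- the embeddings of `E` over an embedding of `F` -/
noncomputable def ovr (E : Type) {F : Type} [Field F] [NumberField F] [Field E] [NumberField E]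
    [Algebra F E] (σ : F →+* ℂ) : Finset (E →+* ℂ) :=
  Finset.univ.filter fun ρ => ρ.comp (algebraMap F E) = σ

lemma mem_ovr {σ : F →+* ℂ} {ρ : E →+* ℂ} : ρ ∈ ovr E σ ↔ ρ.comp (algebraMap F E) = σ := by
  classical
  unfold ovr
  simp

lemma emb_norm (σ : F →+* ℂ) (x : E) : σ (Algebra.norm F x) = ∏ ρ ∈ ovr E σ, ρ x := by
  classical
  let _ : Algebra F ℂ := σ.toAlgebra
  have h1 := Algebra.norm_eq_prod_embeddings F ℂ x
  have h2 : algebraMap F ℂ (Algebra.norm F x) = σ (Algebra.norm F x) := rfl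
  rw [← h2, h1]
  refine Finset.prod_bij (fun τ _ => (τ : E →+* ℂ)) ?_ ?_ ?_ ?_
  · intro τ _
    rw [mem_ovr]
    exact RingHom.ext fun y => τ.commutes y
  · intro τ _ τ' _ h
    exact AlgHom.ext fun y => RingHom.congr_fun h y
  · intro ρ hρ
    rw [mem_ovr] at hρ
    exact ⟨{ ρ with commutes' := fun y => RingHom.congr_fun hρ y }, Finset.mem_univ _, rfl⟩
  · intro τ _
    rfl

lemma coe_intNorm (x : 𝓞 E) :
    ((Algebra.intNorm (𝓞 F) (𝓞 E) x : 𝓞 F) : F) = Algebra.norm F (x : E) :=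
  Algebra.algebraMap_intNorm (A := 𝓞 F) (K := F) (L := E) (B := 𝓞 E) x

lemma intNorm_ne {x : 𝓞 E} (hx : x ≠ 0) : Algebra.intNorm (𝓞 F) (𝓞 E) x ≠ 0 := by
  intro h
  have h1 := coe_intNorm (F := F) x
  rw [h] at h1
  have h2 : Algebra.norm F (x : E) = 0 := by rw [← h1]; rfl
  rw [Algebra.norm_eq_zero_iff] at h2
  exact hx (by exact_mod_cast h2)

/-- the norm of a totally positive element is totally positive -/
lemma totPos_norm {x : 𝓞 E} (hx : x ≠ 0) (h : TotPos x) :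
    TotPos (Algebra.intNorm (𝓞 F) (𝓞 E) x) := by
  classical
  intro σ
  rw [coe_intNorm]
  set σ' : F →+* ℂ := Complex.ofRealHom.comp σ with hσ'
  have h1 := emb_norm (E := E) σ' (x : E)
  set f : (E →+* ℂ) → ℂ := fun ρ => ρ (x : E) / (‖ρ (x : E)‖ : ℂ) with hf
  have hn : ∀ ρ : E →+* ℂ, (‖ρ (x : E)‖ : ℂ) ≠ 0 := by
    intro ρ
    have := norm_ne_zero_iff.2 (emb_ne hx ρ)
    exact_mod_cast this
  have h2 : ∏ ρ ∈ ovr E σ', f ρ = 1 := by
    refine Finset.prod_involution (fun ρ _ => ComplexEmbedding.conjugate ρ) ?_ ?_ ?_ ?_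
    · intro ρ _
      simp only [hf]
      rw [ComplexEmbedding.conjugate_coe_eq, Complex.norm_conj, div_mul_div_comm, Complex.mul_conj,
        Complex.normSq_eq_norm_sq]
      have := hn ρ
      field_simp
      push_cast
      ring
    · intro ρ _ hne hc
      apply hne
      have hr : ComplexEmbedding.IsReal ρ := ComplexEmbedding.isReal_iff.2 hc
      have h3 := h hr.embedding
      have h4 : ((hr.embedding (x : E) : ℝ) : ℂ) = ρ (x : E) :=
        ComplexEmbedding.IsReal.coe_embedding_apply hr (x : E)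
      simp only [hf]
      rw [← h4, Complex.norm_real, Real.norm_of_nonneg h3.le]
      exact div_self (by exact_mod_cast h3.ne')
    · intro ρ hρ
      rw [mem_ovr] at hρ ⊢
      refine RingHom.ext fun y => ?_
      have h3 := RingHom.congr_fun hρ y
      change conj (ρ (algebraMap F E y)) = σ' y
      change ρ (algebraMap F E y) = σ' y at h3
      rw [h3, hσ']
      exact Complex.conj_ofReal _
    · intro ρ _
      exact ComplexEmbedding.involutive_conjugate E ρ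
  have h3 : ((σ (Algebra.norm F (x : E)) : ℝ) : ℂ) =
      ((∏ ρ ∈ ovr E σ', ‖ρ (x : E)‖ : ℝ) : ℂ) := by
    have e1 : ((σ (Algebra.norm F (x : E)) : ℝ) : ℂ) = σ' (Algebra.norm F (x : E)) := rfl
    rw [e1, h1]
    have e2 : ∏ ρ ∈ ovr E σ', ρ (x : E) =
        (∏ ρ ∈ ovr E σ', f ρ) * ∏ ρ ∈ ovr E σ', (‖ρ (x : E)‖ : ℂ) := by
      rw [← Finset.prod_mul_distrib]
      refine Finset.prod_congr rfl fun ρ _ => ?_
      simp only [hf]
      rw [div_mul_cancel₀ _ (hn ρ)]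
    rw [e2, h2, one_mul]
    push_cast
    rfl
  have h4 : σ (Algebra.norm F (x : E)) = ∏ ρ ∈ ovr E σ', ‖ρ (x : E)‖ := by exact_mod_cast h3
  rw [h4]
  exact Finset.prod_pos fun ρ _ => norm_pos_iff.2 (emb_ne hx ρ)

lemma arch_norm (k : (F →+* ℂ) → ℤ) (t : (F →+* ℂ) → ℝ) {x : 𝓞 E} (hx : x ≠ 0) :
    arch k t ((Algebra.intNorm (𝓞 F) (𝓞 E) x : 𝓞 F) : F) =
      arch (fun ρ : E →+* ℂ => k (ρ.comp (algebraMap F E)))
        (fun ρ : E →+* ℂ => t (ρ.comp (algebraMap F E))) (x : E) := by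
  classical
  unfold arch
  rw [← Finset.prod_fiberwise (Finset.univ : Finset (E →+* ℂ))
    (fun ρ : E →+* ℂ => ρ.comp (algebraMap F E))]
  refine Finset.prod_congr rfl fun σ _ => ?_
  have e1 : (Finset.univ.filter fun ρ : E →+* ℂ => ρ.comp (algebraMap F E) = σ) = ovr E σ := by
    unfold ovr
    congr
  rw [e1, coe_intNorm, emb_norm]
  have e2 : ∀ ρ ∈ ovr E σ, ((ρ (x : E) / (‖ρ (x : E)‖ : ℂ)) ^ k (ρ.comp (algebraMap F E)) *
      exp ((t (ρ.comp (algebraMap F E)) * Real.log ‖ρ (x : E)‖ : ℝ) * I)) =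
      (ρ (x : E) / (‖ρ (x : E)‖ : ℂ)) ^ k σ * exp ((t σ * Real.log ‖ρ (x : E)‖ : ℝ) * I) := by
    intro ρ hρ
    rw [mem_ovr.1 hρ]
  rw [Finset.prod_congr rfl e2, Finset.prod_mul_distrib, Finset.prod_zpow, Finset.prod_div_distrib,
    norm_prod, ← Complex.exp_sum]
  congr 1
  · push_cast
    rfl
  · congr 1
    rw [Real.log_prod (fun ρ _ => norm_ne_zero_iff.2 (emb_ne hx ρ)), Finset.mul_sum,
      Complex.ofReal_sum, Finset.sum_mul]

/-- a product of factors which are one modulo `c` -/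
lemma prod_one_add {ι R : Type*} [CommRing R] (s : Finset ι) (S : Subring R) {c : R} (hc : c ∈ S)
    (y : ι → R) (hy : ∀ i ∈ s, y i ∈ S) : ∃ z ∈ S, ∏ i ∈ s, (1 + c * y i) = 1 + c * z := by
  classical
  induction s using Finset.induction_on with
  | empty => exact ⟨0, S.zero_mem, by simp⟩
  | insert a s ha ih =>
    obtain ⟨z, hz, h⟩ := ih fun i hi => hy i (Finset.mem_insert_of_mem hi)
    have hya := hy a (Finset.mem_insert_self a s)
    refine ⟨z + y a + c * (y a * z), S.add_mem (S.add_mem hz hya)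
      (S.mul_mem hc (S.mul_mem hya hz)), ?_⟩
    rw [Finset.prod_insert ha, h]
    ring

/-- the norm of `1 + a y` -/
lemma norm_one_add (a : 𝓞 F) (ha : a ≠ 0) (y : 𝓞 E) :
    Algebra.intNorm (𝓞 F) (𝓞 E) (1 + algebraMap (𝓞 F) (𝓞 E) a * y) - 1 ∈ Ideal.span {a} := by
  classical
  let Ω := AlgebraicClosure F
  set x : 𝓞 E := 1 + algebraMap (𝓞 F) (𝓞 E) a * y with hx
  have h1 := Algebra.norm_eq_prod_embeddings F Ω (x : E)
  have hcoe : (x : E) = 1 + algebraMap F E (a : F) * (y : E) := by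
    rw [hx]
    rfl
  have h2 : ∀ τ : E →ₐ[F] Ω, τ (x : E) = 1 + algebraMap F Ω (a : F) * τ (y : E) := by
    intro τ
    rw [hcoe, map_add, map_one, map_mul, AlgHom.commutes]
  rw [Finset.prod_congr rfl fun τ _ => h2 τ] at h1
  obtain ⟨z, hz, hz2⟩ := prod_one_add (Finset.univ : Finset (E →ₐ[F] Ω))
    ((integralClosure ℤ Ω).toSubring) (c := algebraMap F Ω (a : F))
    ((RingOfIntegers.isIntegral_coe a).map (algebraMap F Ω : F →+* Ω).toIntAlgHom)
    (fun τ => τ (y : E)) (fun τ _ =>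
      (RingOfIntegers.isIntegral_coe y).map ((τ : E →+* Ω).toIntAlgHom))
  rw [hz2] at h1
  have ha' : (a : F) ≠ 0 := by exact_mod_cast ha
  set w : F := (Algebra.norm F (x : E) - 1) / (a : F) with hw
  have hwz : algebraMap F Ω w = z := by
    have ha2 : algebraMap F Ω (a : F) ≠ 0 := by rwa [map_ne_zero]
    rw [hw, map_div₀, map_sub, map_one, h1, add_sub_cancel_left, mul_div_cancel_left₀ _ ha2]
  have hwi : IsIntegral ℤ w := by
    have h3 : IsIntegral ℤ (algebraMap F Ω w) := by rw [hwz]; exact hz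
    exact (isIntegral_algHom_iff ((algebraMap F Ω : F →+* Ω).toIntAlgHom)
      (algebraMap F Ω).injective).1 h3
  obtain ⟨w', hw'⟩ : ∃ w' : 𝓞 F, (w' : F) = w := ⟨⟨w, hwi⟩, rfl⟩
  rw [Ideal.mem_span_singleton]
  refine ⟨w', ?_⟩
  apply RingOfIntegers.ext
  have e1 : ((Algebra.intNorm (𝓞 F) (𝓞 E) x - 1 : 𝓞 F) : F) = Algebra.norm F (x : E) - 1 := by
    rw [← coe_intNorm]
    rfl
  have e2 : ((a * w' : 𝓞 F) : F) = (a : F) * (w' : F) := rfl
  rw [e1, e2, hw', hw, mul_div_cancel₀ _ ha']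

/-- the norm is prime to `𝔣` -/
lemma coprime_relNorm (𝔣 : Ideal (𝓞 F)) {𝔞 : Ideal (𝓞 E)} (h𝔞 : 𝔞 ≠ ⊥) :
    IsCoprime (Ideal.relNorm (𝓞 F) 𝔞) 𝔣 ↔
      IsCoprime 𝔞 (𝔣.map (algebraMap (𝓞 F) (𝓞 E))) := by
  constructor
  · intro h
    rw [Ideal.isCoprime_iff_sup_eq] at h ⊢
    rw [eq_top_iff]
    have h1 : (Ideal.relNorm (𝓞 F) 𝔞 ⊔ 𝔣).map (algebraMap (𝓞 F) (𝓞 E)) = ⊤ := by
      rw [h, Ideal.map_top]
    rw [← h1, Ideal.map_sup]
    exact sup_le_sup_right (Ideal.map_le_iff_le_comap.2 (Ideal.relNorm_le_comap (𝓞 F) 𝔞)) _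
  · revert h𝔞
    refine UniqueFactorizationMonoid.induction_on_prime 𝔞 ?_ ?_ ?_
    · intro h
      exact absurd rfl h
    · intro I hI _ _
      rw [Ideal.isUnit_iff] at hI
      rw [hI, Ideal.relNorm_top, ← Ideal.one_eq_top]
      exact isCoprime_one_left
    · intro 𝔟 P h𝔟 hP ih _ hc
      rw [IsCoprime.mul_left_iff] at hc
      rw [map_mul, IsCoprime.mul_left_iff]
      refine ⟨?_, ih h𝔟 hc.2⟩
      have hPp : P.IsPrime := Ideal.isPrime_of_prime hP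
      have hP0 : P ≠ ⊥ := hP.ne_zero
      have hPm : P.IsMaximal := hPp.isMaximal hP0
      set p : Ideal (𝓞 F) := P.under (𝓞 F) with hp
      have hpp : p.IsPrime := inferInstance
      obtain ⟨s, hs⟩ := Ideal.exists_relNorm_eq_pow_of_isPrime P p
      rw [hs]
      refine IsCoprime.pow_left ?_
      have hpm : p.IsMaximal := Ideal.isMaximal_comap_of_isIntegral_of_isMaximal P
      by_contra hcon
      have h1 : 𝔣 ≤ p := by
        by_contra h2
        apply hcon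
        rw [Ideal.isCoprime_iff_sup_eq]
        have h3 : p < p ⊔ 𝔣 := by
          refine lt_of_le_of_ne le_sup_left ?_
          intro h4
          exact h2 (h4 ▸ le_sup_right)
        exact hpm.1.2 _ h3
      have h2 : 𝔣.map (algebraMap (𝓞 F) (𝓞 E)) ≤ P := Ideal.map_le_iff_le_comap.2 h1
      rw [Ideal.isCoprime_iff_sup_eq, sup_eq_left.2 h2] at hc
      exact hPm.ne_top hc.1

/-- the composition with the norm -/
noncomputable def nrmc (χ : Ideal (𝓞 F) →*₀ ℂ) : Ideal (𝓞 E) →*₀ ℂ :=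
  χ.comp (Ideal.relNorm (𝓞 F))

lemma exists_pow_principal {𝔣 : Ideal (𝓞 F)} (h : 𝔣 ≠ ⊥) :
    ∃ n : ℕ, n ≠ 0 ∧ ∃ a : 𝓞 F, a ≠ 0 ∧ 𝔣 ^ n = Ideal.span {a} := by
  set c : ℕ := Fintype.card (ClassGroup (𝓞 F)) with hc
  have hc0 : c ≠ 0 := Fintype.card_ne_zero
  have h1 : ClassGroup.mk0 ⟨𝔣, mem_nonZeroDivisors_of_ne_zero h⟩ ^ c = 1 := pow_card_eq_one
  have hne : 𝔣 ^ c ≠ 0 := pow_ne_zero c h
  have h2 : ClassGroup.mk0 ⟨𝔣 ^ c, mem_nonZeroDivisors_of_ne_zero hne⟩ = 1 := by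
    rw [← h1, ← map_pow]
    rfl
  obtain ⟨⟨a, ha⟩⟩ := (ClassGroup.mk0_eq_one_iff (mem_nonZeroDivisors_of_ne_zero hne)).1 h2
  have ha2 : 𝔣 ^ c = Ideal.span {a} := ha
  refine ⟨c, hc0, a, ?_, ha2⟩
  rintro rfl
  apply hne
  rw [ha2]
  exact Ideal.span_singleton_eq_bot.2 rfl

/-- **The composition with the norm is a Hecke character.** -/
theorem IsHecke.nrmc {𝔣 : Ideal (𝓞 F)} {k : (F →+* ℂ) → ℤ} {t : (F →+* ℂ) → ℝ}
    {χ : Ideal (𝓞 F) →*₀ ℂ} (h : IsHecke 𝔣 k t χ) :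
    ∃ 𝔪 : Ideal (𝓞 E), IsHecke 𝔪 (fun ρ : E →+* ℂ => k (ρ.comp (algebraMap F E)))
      (fun ρ : E →+* ℂ => t (ρ.comp (algebraMap F E))) (nrmc (E := E) χ) := by
  obtain ⟨n, hn, a, ha, hna⟩ := exists_pow_principal h.ne_bot
  have hinj : Function.Injective (algebraMap (𝓞 F) (𝓞 E)) := FaithfulSMul.algebraMap_injective _ _
  have ha' : algebraMap (𝓞 F) (𝓞 E) a ≠ 0 := by
    rwa [Ne, map_eq_zero_iff _ hinj]
  have hmap : Ideal.span {algebraMap (𝓞 F) (𝓞 E) a} = (𝔣.map (algebraMap (𝓞 F) (𝓞 E))) ^ n := by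
    rw [← Ideal.map_pow, hna, Ideal.map_span, Set.image_singleton]
  refine ⟨Ideal.span {algebraMap (𝓞 F) (𝓞 E) a}, ?_, ?_, ?_, ?_⟩
  · rwa [Ne, Ideal.span_singleton_eq_bot]
  · intro 𝔞 h𝔞
    have h1 : Ideal.relNorm (𝓞 F) 𝔞 ≠ ⊥ := by rwa [Ne, Ideal.relNorm_eq_bot_iff]
    have h2 : HS.nrmc (E := E) χ 𝔞 = χ (Ideal.relNorm (𝓞 F) 𝔞) := rfl
    rw [h2, h.supp _ h1, coprime_relNorm 𝔣 h𝔞, hmap, IsCoprime.pow_right_iff (Nat.pos_of_ne_zero hn)]
  · intro 𝔞 h𝔞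
    exact h.unit _ h𝔞
  · intro x hx hx1 hx2
    have h2 : HS.nrmc (E := E) χ (Ideal.span {x}) =
        χ (Ideal.span {Algebra.intNorm (𝓞 F) (𝓞 E) x}) := by
      change χ (Ideal.relNorm (𝓞 F) (Ideal.span {x})) = _
      rw [Ideal.relNorm_singleton]
    rw [h2, h.ray _ (intNorm_ne hx) _ (totPos_norm hx hx2), arch_norm k t hx]
    rw [Ideal.mem_span_singleton] at hx1
    obtain ⟨y, hy⟩ := hx1
    have hxy : x = 1 + algebraMap (𝓞 F) (𝓞 E) a * y := by rw [← hy]; ring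
    rw [hxy]
    have h3 := norm_one_add a ha y
    rw [← hna] at h3
    exact Ideal.pow_le_self hn h3

/-- at the primes of degree one -/
theorem relNorm_ker {p : ℕ} [Fact p.Prime] (Ψ : 𝓞 E →+* ZMod p) :
    Ideal.relNorm (𝓞 F) (RingHom.ker Ψ) = RingHom.ker (Ψ.comp (algebraMap (𝓞 F) (𝓞 E))) := by
  have habs : ∀ {L : Type} [Field L] [NumberField L] (φ : 𝓞 L →+* ZMod p),
      Ideal.absNorm (RingHom.ker φ) = p := by
    intro L _ _ φ
    have hs : Function.Surjective φ := ZMod.ringHom_surjective φ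
    rw [Ideal.absNorm_apply, Submodule.cardQuot_apply]
    have e := RingHom.quotientKerEquivOfSurjective hs
    rw [Nat.card_congr e.toEquiv, Nat.card_zmod]
  have h1 : Ideal.relNorm (𝓞 F) (RingHom.ker Ψ) ≤ RingHom.ker (Ψ.comp (algebraMap (𝓞 F) (𝓞 E))) := by
    rw [← RingHom.comap_ker]
    exact Ideal.relNorm_le_comap (𝓞 F) _
  have h2 := habs (Ψ.comp (algebraMap (𝓞 F) (𝓞 E)))
  have h3 : Ideal.absNorm (Ideal.relNorm (𝓞 F) (RingHom.ker Ψ)) = p := by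
    rw [Ideal.absNorm_relNorm, habs]
  obtain ⟨J, hJ⟩ := Ideal.dvd_iff_le.2 h1
  rw [hJ, map_mul, h2] at h3
  have hp : 0 < p := (Fact.out : p.Prime).pos
  have h4 : Ideal.absNorm J = 1 := by
    exact Nat.eq_of_mul_eq_mul_left hp (by rw [h3, mul_one])
  rw [Ideal.absNorm_eq_one_iff] at h4
  rw [hJ, h4, Ideal.mul_top]

end ext

section hom

variable {F E : Type} [Field F] [NumberField F] [Field E] [NumberField E]

/-- **Hecke characters along a homomorphism of number fields** -/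
theorem exists_along (j' : F →+* E) (j : 𝓞 F →+* 𝓞 E) (hj : ∀ x : 𝓞 F, ((j x : 𝓞 E) : E) = j' x)
    {𝔣 : Ideal (𝓞 F)} {k : (F →+* ℂ) → ℤ} {t : (F →+* ℂ) → ℝ} {χ : Ideal (𝓞 F) →*₀ ℂ}
    (h : IsHecke 𝔣 k t χ) :
    ∃ (𝔪 : Ideal (𝓞 E)) (k' : (E →+* ℂ) → ℤ) (t' : (E →+* ℂ) → ℝ) (ψ : Ideal (𝓞 E) →*₀ ℂ),
      IsHecke 𝔪 k' t' ψ ∧ ∀ (p : ℕ) [Fact p.Prime] (Ψ : 𝓞 E →+* ZMod p),
        ψ (RingHom.ker Ψ) = χ (RingHom.ker (Ψ.comp j)) := by
  let _ : Algebra F E := j'.toAlgebra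
  obtain ⟨𝔪, h𝔪⟩ := IsHecke.nrmc (E := E) h
  refine ⟨𝔪, _, _, _, h𝔪, fun p _ Ψ => ?_⟩
  have hjj : algebraMap (𝓞 F) (𝓞 E) = j := by
    refine RingHom.ext fun x => RingOfIntegers.ext ?_
    rw [hj]
    rfl
  rw [← hjj, ← relNorm_ker (F := F) Ψ]
  rfl

end hom

end Pool.Agent.N172.HS
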