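import Pool.Agent.N172.HS.Sum
import Pool.Agent.Y772.NV.Main

/-!
# Non-vanishing of the L-functions of the nontrivial Hecke characters at `s = 1`
-/

set_option autoImplicit false
set_option linter.unusedSectionVars false

namespace Pool.Agent.N172.HS

open NumberField Complex Filter Topology
open Pool.Agent.Y773 (LI cc VM)
open Pool.Agent.Y772.NV (ab sq ab_norm sq_norm ab_one ab_zero cc_re VM_nonneg summable_bdd lim_order2)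
open Pool.Agent.Y772.DK (t_dirK)
open scoped ComplexConjugate ArithmeticFunction.vonMangoldt

section field

variable {K : Type} [Field K] [NumberField K]
variable {𝔣 𝔤 : Ideal (𝓞 K)} {k l : (K →+* ℂ) → ℤ} {t u : (K →+* ℂ) → ℝ}
  {ψ χ : Ideal (𝓞 K) →*₀ ℂ}

/-- the product -/
noncomputable def mulc (ψ χ : Ideal (𝓞 K) →*₀ ℂ) : Ideal (𝓞 K) →*₀ ℂ where
  toFun 𝔞 := ψ 𝔞 * χ 𝔞
  map_zero' := by rw [map_zero, zero_mul]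
  map_one' := by rw [map_one, map_one, one_mul]
  map_mul' 𝔞 𝔟 := by simp only [map_mul]; ring

/-- the conjugate -/
noncomputable def cj (ψ : Ideal (𝓞 K) →*₀ ℂ) : Ideal (𝓞 K) →*₀ ℂ where
  toFun 𝔞 := conj (ψ 𝔞)
  map_zero' := by rw [map_zero, map_zero]
  map_one' := by rw [map_one, map_one]
  map_mul' 𝔞 𝔟 := by simp only [map_mul]

@[simp] lemma mulc_apply (ψ χ : Ideal (𝓞 K) →*₀ ℂ) (𝔞 : Ideal (𝓞 K)) :
    mulc ψ χ 𝔞 = ψ 𝔞 * χ 𝔞 := rfl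

@[simp] lemma cj_apply (ψ : Ideal (𝓞 K) →*₀ ℂ) (𝔞 : Ideal (𝓞 K)) : cj ψ 𝔞 = conj (ψ 𝔞) := rfl

lemma emb_ne {x : 𝓞 K} (hx : x ≠ 0) (σ : K →+* ℂ) : σ (x : K) ≠ 0 := by
  rw [map_ne_zero]
  exact_mod_cast hx

lemma unit_ne {x : 𝓞 K} (hx : x ≠ 0) (σ : K →+* ℂ) : σ (x : K) / (‖σ (x : K)‖ : ℂ) ≠ 0 := by
  refine div_ne_zero (emb_ne hx σ) ?_
  have := norm_ne_zero_iff.2 (emb_ne hx σ)
  exact_mod_cast this

lemma arch_add {x : 𝓞 K} (hx : x ≠ 0) :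
    arch (k + l) (t + u) (x : K) = arch k t (x : K) * arch l u (x : K) := by
  unfold arch
  rw [← Finset.prod_mul_distrib]
  refine Finset.prod_congr rfl fun σ _ => ?_
  rw [Pi.add_apply, Pi.add_apply, zpow_add₀ (unit_ne hx σ)]
  have e : exp ((((t σ + u σ) * Real.log ‖σ (x : K)‖ : ℝ) : ℂ) * I) =
      exp (((t σ * Real.log ‖σ (x : K)‖ : ℝ) : ℂ) * I) *
        exp (((u σ * Real.log ‖σ (x : K)‖ : ℝ) : ℂ) * I) := by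
    rw [← Complex.exp_add]
    congr 1
    push_cast
    ring
  rw [e]
  ring

lemma conj_arch {x : 𝓞 K} (hx : x ≠ 0) : conj (arch k t (x : K)) = arch (-k) (-t) (x : K) := by
  unfold arch
  rw [map_prod]
  refine Finset.prod_congr rfl fun σ _ => ?_
  have hn : (‖σ (x : K)‖ : ℂ) ≠ 0 := by
    have := norm_ne_zero_iff.2 (emb_ne hx σ)
    exact_mod_cast this
  rw [map_mul, ← Complex.exp_conj, map_mul, Complex.conj_ofReal, Complex.conj_I, map_zpow₀,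
    map_div₀, Complex.conj_ofReal, Pi.neg_apply, Pi.neg_apply, zpow_neg, ← inv_zpow]
  congr 1
  · congr 1
    rw [inv_div, div_eq_div_iff hn (emb_ne hx σ), mul_comm, Complex.mul_conj,
      Complex.normSq_eq_norm_sq]
    push_cast
    ring
  · congr 1
    push_cast
    ring

lemma arch_zero (x : K) : arch (0 : (K →+* ℂ) → ℤ) (0 : (K →+* ℂ) → ℝ) x = 1 := by
  unfold arch
  simp

theorem IsHecke.mul (h : IsHecke 𝔣 k t ψ) (h' : IsHecke 𝔤 l u χ) :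
    IsHecke (𝔣 * 𝔤) (k + l) (t + u) (mulc ψ χ) where
  ne_bot := mul_ne_zero h.ne_bot h'.ne_bot
  supp 𝔞 h𝔞 := (mul_ne_zero_iff.trans (and_congr (h.supp 𝔞 h𝔞) (h'.supp 𝔞 h𝔞))).trans
    IsCoprime.mul_right_iff.symm
  unit 𝔞 h𝔞 := by
    rw [mulc_apply] at h𝔞 ⊢
    rw [norm_mul, h.unit 𝔞 (left_ne_zero_of_mul h𝔞), h'.unit 𝔞 (right_ne_zero_of_mul h𝔞), mul_one]
  ray x hx hx1 hx2 := by
    have e1 : x - 1 ∈ 𝔣 := Ideal.mul_le_left (I := 𝔣) (J := 𝔤) hx1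
    have e2 : x - 1 ∈ 𝔤 := Ideal.mul_le_right (I := 𝔣) (J := 𝔤) hx1
    rw [mulc_apply, h.ray x hx e1 hx2, h'.ray x hx e2 hx2, arch_add hx]

theorem IsHecke.conj (h : IsHecke 𝔣 k t ψ) : IsHecke 𝔣 (-k) (-t) (cj ψ) where
  ne_bot := h.ne_bot
  supp 𝔞 h𝔞 := by
    rw [cj_apply, map_ne_zero, h.supp 𝔞 h𝔞]
  unit 𝔞 h𝔞 := by
    rw [cj_apply] at h𝔞 ⊢
    rw [Complex.norm_conj]
    exact h.unit 𝔞 ((map_ne_zero _).1 h𝔞)
  ray x hx hx1 hx2 := by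
    rw [cj_apply, h.ray x hx hx1 hx2, conj_arch hx]

theorem IsHecke.norm_or (h : IsHecke 𝔣 k t ψ) (𝔞 : Ideal (𝓞 K)) : ψ 𝔞 = 0 ∨ ‖ψ 𝔞‖ = 1 := by
  by_cases h0 : ψ 𝔞 = 0
  · exact Or.inl h0
  · exact Or.inr (h.unit 𝔞 h0)

lemma three_four {z : ℂ} (hz : ‖z‖ = 1) : 0 ≤ 3 + 4 * z.re + (z * z).re := by
  have h4 : z.re * z.re + z.im * z.im = 1 := by
    rw [← Complex.normSq_apply, Complex.normSq_eq_norm_sq, hz]
    norm_num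
  rw [mul_re]
  nlinarith [sq_nonneg (1 + z.re)]

/-- the method of Hadamard and de la Vallée Poussin -/
theorem hadamard {η : Ideal (𝓞 K) →*₀ ℂ} (hu : ∀ 𝔞, η 𝔞 = 0 ∨ ‖η 𝔞‖ = 1) {G₁ F F₂ : ℂ → ℂ}
    (hG₁ : AnalyticAt ℂ G₁ 1)
    (hG₁L : ∀ᶠ s in 𝓝 (1 : ℂ), 1 < s.re → LI (ab η) s * (s - 1) ^ 1 = G₁ s)
    (hF : AnalyticAt ℂ F 1) (hFL : ∀ᶠ s in 𝓝 (1 : ℂ), 1 < s.re → LI η s * (s - 1) ^ 0 = F s)
    (hF₂ : AnalyticAt ℂ F₂ 1)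
    (hFL₂ : ∀ᶠ s in 𝓝 (1 : ℂ), 1 < s.re → LI (sq η) s * (s - 1) ^ 0 = F₂ s) : F 1 ≠ 0 := by
  have hle : ∀ 𝔞, ‖η 𝔞‖ ≤ 1 := by
    intro 𝔞
    rcases hu 𝔞 with h | h
    · rw [h, norm_zero]; exact zero_le_one
    · exact h.le
  obtain ⟨m₁, -, -, hl₁⟩ := lim_order2 t_dirK (ab η) (ab_norm η hle) G₁ hG₁ 1 hG₁L
  obtain ⟨m, hm, -, hl⟩ := lim_order2 t_dirK η hle F hF 0 hFL
  obtain ⟨m₂, -, -, hl₂⟩ := lim_order2 t_dirK (sq η) (sq_norm _ hle) F₂ hF₂ 0 hFL₂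
  obtain ⟨A, hA, hDK⟩ := t_dirK K
  have hb := fun (φ : Ideal (𝓞 K) →*₀ ℂ) (hφ : ∀ 𝔞, ‖φ 𝔞‖ ≤ 1) => (hDK φ hφ).2.2.2.2.2.2.1
  have hlim := ((hl₁.const_mul 3).add (hl.const_mul 4)).add hl₂
  have hge : 0 ≤ 3 * (((1 : ℕ) : ℝ) - m₁) + 4 * (((0 : ℕ) : ℝ) - m) + (((0 : ℕ) : ℝ) - m₂) := by
    refine ge_of_tendsto hlim ?_
    filter_upwards [self_mem_nhdsWithin] with σ hσ
    have hσ' : (0 : ℝ) < σ := hσ
    have s₁ := summable_bdd hσ' (fun n => (cc (ab η) n).re) _ fun n =>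
      (abs_re_le_norm _).trans (hb _ (ab_norm η hle) n)
    have s₂ := summable_bdd hσ' (fun n => (cc η n).re) _ fun n =>
      (abs_re_le_norm _).trans (hb _ hle n)
    have s₃ := summable_bdd hσ' (fun n => (cc (sq η) n).re) _ fun n =>
      (abs_re_le_norm _).trans (hb _ (sq_norm _ hle) n)
    have e : 3 * (σ * ∑' n : ℕ, (cc (ab η) n).re * Λ n * (n : ℝ) ^ (-(1 + σ))) +
        4 * (σ * ∑' n : ℕ, (cc η n).re * Λ n * (n : ℝ) ^ (-(1 + σ))) +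
        σ * ∑' n : ℕ, (cc (sq η) n).re * Λ n * (n : ℝ) ^ (-(1 + σ)) =
        σ * ∑' n : ℕ, (3 * ((cc (ab η) n).re * Λ n * (n : ℝ) ^ (-(1 + σ))) +
          4 * ((cc η n).re * Λ n * (n : ℝ) ^ (-(1 + σ))) +
          (cc (sq η) n).re * Λ n * (n : ℝ) ^ (-(1 + σ))) := by
      rw [((s₁.mul_left 3).add (s₂.mul_left 4)).tsum_add s₃,
        (s₁.mul_left 3).tsum_add (s₂.mul_left 4), tsum_mul_left, tsum_mul_left]
      ring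
    rw [e]
    refine mul_nonneg hσ'.le (tsum_nonneg fun n => ?_)
    have hR : 0 ≤ Λ n * (n : ℝ) ^ (-(1 + σ)) :=
      mul_nonneg ArithmeticFunction.vonMangoldt_nonneg (Real.rpow_nonneg (Nat.cast_nonneg n) _)
    have e2 : 3 * ((cc (ab η) n).re * Λ n * (n : ℝ) ^ (-(1 + σ))) +
          4 * ((cc η n).re * Λ n * (n : ℝ) ^ (-(1 + σ))) +
          (cc (sq η) n).re * Λ n * (n : ℝ) ^ (-(1 + σ)) =
        (3 * (cc (ab η) n).re + 4 * (cc η n).re + (cc (sq η) n).re) *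
          (Λ n * (n : ℝ) ^ (-(1 + σ))) := by ring
    rw [e2]
    refine mul_nonneg ?_ hR
    rw [cc_re, cc_re, cc_re, ← mul_div_assoc, ← mul_div_assoc, ← add_div, ← add_div]
    refine div_nonneg ?_ ArithmeticFunction.vonMangoldt_nonneg
    rw [Finset.mul_sum, Finset.mul_sum, ← Finset.sum_add_distrib, ← Finset.sum_add_distrib]
    refine Finset.sum_nonneg fun 𝔞 _ => ?_
    have e3 : 3 * (VM 𝔞 * (ab η 𝔞).re) + 4 * (VM 𝔞 * (η 𝔞).re) + VM 𝔞 * (sq η 𝔞).re =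
        VM 𝔞 * (3 * (ab η 𝔞).re + 4 * (η 𝔞).re + (sq η 𝔞).re) := by ring
    rw [e3]
    refine mul_nonneg (VM_nonneg 𝔞) ?_
    rcases hu 𝔞 with h0 | h1
    · have e4 : sq η 𝔞 = 0 := by
        change η 𝔞 * η 𝔞 = 0
        rw [h0, zero_mul]
      rw [ab_zero h0, h0, e4]
      simp
    · have e4 : sq η 𝔞 = η 𝔞 * η 𝔞 := rfl
      rw [ab_one h1, e4, one_re, mul_one]
      exact three_four h1
  apply hm
  by_contra hne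
  have h1 : (1 : ℝ) ≤ m := by exact_mod_cast Nat.one_le_iff_ne_zero.2 hne
  have h2 : (0 : ℝ) ≤ m₁ := Nat.cast_nonneg _
  have h3 : (0 : ℝ) ≤ m₂ := Nat.cast_nonneg _
  push_cast at hge
  linarith

/-- **Non-vanishing at `s = 1`.** -/
theorem nonvanishing (hQ : StNvq) (h : IsHecke 𝔣 k t ψ) (h1 : ∃ 𝔠, ψ 𝔠 ≠ 0 ∧ ψ 𝔠 ≠ 1) :
    ∃ G : ℂ → ℂ, AnalyticAt ℂ G 1 ∧ G 1 ≠ 0 ∧ ∀ s : ℂ, 1 < s.re → G s = LI ψ s := by
  obtain ⟨𝔠, h𝔠0, h𝔠1⟩ := h1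
  have hcont : ∀ {𝔣 : Ideal (𝓞 K)} {k : (K →+* ℂ) → ℤ} {t : (K →+* ℂ) → ℝ}
      {ψ : Ideal (𝓞 K) →*₀ ℂ}, IsHecke 𝔣 k t ψ → ∀ 𝔠, ψ 𝔠 ≠ 0 → ψ 𝔠 ≠ 1 →
      ∃ G : ℂ → ℂ, AnalyticAt ℂ G 1 ∧ ∀ s : ℂ, 1 < s.re → G s = LI ψ s := by
    intro 𝔣 k t ψ h 𝔠 h0 h1
    have hb : 𝔠 ≠ ⊥ := by
      rintro rfl
      exact h0 (map_zero ψ)
    exact continuation h hb ((h.supp 𝔠 hb).1 h0) h1
  by_cases hq : ∀ 𝔞, ψ 𝔞 ≠ 0 → ψ 𝔞 ^ 2 = 1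
  · refine hQ K 𝔣 k t ψ h hq ⟨𝔠, ?_⟩
    have h2 := hq 𝔠 h𝔠0
    rw [pow_two] at h2
    rcases mul_self_eq_one_iff.1 h2 with h3 | h3
    · exact absurd h3 h𝔠1
    · exact h3
  · push Not at hq
    obtain ⟨𝔡, h𝔡0, h𝔡1⟩ := hq
    obtain ⟨F, hF, hFL⟩ := hcont h 𝔠 h𝔠0 h𝔠1
    obtain ⟨F₂, hF₂, hFL₂⟩ := hcont (h.mul h) 𝔡 (by
      rw [mulc_apply]
      exact mul_ne_zero h𝔡0 h𝔡0) (by
      rw [mulc_apply, ← pow_two]
      exact h𝔡1)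
    have hab : IsHecke (𝔣 * 𝔣) (k + -k) (t + -t) (ab ψ) := h.mul h.conj
    obtain ⟨G₁, hG₁, hG₁L⟩ := continuation_one hab (by
      intro 𝔞 h𝔞
      rcases h.norm_or 𝔞 with h0 | h1
      · exact absurd (ab_zero h0) h𝔞
      · exact ab_one h1)
    refine ⟨F, hF, ?_, hFL⟩
    refine hadamard h.norm_or hG₁ ?_ hF (Eventually.of_forall fun s hs => ?_) hF₂
      (Eventually.of_forall fun s hs => ?_)
    · filter_upwards [hG₁L] with s hs hs1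
      rw [pow_one, hs hs1]
    · rw [pow_zero, mul_one, hFL s hs]
    · rw [pow_zero, mul_one, hFL₂ s hs]
      rfl

end field

end Pool.Agent.N172.HS
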