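import Pool.Agent.N172.HS.Sup

/-!
# The finite part of a Hecke character
-/

set_option autoImplicit false
set_option linter.unusedSectionVars false

namespace Pool.Agent.N172.HS

open NumberField Module

section field

variable {K : Type} [Field K] [NumberField K]

lemma arch_mul (k : (K →+* ℂ) → ℤ) (t : (K →+* ℂ) → ℝ) {x y : K} (hx : x ≠ 0) (hy : y ≠ 0) :
    arch k t (x * y) = arch k t x * arch k t y := by
  unfold arch
  rw [← Finset.prod_mul_distrib]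
  refine Finset.prod_congr rfl fun σ _ => ?_
  have hx' : σ x ≠ 0 := (map_ne_zero σ).2 hx
  have hy' : σ y ≠ 0 := (map_ne_zero σ).2 hy
  have h1 : σ (x * y) / (‖σ (x * y)‖ : ℂ) = (σ x / (‖σ x‖ : ℂ)) * (σ y / (‖σ y‖ : ℂ)) := by
    rw [map_mul, norm_mul]
    push_cast
    rw [mul_div_mul_comm]
  have h2 : Complex.exp ((t σ * Real.log ‖σ (x * y)‖ : ℝ) * Complex.I) =
      Complex.exp ((t σ * Real.log ‖σ x‖ : ℝ) * Complex.I) *
      Complex.exp ((t σ * Real.log ‖σ y‖ : ℝ) * Complex.I) := by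
    rw [← Complex.exp_add, map_mul, norm_mul,
      Real.log_mul (norm_ne_zero_iff.2 hx') (norm_ne_zero_iff.2 hy')]
    congr 1
    push_cast
    ring
  rw [h1, h2, mul_zpow]
  ring

lemma arch_ne_zero (k : (K →+* ℂ) → ℤ) (t : (K →+* ℂ) → ℝ) {x : K} (hx : x ≠ 0) :
    arch k t x ≠ 0 := by
  intro h
  have := norm_arch (k := k) (t := t) hx
  rw [h, norm_zero] at this
  exact zero_ne_one this

/-- the finite part of `ψ` -/
noncomputable def Om (k : (K →+* ℂ) → ℤ) (t : (K →+* ℂ) → ℝ) (ψ : Ideal (𝓞 K) →*₀ ℂ)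
    (x : 𝓞 K) : ℂ := ψ (Ideal.span {x}) * (arch k t (x : K))⁻¹

variable {𝔣 : Ideal (𝓞 K)} {k : (K →+* ℂ) → ℤ} {t : (K →+* ℂ) → ℝ} {ψ : Ideal (𝓞 K) →*₀ ℂ}

lemma Om_zero : Om k t ψ 0 = 0 := by
  unfold Om
  have h : Ideal.span {(0 : 𝓞 K)} = 0 := by rw [Ideal.zero_eq_bot, Ideal.span_singleton_eq_bot]
  rw [h, map_zero, zero_mul]

lemma IsHecke.norm_le (h : IsHecke 𝔣 k t ψ) (𝔞 : Ideal (𝓞 K)) : ‖ψ 𝔞‖ ≤ 1 := by
  by_cases h0 : ψ 𝔞 = 0
  · rw [h0, norm_zero]; exact zero_le_one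
  · exact (h.unit 𝔞 h0).le

lemma coe_ne {x : 𝓞 K} (hx : x ≠ 0) : (x : K) ≠ 0 := RingOfIntegers.coe_ne_zero_iff.mpr hx

lemma norm_Om_le (h : IsHecke 𝔣 k t ψ) (x : 𝓞 K) : ‖Om k t ψ x‖ ≤ 1 := by
  by_cases hx : x = 0
  · rw [hx, Om_zero, norm_zero]; exact zero_le_one
  · unfold Om
    rw [norm_mul, norm_inv, norm_arch (coe_ne hx), inv_one, mul_one]
    exact h.norm_le _

lemma psi_eq {x : 𝓞 K} (hx : x ≠ 0) : ψ (Ideal.span {x}) = Om k t ψ x * arch k t (x : K) := by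
  unfold Om
  rw [mul_assoc, inv_mul_cancel₀ (arch_ne_zero k t (coe_ne hx)), mul_one]

lemma Om_mul {x y : 𝓞 K} (hx : x ≠ 0) (hy : y ≠ 0) : Om k t ψ (x * y) = Om k t ψ x * Om k t ψ y := by
  have e : ((x * y : 𝓞 K) : K) = (x : K) * (y : K) := map_mul _ _ _
  unfold Om
  rw [← Ideal.span_singleton_mul_span_singleton, map_mul, e, arch_mul k t (coe_ne hx) (coe_ne hy),
    mul_inv]
  ring

lemma coprime_iff {x : 𝓞 K} : IsCoprime (Ideal.span {x}) 𝔣 ↔ ∃ z : 𝓞 K, z * x - 1 ∈ 𝔣 := by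
  rw [Ideal.isCoprime_iff_exists]
  constructor
  · rintro ⟨a, ha, b, hb, hab⟩
    obtain ⟨z, rfl⟩ := Ideal.mem_span_singleton'.1 ha
    refine ⟨z, ?_⟩
    have : z * x - 1 = -b := by rw [← hab]; ring
    rw [this]
    exact neg_mem hb
  · rintro ⟨z, hz⟩
    exact ⟨z * x, Ideal.mem_span_singleton'.2 ⟨z, rfl⟩, -(z * x - 1), neg_mem hz, by ring⟩

lemma exists_pow (hne : 𝔣 ≠ ⊥) {x : 𝓞 K} (hx : IsCoprime (Ideal.span {x}) 𝔣) :
    ∃ m : ℕ, 0 < m ∧ x ^ m - 1 ∈ 𝔣 := by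
  obtain ⟨z, hz⟩ := coprime_iff.1 hx
  have hfin : Finite (𝓞 K ⧸ 𝔣) := Ideal.finiteQuotientOfFreeOfNeBot 𝔣 hne
  have h1 : Ideal.Quotient.mk 𝔣 z * Ideal.Quotient.mk 𝔣 x = 1 := by
    rw [← map_mul, ← map_one (Ideal.Quotient.mk 𝔣), Ideal.Quotient.eq]
    exact hz
  let u : (𝓞 K ⧸ 𝔣)ˣ := ⟨Ideal.Quotient.mk 𝔣 x, Ideal.Quotient.mk 𝔣 z, by rw [mul_comm]; exact h1, h1⟩
  obtain ⟨m, hm, hu⟩ := (isOfFinOrder_iff_pow_eq_one).1 (isOfFinOrder_of_finite u)
  refine ⟨m, hm, ?_⟩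
  have h2 := congrArg Units.val hu
  rw [Units.val_pow_eq_pow_val, Units.val_one] at h2
  have h3 : Ideal.Quotient.mk 𝔣 (x ^ m) = Ideal.Quotient.mk 𝔣 1 := by
    rw [map_pow, map_one]
    exact h2
  rwa [Ideal.Quotient.eq] at h3

/-- **The finite part depends only on the residue class and on the signs.** -/
theorem Om_congr (h : IsHecke 𝔣 k t ψ) {x y : 𝓞 K} (hx : x ≠ 0) (hy : y ≠ 0) (hxy : x - y ∈ 𝔣)
    (hs : SameSign (x : K) (y : K)) : Om k t ψ x = Om k t ψ y := by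
  by_cases hc : IsCoprime (Ideal.span {x}) 𝔣
  · obtain ⟨m, hm, hm1⟩ := exists_pow h.ne_bot hc
    obtain ⟨j, hj⟩ : ∃ j, 2 * m = j + 1 := ⟨2 * m - 1, by omega⟩
    have hz : x ^ j ≠ 0 := pow_ne_zero _ hx
    have h1 : x ^ j * x - 1 ∈ 𝔣 := by
      have e : x ^ j * x - 1 = (x ^ m - 1) * (x ^ m + 1) := by
        rw [← pow_succ, ← hj, two_mul, pow_add]
        ring
      rw [e]
      exact 𝔣.mul_mem_right _ hm1
    have h2 : x ^ j * y - 1 ∈ 𝔣 := by
      have e : x ^ j * y - 1 = (x ^ j * x - 1) - x ^ j * (x - y) := by ring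
      rw [e]
      exact sub_mem h1 (𝔣.mul_mem_left _ hxy)
    have hp1 : TotPos (x ^ j * x) := by
      intro σ
      have e : ((x ^ j * x : 𝓞 K) : K) = ((x : K) ^ m) ^ 2 := by
        push_cast
        rw [← pow_succ, ← hj, ← pow_mul, mul_comm]
      rw [e, map_pow]
      have : σ ((x : K) ^ m) ≠ 0 := (map_ne_zero σ).2 (pow_ne_zero _ (coe_ne hx))
      positivity
    have hp2 : TotPos (x ^ j * y) := by
      intro σ
      have h3 := hp1 σ
      have h4 := hs σ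
      have hx' : σ (x : K) ≠ 0 := (map_ne_zero σ).2 (coe_ne hx)
      have hy' : σ (y : K) ≠ 0 := (map_ne_zero σ).2 (coe_ne hy)
      have e1 : σ ((x ^ j * x : 𝓞 K) : K) = σ ((x ^ j : 𝓞 K) : K) * σ (x : K) := by
        rw [← map_mul]
        norm_cast
      have e2 : σ ((x ^ j * y : 𝓞 K) : K) = σ ((x ^ j : 𝓞 K) : K) * σ (y : K) := by
        rw [← map_mul]
        norm_cast
      rw [e1] at h3
      rw [e2]
      rcases lt_or_gt_of_ne hx' with h5 | h5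
      · have h6 : σ (y : K) < 0 := by
          rcases lt_or_gt_of_ne hy' with h6 | h6
          · exact h6
          · exact absurd (h4.2 h6) (not_lt.2 h5.le)
        have h7 : σ ((x ^ j : 𝓞 K) : K) < 0 := neg_of_mul_pos_left h3 h5.le
        exact mul_pos_of_neg_of_neg h7 h6
      · have h6 : 0 < σ (y : K) := h4.1 h5
        have h7 : 0 < σ ((x ^ j : 𝓞 K) : K) := pos_of_mul_pos_left h3 h5.le
        exact mul_pos h7 h6
    have r1 := h.ray _ (mul_ne_zero hz hx) h1 hp1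
    have r2 := h.ray _ (mul_ne_zero hz hy) h2 hp2
    have o1 : Om k t ψ (x ^ j * x) = 1 := by
      unfold Om
      rw [r1]
      exact mul_inv_cancel₀ (arch_ne_zero k t (coe_ne (mul_ne_zero hz hx)))
    have o2 : Om k t ψ (x ^ j * y) = 1 := by
      unfold Om
      rw [r2]
      exact mul_inv_cancel₀ (arch_ne_zero k t (coe_ne (mul_ne_zero hz hy)))
    rw [Om_mul hz hx] at o1
    rw [Om_mul hz hy] at o2
    have o3 : Om k t ψ (x ^ j) ≠ 0 := left_ne_zero_of_mul_eq_one o1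
    exact mul_left_cancel₀ o3 (o1.trans o2.symm)
  · have hc' : ¬ IsCoprime (Ideal.span {y}) 𝔣 := by
      intro h1
      apply hc
      obtain ⟨z, hz⟩ := coprime_iff.1 h1
      refine coprime_iff.2 ⟨z, ?_⟩
      have e : z * x - 1 = (z * y - 1) + z * (x - y) := by ring
      rw [e]
      exact add_mem hz (𝔣.mul_mem_left _ hxy)
    have h1 : ψ (Ideal.span {x}) = 0 := by
      by_contra h2
      exact hc ((h.supp _ (by rwa [Ne, Ideal.span_singleton_eq_bot])).1 h2)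
    have h2 : ψ (Ideal.span {y}) = 0 := by
      by_contra h2
      exact hc' ((h.supp _ (by rwa [Ne, Ideal.span_singleton_eq_bot])).1 h2)
    unfold Om
    rw [h1, h2, zero_mul, zero_mul]

end field

end Pool.Agent.N172.HS
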