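import Pool.Agent.N172.HS.Mul
import Pool.Agent.Y149.Ord
import Pool.Agent.N134.HS.Nvq

/-!
# Varieties, parts of their cohomology, and the L-functions twisted by representations
-/

set_option autoImplicit false
set_option linter.unusedSectionVars false

namespace Pool.Agent.N172.HS

open NumberField Complex Filter Topology IsDedekindDomain Asymptotics Polynomial
open Pool.Agent.W353.EF (IsFrobenius LFun size)
open Pool.Agent.W353.PV (Eig alp pick pick_spec tF)
open Pool.Agent.W353.L1 (tr tr_eq abs_tr_le)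
open Pool.Agent.W353.TP (HX sysH LL LL_tendsto bdd_isLittleO)
open Pool.Agent.W353.NF (vx)
open Pool.Agent.W540.BE (nm two_le_nm)
open Pool.Agent.Y149.Ord (HasOrder tendsto_size)
open scoped ComplexConjugate

/-- A projective variety over the number field `K` with given equations, dimension and Betti numbers,
for which the Frobenius eigenvalues of Deligne exist at almost all primes; for example every smooth
projective variety over `K`. -/
structure Variety (K : Type) [Field K] [NumberField K] where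
  n : ℕ
  eqs : Set (MvPolynomial (Fin n) (𝓞 K))
  dim : ℕ
  betti : ℕ → ℕ
  frob : ∀ᶠ v : HeightOneSpectrum (𝓞 K) in cofinite, ∀ a, a ≤ 2 * dim →
    ∃ α : Fin (betti a) → ℂ, IsFrobenius eqs dim a v α

/-- `ρ` is irreducible (up to the sign, if it is a virtual representation). -/
def WRep.IsIrr {K : Type} [Field K] [NumberField K] (ρ : WRep K) : Prop := ρ.inner ρ = 1

section

variable {K : Type} [Field K] [NumberField K]

/-- `H^i(X)` is the sum of `θ(-i/2)` and of a part of dimension `N'`: at almost all primes the trace of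
the geometric Frobenius on `H^i(X)` is `q^{i/2} tr θ + α'_1 + ⋯ + α'_{N'}` with real `tr θ` and
`|α'_j| = q^{i/2}`. -/
def IsPart (X : Variety K) (i : ℕ) (θ : WRep K) (N' : ℕ) : Prop :=
  ∀ᶠ v : HeightOneSpectrum (𝓞 K) in cofinite, (θ.trace v).im = 0 ∧
    ∃ (α : Fin (X.betti i) → ℂ) (α' : Fin N' → ℂ), IsFrobenius X.eqs X.dim i v α ∧
      (∀ j, ‖α' j‖ = (Ideal.absNorm v.asIdeal : ℝ) ^ ((i : ℝ) / 2)) ∧
      ∑ j, α j = (Ideal.absNorm v.asIdeal : ℂ) ^ ((i : ℂ) / 2) * θ.trace v + ∑ j, α' j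

/-- The polynomials `B v` are the Euler factors of `L(H^i(X) ⊗ ρ, s)`: for almost all primes `v`,
`B_v(z) = ∏ (1 - α_j γ_l z)` with the eigenvalues `α_j` of the geometric Frobenius on `H^i(X)` and
numbers `γ_l` of absolute value one with the sum `tr ρ`; at the other primes `B v` is an arbitrary
polynomial, and no factor `1 / B_v(q_v^{-s})` has a pole at `s = i/2 + 1`. -/
def IsTensor (X : Variety K) (i : ℕ) (ρ : WRep K) (B : HeightOneSpectrum (𝓞 K) → ℂ[X]) : Prop :=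
  (∃ M : ℕ, ∀ᶠ v in cofinite, ∃ (α : Fin (X.betti i) → ℂ) (γ : Fin M → ℂ),
    IsFrobenius X.eqs X.dim i v α ∧ (∀ l, ‖γ l‖ = 1) ∧ ∑ l, γ l = ρ.trace v ∧
    ∀ z : ℂ, (B v).eval z = ∏ j, ∏ l, (1 - α j * γ l * z)) ∧
  ∀ v, (B v).eval ((Ideal.absNorm v.asIdeal : ℂ) ^ (-((i : ℂ) / 2 + 1))) ≠ 0

theorem vx_injective : Function.Injective (vx : HX K → HeightOneSpectrum (𝓞 K)) := by
  intro x y h
  have h1 : (x.1 : ℕ) = y.1 := by
    rw [← absNorm_vx x, ← absNorm_vx y, h]
  obtain ⟨p, φ⟩ := x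
  obtain ⟨q, ψ⟩ := y
  have h2 : p = q := Subtype.ext h1
  subst h2
  have hfact : Fact (p : ℕ).Prime := ⟨p.2⟩
  congr 1
  apply Pool.Agent.H921R2.TatePole.hom_ext_of_ker
  exact congrArg HeightOneSpectrum.asIdeal h

theorem eventually_HX {P : HeightOneSpectrum (𝓞 K) → Prop} (h : ∀ᶠ v in cofinite, P v) :
    ∀ᶠ x : HX K in cofinite, P (vx x) := vx_injective.tendsto_cofinite.eventually h

theorem EH_finsupp (T : Finset (HX K)) {φ : HX K → ℝ} (hφ : ∀ x ∉ T, φ x = 0) {B : ℝ}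
    (hB : ∀ x, |φ x| ≤ B) {ε : ℝ} (hε : 0 < ε) : |EH K ε φ| ≤ T.card * B :=
  finsupp_E (sysH K) T hφ hB hε

/-- finitely many primes of degree one do not matter -/
theorem EH_congr {φ φ' : HX K → ℝ} (h : ∀ᶠ x in cofinite, φ x = φ' x) {B B' : ℝ}
    (hφ : ∀ x, |φ x| ≤ B) (hφ' : ∀ x, |φ' x| ≤ B') :
    (fun ε => EH K ε φ - EH K ε φ') =o[𝓝[>] 0] LL := by
  classical
  have hfin : {x | ¬ φ x - φ' x = 0}.Finite := by
    have h2 : ∀ᶠ x in cofinite, φ x - φ' x = 0 := h.mono fun x hx => sub_eq_zero.2 hx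
    rwa [Filter.eventually_cofinite] at h2
  have hb : ∀ x, |φ x - φ' x| ≤ B + B' := fun x => (abs_sub _ _).trans (add_le_add (hφ x) (hφ' x))
  apply bdd_isLittleO
  refine ⟨hfin.toFinset.card * (B + B'), ?_⟩
  filter_upwards [self_mem_nhdsWithin] with ε h3
  have hε : (0 : ℝ) < ε := h3
  have h4 : |EH K ε (fun x => φ x - φ' x)| ≤ hfin.toFinset.card * (B + B') :=
    EH_finsupp hfin.toFinset (fun x hx => by
      rw [Set.Finite.mem_toFinset] at hx
      by_contra h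
      exact hx h) hb hε
  have h5 : EH K ε φ - EH K ε φ' = EH K ε (fun x => φ x - φ' x) := by
    have e1 : (fun x => φ x - φ' x) = fun x => φ x + (-1) * φ' x := by
      funext x; ring
    rw [e1, EH_add hε hφ (B' := B') (fun x => by rw [neg_one_mul, abs_neg]; exact hφ' x),
      EH_const_mul]
    ring
  rw [h5]
  exact h4

/-- the normalised trace -/
noncomputable def TV (X : Variety K) (i : ℕ) (v : HeightOneSpectrum (𝓞 K)) : ℝ :=
  tF X.eqs X.dim i (X.betti i) K v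

theorem abs_TV (X : Variety K) (i : ℕ) (v : HeightOneSpectrum (𝓞 K)) : |TV X i v| ≤ X.betti i :=
  abs_tr_le _ _ _

theorem TV_eq (X : Variety K) {i : ℕ} (hi : i ≤ 2 * X.dim) {v : HeightOneSpectrum (𝓞 K)}
    {α : Fin (X.betti i) → ℂ} (h : IsFrobenius X.eqs X.dim i v α) :
    ((TV X i v : ℝ) : ℂ) = (∑ j, α j) * ((nm K v : ℕ) : ℂ) ^ (-((i : ℂ) / 2)) := by
  have h1' : Eig X.eqs X.dim i v α := h
  have h3 : Eig X.eqs X.dim i v (alp X.eqs X.dim i (X.betti i) K v) := pick_spec ⟨α, h1'⟩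
  have e1 : ((TV X i v : ℝ) : ℂ) = (∑ j, alp X.eqs X.dim i (X.betti i) K v j) *
      ((nm K v : ℕ) : ℂ) ^ (-(((i : ℝ) / 2 : ℝ) : ℂ)) :=
    tr_eq (fun j => h3.norm j) (h3.im hi)
  rw [e1]
  have e2 : ∑ j, α j = ∑ j, alp X.eqs X.dim i (X.betti i) K v j :=
    congrArg Multiset.sum (h1'.unique' hi h3)
  rw [e2]
  congr 2
  push_cast
  rfl

/-- **The size of the L-function of `H^i(X) ⊗ ρ`.** -/
theorem tensor_size {X : Variety K} {i : ℕ} (hi : i ≤ 2 * X.dim) {ρ : WRep K}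
    {B : HeightOneSpectrum (𝓞 K) → ℂ[X]} (hB : IsTensor X i ρ B) :
    (∀ᶠ ε : ℝ in 𝓝[>] 0, LFun B ((i : ℂ) / 2 + 1 + ε) ≠ 0) ∧
    (fun ε => size i B ε * LL ε - EH K ε (fun x => TV X i (vx x) * (ρ.tH x).re))
      =o[𝓝[>] 0] LL := by
  obtain ⟨⟨M, hM⟩, hB0⟩ := hB
  have h := size_H (K := K) (ι := Fin (X.betti i) × Fin M) (i := i) B
    (fun v => TV X i v * (ρ.trace v).re) (by
      filter_upwards [hM] with v hv
      obtain ⟨α, γ, h1, h2, h3, h4⟩ := hv
      have h1' : Eig X.eqs X.dim i v α := h1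
      refine ⟨fun l => α l.1 * γ l.2, fun l => ?_, ?_, fun z => ?_⟩
      · rw [norm_mul, h2, mul_one]
        exact h1'.norm l.1
      · have e1 := TV_eq X hi h1
        have e2 : ∑ l : Fin (X.betti i) × Fin M, α l.1 * γ l.2 = (∑ j, α j) * ρ.trace v := by
          rw [← h3, Finset.sum_mul_sum, ← Finset.univ_product_univ, Finset.sum_product]
        rw [e2, mul_right_comm, ← e1, Complex.re_ofReal_mul]
      · rw [h4, ← Finset.univ_product_univ, Finset.prod_product]) hB0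
    (D := X.betti i * ρ.bd) (fun x => by
      rw [abs_mul, ρ.trace_vx]
      exact mul_le_mul (abs_TV X i _) ((Complex.abs_re_le_norm _).trans (ρ.norm_tH_le x))
        (abs_nonneg _) (Nat.cast_nonneg _))
  refine ⟨h.1, ?_⟩
  have h2 := h.2
  simp only [WRep.trace_vx] at h2
  exact h2

open Classical in
/-- the complementary part at the primes of degree one -/
noncomputable def cut (X : Variety K) (i : ℕ) (θ : WRep K) (N' : ℕ) (x : HX K) : ℝ :=
  if |TV X i (vx x) - (θ.tH x).re| ≤ N' then TV X i (vx x) - (θ.tH x).re else 0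

theorem abs_cut (X : Variety K) (i : ℕ) (θ : WRep K) (N' : ℕ) (x : HX K) :
    |cut X i θ N' x| ≤ N' := by
  unfold cut
  split_ifs with h
  · exact h
  · rw [abs_zero]; exact Nat.cast_nonneg _

theorem cut_eq {X : Variety K} {i : ℕ} (hi : i ≤ 2 * X.dim) {θ : WRep K} {N' : ℕ}
    (h : IsPart X i θ N') : ∀ᶠ x : HX K in cofinite, (θ.tH x).im = 0 ∧
      cut X i θ N' x = TV X i (vx x) - (θ.tH x).re := by
  filter_upwards [eventually_HX h] with x hx
  obtain ⟨h0, α, α', h1, h2, h3⟩ := hx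
  rw [θ.trace_vx] at h0 h3
  refine ⟨h0, ?_⟩
  unfold cut
  rw [if_pos]
  have e1 := TV_eq X hi h1
  have hq : (0 : ℝ) < nm K (vx x) := by
    have := two_le_nm (vx x)
    exact_mod_cast (by omega : 0 < nm K (vx x))
  have hq' : ((nm K (vx x) : ℕ) : ℂ) ≠ 0 := by exact_mod_cast hq.ne'
  have e2 : ((Ideal.absNorm (vx x).asIdeal : ℕ) : ℂ) = ((nm K (vx x) : ℕ) : ℂ) := rfl
  rw [h3, e2, add_mul, mul_right_comm, ← Complex.cpow_add _ _ hq', add_neg_cancel,
    Complex.cpow_zero, one_mul] at e1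
  have e3 : ((TV X i (vx x) - (θ.tH x).re : ℝ) : ℂ) =
      (∑ j, α' j) * ((nm K (vx x) : ℕ) : ℂ) ^ (-((i : ℂ) / 2)) := by
    have e4 : ((θ.tH x).re : ℂ) = θ.tH x := by
      apply Complex.ext
      · exact Complex.ofReal_re _
      · rw [Complex.ofReal_im, h0]
    rw [Complex.ofReal_sub, e1, e4]
    ring
  have e5 : |TV X i (vx x) - (θ.tH x).re| =
      ‖(∑ j, α' j) * ((nm K (vx x) : ℕ) : ℂ) ^ (-((i : ℂ) / 2))‖ := by
    rw [← e3, Complex.norm_real, Real.norm_eq_abs]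
  rw [e5, norm_mul]
  have h5 : ‖((nm K (vx x) : ℕ) : ℂ) ^ (-((i : ℂ) / 2))‖ =
      (nm K (vx x) : ℝ) ^ (-((i : ℝ) / 2)) := by
    rw [Complex.norm_natCast_cpow_of_pos (by have := two_le_nm (vx x); omega)]
    congr 1
    simp
  have h4 : ‖∑ l, α' l‖ ≤ N' * (nm K (vx x) : ℝ) ^ ((i : ℝ) / 2) := by
    refine (norm_sum_le _ _).trans ?_
    rw [Finset.sum_congr rfl fun j _ => h2 j, Finset.sum_const, Finset.card_univ,
      Fintype.card_fin, nsmul_eq_mul]
    exact le_rfl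
  rw [h5]
  calc ‖∑ l, α' l‖ * (nm K (vx x) : ℝ) ^ (-((i : ℝ) / 2)) ≤
      N' * (nm K (vx x) : ℝ) ^ ((i : ℝ) / 2) * (nm K (vx x) : ℝ) ^ (-((i : ℝ) / 2)) :=
        mul_le_mul_of_nonneg_right h4 (by positivity)
    _ = N' := by
        rw [mul_assoc, ← Real.rpow_add hq, add_neg_cancel, Real.rpow_zero, mul_one]

/-- **The difference of the size and of the expected pole order is a correlation with the
complementary part.** -/
theorem cut_corr {X : Variety K} {i : ℕ} (hi : i ≤ 2 * X.dim) {θ : WRep K} {N' : ℕ}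
    (h : IsPart X i θ N') (ρ : WRep K) :
    (fun ε => EH K ε (fun x => TV X i (vx x) * (ρ.tH x).re) - ρ.inner θ * LL ε -
      EH K ε (fun x => cut X i θ N' x * (ρ.tH x).re)) =o[𝓝[>] 0] LL := by
  have hQ : StNvq := Pool.Agent.N134.HS.t_nvq
  have hρ : ∀ x, |(ρ.tH x).re| ≤ ρ.bd := fun x =>
    (Complex.abs_re_le_norm _).trans (ρ.norm_tH_le x)
  have b1 : ∀ x, |TV X i (vx x) * (ρ.tH x).re| ≤ X.betti i * ρ.bd := fun x => by
    rw [abs_mul]
    exact mul_le_mul (abs_TV X i _) (hρ x) (abs_nonneg _) (Nat.cast_nonneg _)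
  have b2 : ∀ x, |cut X i θ N' x * (ρ.tH x).re| ≤ N' * ρ.bd := fun x => by
    rw [abs_mul]
    exact mul_le_mul (abs_cut X i θ N' x) (hρ x) (abs_nonneg _) (Nat.cast_nonneg _)
  have b3 : ∀ x, |(ρ.tH x * conj (θ.tH x)).re| ≤ ρ.bd * θ.bd := fun x => by
    refine (Complex.abs_re_le_norm _).trans ?_
    rw [norm_mul, Complex.norm_conj]
    exact mul_le_mul (ρ.norm_tH_le x) (θ.norm_tH_le x) (norm_nonneg _) ρ.bd_nonneg
  have h1 := EH_congr (K := K) (φ := fun x => TV X i (vx x) * (ρ.tH x).re)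
    (φ' := fun x => cut X i θ N' x * (ρ.tH x).re + (ρ.tH x * conj (θ.tH x)).re) (by
      filter_upwards [cut_eq hi h] with x hx
      rw [hx.2, Complex.mul_re, Complex.conj_re, Complex.conj_im, hx.1]
      ring) b1 (B' := N' * ρ.bd + ρ.bd * θ.bd)
      (fun x => (abs_add_le _ _).trans (add_le_add (b2 x) (b3 x)))
  have h2 := h1.add (WRep.gram hQ ρ θ)
  refine h2.congr' ?_ (EventuallyEq.refl _ _)
  filter_upwards [self_mem_nhdsWithin] with ε hε
  have hε' : (0 : ℝ) < ε := hε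
  rw [EH_add hε' b2 b3]
  ring

/-- the defect of a twisted L-function -/
theorem defect {X : Variety K} {i : ℕ} (hi : i ≤ 2 * X.dim) {θ : WRep K} {N' : ℕ}
    (h : IsPart X i θ N') {ρ : WRep K} {B : HeightOneSpectrum (𝓞 K) → ℂ[X]}
    (hB : IsTensor X i ρ B) :
    (fun ε => (size i B ε - ρ.inner θ) * LL ε -
      EH K ε (fun x => cut X i θ N' x * (ρ.tH x).re)) =o[𝓝[>] 0] LL := by
  refine ((tensor_size hi hB).2.add (cut_corr hi h ρ)).congr_left fun ε => ?_
  ring

end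

end Pool.Agent.N172.HS
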