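import Pool.Agent.N172.HS.Pq

/-!
# Products with varieties of CM type: the theorems
-/

set_option autoImplicit false
set_option linter.unusedSectionVars false

namespace Pool.Agent.N172.HS

open NumberField Complex Filter Topology IsDedekindDomain Asymptotics Polynomial
open Pool.Agent.W353.EF (IsFrobenius IsEulerSystem LFun size)
open Pool.Agent.W353.TP (HX sysH LL LL_tendsto bdd_isLittleO)
open Pool.Agent.W353.NF (vx)
open Pool.Agent.Y149.Ord (HasOrder tendsto_size)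
open scoped ComplexConjugate

section

variable {K : Type} [Field K] [NumberField K]

/-- `Y` and `Y'` have no common nontrivial constituents. -/
def CMVariety.Disj (Y Y' : CMVariety K) : Prop :=
  ∀ b ≤ 2 * Y.dim, ∀ j, ∀ b' ≤ 2 * Y'.dim, ∀ j', (Y.π b j).inner (Y'.π b' j') = 0

theorem CMVariety.Disj.symm {Y Y' : CMVariety K} (h : Y.Disj Y') : Y'.Disj Y :=
  fun b hb j b' hb' j' => by rw [WRep.inner_comm]; exact h b' hb' j' b hb j

theorem gg_zero (X : Variety K) {Y Y' : CMVariety K} (h : Y.Disj Y') (n n' : ℕ)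
    (a : Fin (2 * X.dim + 1)) : gg X Y Y' n n' a = 0 := by
  unfold gg
  refine Finset.sum_eq_zero fun j hj => Finset.sum_eq_zero fun l hl => ?_
  have h1 : n - (a : ℕ) ≤ 2 * Y.dim := by
    unfold TT at hj
    split_ifs at hj with h2
    · exact h2.2
    · exact absurd hj (Finset.notMem_empty _)
  have h1' : n' - (a : ℕ) ≤ 2 * Y'.dim := by
    unfold TT at hl
    split_ifs at hl with h2
    · exact h2.2
    · exact absurd hl (Finset.notMem_empty _)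
  rw [h _ h1 _ _ h1' _]
  simp

/-- the defect -/
noncomputable def dfct (X : Variety K) (θ : ℕ → WRep K) (Y : CMVariety K) (n : ℕ)
    (B : HeightOneSpectrum (𝓞 K) → ℂ[X]) (A : ℕ → HeightOneSpectrum (𝓞 K) → ℂ[X]) (ε : ℝ) : ℝ :=
  size n B ε - expected X Y θ n (fun a => size a (A a) ε)

/-- **The inequality for the defects of products.** -/
theorem product_bound {X : Variety K} {θ : ℕ → WRep K} {N' : ℕ → ℕ}
    (hθ : ∀ a ≤ 2 * X.dim, IsPart X a (θ a) (N' a)) {κ : Type} [Fintype κ]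
    {Y : κ → CMVariety K} {n : κ → ℕ} {B : κ → HeightOneSpectrum (𝓞 K) → ℂ[X]}
    (hB : ∀ k, IsProduct X (Y k).toVariety (n k) (B k))
    {A : κ → ℕ → HeightOneSpectrum (𝓞 K) → ℂ[X]}
    (hA : ∀ k, ∀ a ≤ 2 * X.dim, IsEulerSystem X.eqs X.dim a (X.betti a) (A k a))
    (hY : ∀ k l, k ≠ l → (Y k).Disj (Y l)) (c : κ → ℝ) {η : ℝ} (hη : 0 < η) :
    ∀ᶠ ε : ℝ in 𝓝[>] 0, (∑ k, c k * dfct X θ (Y k) (n k) (B k) (A k) ε) ^ 2 ≤
      (∑ a : Fin (2 * X.dim + 1), (N' a : ℝ) ^ 2) *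
        ∑ k, c k ^ 2 * (∑ a, gg X (Y k) (Y k) (n k) (n k) a) + η := by
  classical
  have h := multi (K := K) (A := Fin (2 * X.dim + 1)) (fun k a => GG X (Y k) (n k) a)
    (fun k a => GG_bdd X (Y k) (n k) a) (fun a k l => gg X (Y k) (Y l) (n k) (n l) a)
    (fun a k l => GG_gram X (Y k) (Y l) (n k) (n l) a)
    (fun a => cut X a (θ a) (N' a)) (fun a => N' a) (fun a x => abs_cut X a (θ a) (N' a) x) c
    (fun k ε => dfct X θ (Y k) (n k) (B k) (A k) ε)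
    (fun k => product_defect (hB k) hθ (hA k)) hη
  have e : ∑ a : Fin (2 * X.dim + 1), ∑ k, ∑ l, c k * c l * gg X (Y k) (Y l) (n k) (n l) a =
      ∑ k, c k ^ 2 * (∑ a, gg X (Y k) (Y k) (n k) (n k) a) := by
    rw [Finset.sum_comm]
    refine Finset.sum_congr rfl fun k _ => ?_
    rw [Finset.mul_sum]
    refine Finset.sum_congr rfl fun a _ => ?_
    rw [Finset.sum_eq_single k]
    · ring
    · intro l _ hl
      rw [gg_zero X (hY k l hl.symm), mul_zero]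
    · intro h; exact absurd (Finset.mem_univ k) h
  rw [e] at h
  exact h

theorem sum_fin_sq (X : Variety K) (N' : ℕ → ℕ) :
    ∑ a : Fin (2 * X.dim + 1), (N' a : ℝ) ^ 2 =
      ((∑ a ∈ Finset.range (2 * X.dim + 1), N' a ^ 2 : ℕ) : ℝ) := by
  rw [Fin.sum_univ_eq_sum_range (fun a => (N' a : ℝ) ^ 2)]
  push_cast
  rfl

/-- **Bessel's inequality for products.** -/
theorem product_bessel {X : Variety K} {θ : ℕ → WRep K} {N' : ℕ → ℕ}
    (hθ : ∀ a ≤ 2 * X.dim, IsPart X a (θ a) (N' a)) {κ : Type} [Fintype κ]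
    {Y : κ → CMVariety K} {n : κ → ℕ} {B : κ → HeightOneSpectrum (𝓞 K) → ℂ[X]}
    (hB : ∀ k, IsProduct X (Y k).toVariety (n k) (B k))
    {A : κ → ℕ → HeightOneSpectrum (𝓞 K) → ℂ[X]}
    (hA : ∀ k, ∀ a ≤ 2 * X.dim, IsEulerSystem X.eqs X.dim a (X.betti a) (A k a))
    (hY : ∀ k l, k ≠ l → (Y k).Disj (Y l)) {C : ℕ} (hC : ∀ k, (Y k).SizeLe C)
    {η : ℝ} (hη : 0 < η) :
    ∀ᶠ ε : ℝ in 𝓝[>] 0, ∑ k, dfct X θ (Y k) (n k) (B k) (A k) ε ^ 2 ≤
      ((∑ a ∈ Finset.range (2 * X.dim + 1), N' a ^ 2 : ℕ) : ℝ) * (C : ℝ) ^ 2 + η := by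
  refine bessel_gen (z := fun k ε => dfct X θ (Y k) (n k) (B k) (A k) ε) (Nat.cast_nonneg _)
    (sq_nonneg _) (g := fun k => ∑ a, gg X (Y k) (Y k) (n k) (n k) a)
    (fun k => gg_diag_le X (hC k) (n k)) (fun c η' hη' => ?_) hη
  have h := product_bound hθ hB hA hY c hη'
  rwa [sum_fin_sq] at h

theorem product_count {X : Variety K} {θ : ℕ → WRep K} {N' : ℕ → ℕ}
    (hθ : ∀ a ≤ 2 * X.dim, IsPart X a (θ a) (N' a)) {κ : Type} [Fintype κ]
    {Y : κ → CMVariety K} {n : κ → ℕ} {B : κ → HeightOneSpectrum (𝓞 K) → ℂ[X]}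
    (hB : ∀ k, IsProduct X (Y k).toVariety (n k) (B k))
    {A : κ → ℕ → HeightOneSpectrum (𝓞 K) → ℂ[X]}
    (hA : ∀ k, ∀ a ≤ 2 * X.dim, IsEulerSystem X.eqs X.dim a (X.betti a) (A k a))
    (hY : ∀ k l, k ≠ l → (Y k).Disj (Y l)) {C : ℕ} (hC : ∀ k, (Y k).SizeLe C)
    {δ : ℝ} (hδ : 0 ≤ δ)
    (h : ∀ k, ∀ᶠ ε in 𝓝[>] (0 : ℝ), δ ≤ |dfct X θ (Y k) (n k) (B k) (A k) ε|) :
    Fintype.card κ * δ ^ 2 ≤
      ((∑ a ∈ Finset.range (2 * X.dim + 1), N' a ^ 2 : ℕ) : ℝ) * (C : ℝ) ^ 2 := by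
  refine count_gen (z := fun k ε => dfct X θ (Y k) (n k) (B k) (A k) ε) (Nat.cast_nonneg _)
    (sq_nonneg _) (g := fun k => ∑ a, gg X (Y k) (Y k) (n k) (n k) a)
    (fun k => gg_diag_le X (hC k) (n k)) (fun c η' hη' => ?_) hδ h
  have h := product_bound hθ hB hA hY c hη'
  rwa [sum_fin_sq] at h

/-- the expected number is an integer -/
theorem expected_int (X : Variety K) (Y : CMVariety K) (θ : ℕ → WRep K) (n : ℕ) (r : ℕ → ℤ) :
    ∃ m : ℤ, expected X Y θ n (fun a => (r a : ℝ)) = m := by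
  refine ⟨∑ c ∈ degrees X Y.toVariety n,
    ((Y.triv c.2 : ℤ) * r c.1 + ∑ j, (Y.π c.2 j).inner (θ c.1)), ?_⟩
  unfold expected
  push_cast
  rfl

/-- the limit of the defect -/
theorem dfct_tendsto {X : Variety K} {θ : ℕ → WRep K} {Y : CMVariety K} {n : ℕ}
    {B : HeightOneSpectrum (𝓞 K) → ℂ[X]} {A : ℕ → HeightOneSpectrum (𝓞 K) → ℂ[X]} {r : ℤ}
    {r₀ : ℕ → ℤ} (hr : HasOrder n B (-r)) (hr₀ : ∀ a ≤ 2 * X.dim, HasOrder a (A a) (-(r₀ a))) :
    Tendsto (dfct X θ Y n B A) (𝓝[>] 0) (𝓝 (r - expected X Y θ n (fun a => (r₀ a : ℝ)))) := by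
  unfold dfct
  have h1 := tendsto_size hr
  rw [Int.cast_neg, neg_neg] at h1
  refine h1.sub ?_
  unfold expected
  refine tendsto_finsetSum _ fun c hc => ?_
  have h2 := tendsto_size (hr₀ c.1 (mem_degrees.1 hc).2.1)
  rw [Int.cast_neg, neg_neg] at h2
  exact (h2.const_mul _).add_const _

theorem reindex {W : Type*} {ι : Type} [Fintype ι] (f : ι → W) :
    ∃ g : Fin (Fintype.card ι) → W, (∀ i, ∃ j, g i = f j) ∧ ∀ j, ∃ i, g i = f j :=
  ⟨fun i => f ((Fintype.equivFin ι).symm i), fun i => ⟨_, rfl⟩, fun j =>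
    ⟨Fintype.equivFin ι j, by simp⟩⟩

/-- **Products with all varieties of CM type with a bounded number of constituents.** -/
theorem product_exceptions {X : Variety K} {θ : ℕ → WRep K} {N' : ℕ → ℕ}
    (hθ : ∀ a ≤ 2 * X.dim, IsPart X a (θ a) (N' a)) (C : ℕ) {δ : ℝ} (hδ0 : 0 < δ) (hδ1 : δ < 1) :
    ∃ (s : ℕ) (σ : Fin s → WRep K),
      s * δ ^ 2 ≤ (C : ℝ) ^ 3 * (∑ a ∈ Finset.range (2 * X.dim + 1), N' a ^ 2 : ℕ) ∧
      (∀ k, (σ k).IsIrr ∧ (σ k).inner (WRep.one K) = 0) ∧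
      ∀ Y : CMVariety K, Y.SizeLe C → Y.Avoids σ → ∀ (n : ℕ)
        (B : HeightOneSpectrum (𝓞 K) → ℂ[X]) (A : ℕ → HeightOneSpectrum (𝓞 K) → ℂ[X]),
        IsProduct X Y.toVariety n B →
        (∀ a ≤ 2 * X.dim, IsEulerSystem X.eqs X.dim a (X.betti a) (A a)) →
        (∃ᶠ ε : ℝ in 𝓝[>] 0,
          |size n B ε - expected X Y θ n (fun a => size a (A a) ε)| < δ) ∧
        ∀ (r : ℤ) (r₀ : ℕ → ℤ), HasOrder n B (-r) →
          (∀ a ≤ 2 * X.dim, HasOrder a (A a) (-(r₀ a))) →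
          (r : ℝ) = expected X Y θ n (fun a => (r₀ a : ℝ)) := by
  classical
  set R : ℕ := ∑ a ∈ Finset.range (2 * X.dim + 1), N' a ^ 2 with hR
  have hδ2 : 0 < δ ^ 2 := by positivity
  obtain ⟨m, w, h1, h2, -, h4⟩ := exists_max (W := CMVariety K × ℕ)
    (fun w => w.1.SizeLe C ∧ ∃ (B : HeightOneSpectrum (𝓞 K) → ℂ[X])
      (A : ℕ → HeightOneSpectrum (𝓞 K) → ℂ[X]), IsProduct X w.1.toVariety w.2 B ∧
      (∀ a ≤ 2 * X.dim, IsEulerSystem X.eqs X.dim a (X.betti a) (A a)) ∧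
      ∀ᶠ ε : ℝ in 𝓝[>] 0, δ ≤ |dfct X θ w.1 w.2 B A ε|)
    (fun w w' => w.1.Disj w'.1) (fun w w' h => h.symm) ⌊(R : ℝ) * C ^ 2 / δ ^ 2⌋₊ (by
      intro n σ hbad horth
      choose hsz B A hB hA hδB using hbad
      have h5 := product_count (κ := Fin n) hθ hB hA horth hsz hδ0.le hδB
      rw [Fintype.card_fin] at h5
      apply Nat.le_floor
      rwa [le_div_iff₀ hδ2])
  have hm : (m : ℝ) * δ ^ 2 ≤ R * C ^ 2 := by
    rw [← le_div_iff₀ hδ2]
    exact (Nat.cast_le.2 h1).trans (Nat.floor_le (by positivity))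
  -- the constituents of the maximal family
  have hcard : Fintype.card (Σ k : Fin m, Σ b : Fin (2 * (w k).1.dim + 1), Fin ((w k).1.r b)) ≤
      m * C := by
    rw [Fintype.card_sigma]
    have h5 : ∀ k : Fin m, Fintype.card (Σ b : Fin (2 * (w k).1.dim + 1), Fin ((w k).1.r b)) ≤
        C := by
      intro k
      rw [Fintype.card_sigma]
      simp only [Fintype.card_fin]
      rw [Fin.sum_univ_eq_sum_range (fun b => (w k).1.r b)]
      exact (h2 k).1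
    calc ∑ k : Fin m, Fintype.card (Σ b : Fin (2 * (w k).1.dim + 1), Fin ((w k).1.r b)) ≤
        ∑ _k : Fin m, C := Finset.sum_le_sum fun k _ => h5 k
      _ = m * C := by rw [Finset.sum_const, Finset.card_univ, Fintype.card_fin, smul_eq_mul]
  have hcard' : ((Fintype.card (Σ k : Fin m, Σ b : Fin (2 * (w k).1.dim + 1),
      Fin ((w k).1.r b)) : ℕ) : ℝ) * δ ^ 2 ≤ (C : ℝ) ^ 3 * R := by
    have h5 : ((Fintype.card (Σ k : Fin m, Σ b : Fin (2 * (w k).1.dim + 1),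
      Fin ((w k).1.r b)) : ℕ) : ℝ) ≤ m * C := by exact_mod_cast hcard
    calc _ ≤ (m * C : ℝ) * δ ^ 2 := mul_le_mul_of_nonneg_right h5 hδ2.le
      _ = C * (m * δ ^ 2) := by ring
      _ ≤ C * (R * C ^ 2) := mul_le_mul_of_nonneg_left hm (Nat.cast_nonneg _)
      _ = (C : ℝ) ^ 3 * R := by ring
  obtain ⟨σ, hσ1, hσ2⟩ := reindex
    (fun i : (Σ k : Fin m, Σ b : Fin (2 * (w k).1.dim + 1), Fin ((w k).1.r b)) =>
      (w i.1).1.π i.2.1 i.2.2)
  refine ⟨_, σ, hcard', fun k => ?_, ?_⟩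
  · obtain ⟨j, hj⟩ := hσ1 k
    rw [hj]
    exact ⟨CMVariety.irr _ _ _, CMVariety.nontriv _ _ _⟩
  intro Y hY hav n B A hB hA
  have hdisj : ∀ k, Y.Disj (w k).1 := by
    intro k b hb j b' hb' j'
    obtain ⟨i, hi⟩ := hσ2 ⟨k, ⟨⟨b', by omega⟩, j'⟩⟩
    have h5 := hav b hb j i
    rw [hi] at h5
    exact h5
  have h5 : ∃ᶠ ε : ℝ in 𝓝[>] 0, |dfct X θ Y n B A ε| < δ := by
    by_contra hcon
    rw [Filter.not_frequently] at hcon
    exact h4 (Y, n) hdisj ⟨hY, B, A, hB, hA, hcon.mono fun ε h => not_lt.1 h⟩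
  refine ⟨h5, fun r r₀ hr hr₀ => ?_⟩
  have h6 := (dfct_tendsto (θ := θ) (Y := Y) hr hr₀).abs
  have h7 : |(r : ℝ) - expected X Y θ n (fun a => (r₀ a : ℝ))| ≤ δ := by
    by_contra hcon
    push Not at hcon
    exact h5 ((h6.eventually (lt_mem_nhds hcon)).mono fun ε h3 => not_lt.2 (le_of_lt h3))
  obtain ⟨t, ht⟩ := expected_int X Y θ n r₀
  rw [ht] at h7 ⊢
  have h8 : |(r : ℝ) - t| < 1 := h7.trans_lt hδ1
  have h9 : |r - t| < 1 := by exact_mod_cast h8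
  have h10 := Int.abs_lt_one_iff.1 h9
  have h11 : r = t := by omega
  rw [h11]

/-- the correlation with a representation whose order is the expected one -/
theorem corr_zero {X : Variety K} {i : ℕ} (hi : i ≤ 2 * X.dim) {θ : WRep K} {N' : ℕ}
    (hθ : IsPart X i θ N') {ρ : WRep K} {B : HeightOneSpectrum (𝓞 K) → ℂ[X]}
    (hB : IsTensor X i ρ B) (hr : HasOrder i B (-ρ.inner θ)) :
    (fun ε => EH K ε (fun x => cut X i θ N' x * (ρ.tH x).re)) =o[𝓝[>] 0] LL := by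
  have h1 := tendsto_size hr
  rw [Int.cast_neg, neg_neg] at h1
  have h2 : (fun ε => (size i B ε - ρ.inner θ) * LL ε) =o[𝓝[>] 0] LL := by
    have h3 : (fun ε => size i B ε - ρ.inner θ) =o[𝓝[>] 0] (fun _ => (1 : ℝ)) := by
      rw [Asymptotics.isLittleO_one_iff]
      have h4 := h1.sub_const ((ρ.inner θ : ℤ) : ℝ)
      rwa [sub_self] at h4
    have h5 := h3.mul_isBigO (Asymptotics.isBigO_refl LL (𝓝[>] 0))
    refine h5.congr_right fun ε => ?_
    rw [one_mul]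
  refine (h2.sub (defect hi hθ hB)).congr_left fun ε => ?_
  ring

/-- **All varieties of CM type, if the orders of the twisted L-functions exist.** -/
theorem product_all {X : Variety K} {θ : ℕ → WRep K} {N' : ℕ → ℕ}
    (hθ : ∀ a ≤ 2 * X.dim, IsPart X a (θ a) (N' a))
    (H : ∀ ρ : WRep K, ρ.IsIrr → ρ.inner (WRep.one K) = 0 → ∀ a ≤ 2 * X.dim,
      ∃ (B : HeightOneSpectrum (𝓞 K) → ℂ[X]) (r : ℤ), IsTensor X a ρ B ∧ HasOrder a B r) :
    ∃ (s : ℕ) (σ : Fin s → WRep K),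
      s ≤ ∑ a ∈ Finset.range (2 * X.dim + 1), N' a ^ 2 ∧
      (∀ k, (σ k).IsIrr ∧ (σ k).inner (WRep.one K) = 0) ∧
      ∀ Y : CMVariety K, Y.Avoids σ → ∀ (n : ℕ)
        (B : HeightOneSpectrum (𝓞 K) → ℂ[X]) (A : ℕ → HeightOneSpectrum (𝓞 K) → ℂ[X]),
        IsProduct X Y.toVariety n B →
        (∀ a ≤ 2 * X.dim, IsEulerSystem X.eqs X.dim a (X.betti a) (A a)) →
        Tendsto (fun ε => size n B ε - expected X Y θ n (fun a => size a (A a) ε)) (𝓝[>] 0)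
          (𝓝 0) ∧
        ∀ (r : ℤ) (r₀ : ℕ → ℤ), HasOrder n B (-r) →
          (∀ a ≤ 2 * X.dim, HasOrder a (A a) (-(r₀ a))) →
          (r : ℝ) = expected X Y θ n (fun a => (r₀ a : ℝ)) := by
  classical
  have hex : ∀ a : Fin (2 * X.dim + 1), ∃ (s : ℕ) (σ : Fin s → WRep K), s ≤ N' a ^ 2 ∧
      (∀ k, (σ k).IsIrr ∧ (σ k).inner (WRep.one K) = 0) ∧
      ∀ ρ : WRep K, ρ.IsIrr → ρ.inner (WRep.one K) = 0 → (∀ k, ρ.inner (σ k) = 0) →
        (fun ε => EH K ε (fun x => cut X a (θ a) (N' a) x * (ρ.tH x).re)) =o[𝓝[>] 0] LL := by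
    intro a
    have ha : (a : ℕ) ≤ 2 * X.dim := by omega
    obtain ⟨s, σ, h1, h2, -, h3⟩ := spectrum ha (hθ a ha) (fun ρ => ρ.inner (WRep.one K) = 0)
      (dd_pos (N' a ^ 2)) (dd_lt_one (N' a ^ 2))
    refine ⟨s, σ, le_of_dd (by push_cast; exact h1), h2, fun ρ hρ hρ1 hav => ?_⟩
    obtain ⟨B, r, hB, hr⟩ := H ρ hρ hρ1 a ha
    have e := (h3 ρ hρ hρ1 hav B hB).2 r hr
    rw [e] at hr
    exact corr_zero ha (hθ a ha) hB hr
  choose s σ h1 h2 h3 using hex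
  have hcard : Fintype.card (Σ a : Fin (2 * X.dim + 1), Fin (s a)) ≤
      ∑ a ∈ Finset.range (2 * X.dim + 1), N' a ^ 2 := by
    rw [Fintype.card_sigma]
    simp only [Fintype.card_fin]
    rw [← Fin.sum_univ_eq_sum_range (fun a => N' a ^ 2)]
    exact Finset.sum_le_sum fun a _ => h1 a
  obtain ⟨τ, hτ1, hτ2⟩ := reindex
    (fun i : (Σ a : Fin (2 * X.dim + 1), Fin (s a)) => σ i.1 i.2)
  refine ⟨_, τ, hcard, fun k => ?_, ?_⟩
  · obtain ⟨j, hj⟩ := hτ1 k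
    rw [hj]
    exact h2 _ _
  intro Y hav n B A hB hA
  have h4 := product_defect hB hθ hA
  have h5 : (fun ε => EH K ε (fun x => ∑ a : Fin (2 * X.dim + 1),
      cut X a (θ a) (N' a) x * (GG X Y n a x).re)) =o[𝓝[>] 0] LL := by
    have h6 := finset_isLittleO (Finset.univ : Finset (Fin (2 * X.dim + 1))) (fun a _ =>
      finset_isLittleO (TT X Y n a) (fun j hj => h3 a (Y.π (n - a) j) (Y.irr _ _) (Y.nontriv _ _)
        (fun k => by
          have h7 : n - (a : ℕ) ≤ 2 * Y.dim := by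
            unfold TT at hj
            split_ifs at hj with h2
            · exact h2.2
            · exact absurd hj (Finset.notMem_empty _)
          obtain ⟨i, hi⟩ := hτ2 ⟨a, k⟩
          have h8 := hav _ h7 j i
          rw [hi] at h8
          exact h8)))
    refine h6.congr' ?_ (EventuallyEq.refl _ _)
    filter_upwards [self_mem_nhdsWithin] with ε hε
    have hε' : (0 : ℝ) < ε := hε
    have b2 : ∀ (a : Fin (2 * X.dim + 1)) (j : Fin (Y.r (n - a))) (x : HX K),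
        |cut X a (θ a) (N' a) x * ((Y.π (n - a) j).tH x).re| ≤ N' a * (Y.π (n - a) j).bd :=
      fun a j x => by
        rw [abs_mul]
        exact mul_le_mul (abs_cut X a (θ a) (N' a) x)
          ((Complex.abs_re_le_norm _).trans (WRep.norm_tH_le _ x)) (abs_nonneg _)
          (Nat.cast_nonneg _)
    have e4 : (fun x : HX K => ∑ a : Fin (2 * X.dim + 1),
        cut X a (θ a) (N' a) x * (GG X Y n a x).re) =
        fun x => ∑ a : Fin (2 * X.dim + 1), ∑ j ∈ TT X Y n a,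
          cut X a (θ a) (N' a) x * ((Y.π (n - a) j).tH x).re := by
      funext x
      refine Finset.sum_congr rfl fun a _ => ?_
      unfold GG
      rw [Complex.re_sum, Finset.mul_sum]
      refine Finset.sum_congr rfl fun j _ => ?_
      rw [Complex.re_ofReal_mul, one_mul]
    rw [e4, EH_sum hε' Finset.univ (fun (a : Fin (2 * X.dim + 1)) x => ∑ j ∈ TT X Y n a,
          cut X a (θ a) (N' a) x * ((Y.π (n - a) j).tH x).re)
      (fun a => ∑ j ∈ TT X Y n a, N' a * (Y.π (n - a) j).bd)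
      (fun a _ x => (Finset.abs_sum_le_sum_abs _ _).trans
        (Finset.sum_le_sum fun j _ => b2 a j x))]
    refine Finset.sum_congr rfl fun a _ => ?_
    exact (EH_sum hε' (TT X Y n a)
      (fun j x => cut X a (θ a) (N' a) x * ((Y.π (n - a) j).tH x).re)
      (fun j => N' a * (Y.π (n - a) j).bd) (fun j _ x => b2 a j x)).symm
  have h6 : (fun ε => dfct X θ Y n B A ε * LL ε) =o[𝓝[>] 0] LL := by
    refine (h4.add h5).congr_left fun ε => ?_
    unfold dfct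
    ring
  have h7 : Tendsto (dfct X θ Y n B A) (𝓝[>] 0) (𝓝 0) := by
    refine h6.tendsto_div_nhds_zero.congr' ?_
    filter_upwards [LL_tendsto.eventually_gt_atTop 0] with ε h8
    exact mul_div_cancel_right₀ _ h8.ne'
  refine ⟨h7, fun r r₀ hr hr₀ => ?_⟩
  have h8 := tendsto_nhds_unique h7 (dfct_tendsto (θ := θ) (Y := Y) hr hr₀)
  linarith

end

end Pool.Agent.N172.HS
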