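import Pool.Agent.N172.HS.Lat
import Pool.Agent.N172.HS.Defs

/-!
# Pointwise estimates
-/

set_option autoImplicit false

namespace Pool.Agent.N172.HS

open NumberField Module

/-- products of numbers of norm at most one -/
lemma norm_prod_sub_le {ι F : Type} [NormedField F] (s : Finset ι) (a b : ι → F)
    (ha : ∀ i ∈ s, ‖a i‖ ≤ 1) (hb : ∀ i ∈ s, ‖b i‖ ≤ 1) :
    ‖∏ i ∈ s, a i - ∏ i ∈ s, b i‖ ≤ ∑ i ∈ s, ‖a i - b i‖ := by
  classical
  induction s using Finset.induction_on with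
  | empty => simp
  | insert i s hi ih =>
    rw [Finset.prod_insert hi, Finset.prod_insert hi, Finset.sum_insert hi]
    have h1 := ih (fun j hj => ha j (Finset.mem_insert_of_mem hj))
      (fun j hj => hb j (Finset.mem_insert_of_mem hj))
    have h2 : ‖∏ i ∈ s, a i‖ ≤ 1 := by
      rw [norm_prod]
      exact Finset.prod_le_one (fun _ _ => norm_nonneg _)
        fun j hj => ha j (Finset.mem_insert_of_mem hj)
    have h3 : ‖b i‖ ≤ 1 := hb i (Finset.mem_insert_self _ _)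
    have e : a i * ∏ i ∈ s, a i - b i * ∏ i ∈ s, b i =
        (a i - b i) * ∏ i ∈ s, a i + b i * (∏ i ∈ s, a i - ∏ i ∈ s, b i) := by ring
    rw [e]
    refine (norm_add_le _ _).trans ?_
    rw [norm_mul, norm_mul]
    have h4 := norm_nonneg (a i - b i)
    have h5 := norm_nonneg (∏ i ∈ s, a i - ∏ i ∈ s, b i)
    nlinarith

/-- integer powers of complex numbers of norm one -/
lemma norm_zpow_sub_le {z w : ℂ} (hz : ‖z‖ = 1) (hw : ‖w‖ = 1) (k : ℤ) :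
    ‖z ^ k - w ^ k‖ ≤ |(k : ℝ)| * ‖z - w‖ := by
  have hz0 : z ≠ 0 := by rintro rfl; simp at hz
  have hw0 : w ≠ 0 := by rintro rfl; simp at hw
  have key : ∀ n : ℕ, ‖z ^ n - w ^ n‖ ≤ n * ‖z - w‖ := by
    intro n
    have h := norm_prod_sub_le (Finset.range n) (fun _ => z) (fun _ => w)
      (fun _ _ => hz.le) (fun _ _ => hw.le)
    simpa using h
  obtain ⟨n, rfl | rfl⟩ := k.eq_nat_or_neg
  · rw [zpow_natCast, zpow_natCast]
    simpa using key n
  · rw [zpow_neg, zpow_neg, zpow_natCast, zpow_natCast]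
    have e : (z ^ n)⁻¹ - (w ^ n)⁻¹ = (w ^ n - z ^ n) * ((z ^ n)⁻¹ * (w ^ n)⁻¹) := by
      have h1 := pow_ne_zero n hz0
      have h2 := pow_ne_zero n hw0
      field_simp
    rw [e, norm_mul, norm_mul, norm_inv, norm_inv, norm_pow, norm_pow, hz, hw, one_pow, inv_one,
      mul_one, mul_one, norm_sub_rev]
    simpa using key n

lemma log_close {a b δ : ℝ} (hb : 0 < b) (hδ : 0 ≤ δ) (hδ' : δ ≤ 1 / 2) (h : |a - b| ≤ δ * b) :
    0 < a ∧ |Real.log a - Real.log b| ≤ 2 * δ := by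
  have h1 := abs_le.1 h
  have ha : 0 < a := by nlinarith [h1.1]
  refine ⟨ha, ?_⟩
  have hr : Real.log a - Real.log b = Real.log (a / b) := (Real.log_div ha.ne' hb.ne').symm
  have hr2 : a / b ≤ 1 + δ := by rw [div_le_iff₀ hb]; nlinarith [h1.2]
  have hr3 : 1 - δ ≤ a / b := by rw [le_div_iff₀ hb]; nlinarith [h1.1]
  have hpos : 0 < a / b := div_pos ha hb
  rw [hr, abs_le]
  constructor
  · have h2 := Real.one_sub_inv_le_log_of_pos hpos
    have h3 : (a / b)⁻¹ ≤ (1 - δ)⁻¹ := inv_anti₀ (by linarith) hr3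
    have h4 : (1 - δ)⁻¹ ≤ 1 + 2 * δ := by
      rw [inv_le_iff_one_le_mul₀ (by linarith)]
      nlinarith
    linarith
  · have h2 := Real.log_le_sub_one_of_pos hpos
    linarith

lemma phase_close {z w : ℂ} {δ : ℝ} (hw : w ≠ 0) (hz : z ≠ 0) (h : ‖z - w‖ ≤ δ * ‖w‖) :
    ‖z / (‖z‖ : ℂ) - w / (‖w‖ : ℂ)‖ ≤ 2 * δ := by
  have hw' : 0 < ‖w‖ := norm_pos_iff.2 hw
  have hz' : 0 < ‖z‖ := norm_pos_iff.2 hz
  have hwc : (‖w‖ : ℂ) ≠ 0 := by exact_mod_cast hw'.ne'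
  have hzc : (‖z‖ : ℂ) ≠ 0 := by exact_mod_cast hz'.ne'
  have e : z / (‖z‖ : ℂ) - w / (‖w‖ : ℂ) =
      (z - w) / (‖w‖ : ℂ) + (z / (‖z‖ : ℂ)) * (((‖w‖ - ‖z‖ : ℝ) : ℂ) / (‖w‖ : ℂ)) := by
    push_cast
    field_simp
    ring
  rw [e]
  refine (norm_add_le _ _).trans ?_
  rw [norm_div, norm_mul, norm_div, norm_div]
  simp only [Complex.norm_real, Real.norm_eq_abs, abs_norm]
  rw [div_self hz'.ne', one_mul]
  have h1 : ‖z - w‖ / ‖w‖ ≤ δ := by rw [div_le_iff₀ hw']; exact h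
  have h2 : |‖w‖ - ‖z‖| / ‖w‖ ≤ δ := by
    rw [div_le_iff₀ hw']
    refine le_trans ?_ h
    rw [norm_sub_rev]
    exact abs_norm_sub_norm_le _ _
  linarith

section field

variable {K : Type} [Field K] [NumberField K]

/-- `x` is close to `y` at all the places, relatively -/
def Close (δ : ℝ) (x y : K) : Prop := ∀ w : InfinitePlace K, w (x - y) ≤ δ * w y

lemma Close.log {δ : ℝ} {x y : K} (h : Close δ x y) (hy : y ≠ 0) (hδ : 0 ≤ δ) (hδ' : δ ≤ 1 / 2)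
    (w : InfinitePlace K) : |Real.log (w x) - Real.log (w y)| ≤ 2 * δ := by
  have hw : 0 < w y := (InfinitePlace.pos_iff).2 hy
  refine (log_close hw hδ hδ' ?_).2
  refine le_trans ?_ (h w)
  rw [← InfinitePlace.norm_embedding_eq, ← InfinitePlace.norm_embedding_eq,
    ← InfinitePlace.norm_embedding_eq, map_sub]
  exact abs_norm_sub_norm_le _ _

lemma Close.emb {δ : ℝ} {x y : K} (h : Close δ x y) (σ : K →+* ℂ) :
    ‖σ x - σ y‖ ≤ δ * ‖σ y‖ := by
  have := h (InfinitePlace.mk σ)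
  rwa [InfinitePlace.apply, InfinitePlace.apply, map_sub] at this

/-- the norm is the product of the places -/
lemma log_Nm {x : K} (hx : x ≠ 0) :
    Real.log (Nm x) = ∑ w : InfinitePlace K, (w.mult : ℝ) * Real.log (w x) := by
  have h := InfinitePlace.prod_eq_abs_norm x
  unfold Nm
  have h2 : (|(Algebra.norm ℚ x : ℝ)| : ℝ) = ((|Algebra.norm ℚ x| : ℚ) : ℝ) := by push_cast; rfl
  rw [h2, ← h, Real.log_prod (fun w _ => pow_ne_zero _ ((map_ne_zero w).2 hx))]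
  simp

lemma sum_mult : ∑ w : InfinitePlace K, (w.mult : ℝ) = finrank ℚ K := by
  rw [← InfinitePlace.sum_mult_eq]
  push_cast
  rfl

lemma finrank_pos' : (0 : ℝ) < finrank ℚ K := by exact_mod_cast Module.finrank_pos

lemma Close.logN {δ : ℝ} {x y : K} (h : Close δ x y) (hx : x ≠ 0) (hy : y ≠ 0) (hδ : 0 ≤ δ)
    (hδ' : δ ≤ 1 / 2) : |Real.log (Nm x) - Real.log (Nm y)| ≤ finrank ℚ K * (2 * δ) := by
  rw [log_Nm hx, log_Nm hy, ← Finset.sum_sub_distrib, ← sum_mult, Finset.sum_mul]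
  refine (Finset.abs_sum_le_sum_abs _ _).trans (Finset.sum_le_sum fun w _ => ?_)
  rw [← mul_sub, abs_mul, Nat.abs_cast]
  exact mul_le_mul_of_nonneg_left (h.log hy hδ hδ' w) (Nat.cast_nonneg _)

lemma Close.Lg {δ : ℝ} {x y : K} (h : Close δ x y) (hx : x ≠ 0) (hy : y ≠ 0) (hδ : 0 ≤ δ)
    (hδ' : δ ≤ 1 / 2) (w) : ‖(Lg x - Lg y) w‖ ≤ 8 * δ := by
  have h1 := h.log hy hδ hδ' w.1
  have h2 := h.logN hx hy hδ hδ'
  have hn := finrank_pos' (K := K)
  have e : (HS.Lg x - HS.Lg y) w = (w.1.mult : ℝ) * ((Real.log (w.1 x) - Real.log (w.1 y)) -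
      (Real.log (Nm x) - Real.log (Nm y)) / finrank ℚ K) := by
    rw [Pi.sub_apply]
    unfold HS.Lg
    ring
  rw [e, Real.norm_eq_abs, abs_mul, Nat.abs_cast]
  have h3 : |(Real.log (Nm x) - Real.log (Nm y)) / finrank ℚ K| ≤ 2 * δ := by
    rw [abs_div, abs_of_pos hn, div_le_iff₀ hn]
    linarith
  have h4 : |(Real.log (w.1 x) - Real.log (w.1 y)) - (Real.log (Nm x) - Real.log (Nm y)) /
      finrank ℚ K| ≤ 4 * δ := by
    refine (abs_sub _ _).trans ?_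
    linarith
  have h5 : (w.1.mult : ℝ) ≤ 2 := by
    have : w.1.mult ≤ 2 := by
      unfold InfinitePlace.mult
      split_ifs <;> norm_num
    exact_mod_cast this
  have h6 : (0 : ℝ) ≤ w.1.mult := Nat.cast_nonneg _
  have h7 := abs_nonneg ((Real.log (w.1 x) - Real.log (w.1 y)) -
    (Real.log (Nm x) - Real.log (Nm y)) / finrank ℚ K)
  nlinarith

lemma exists_phi_close (K : Type) [Field K] [NumberField K] : ∃ C : ℝ, 0 ≤ C ∧ ∀ (x y : K) (δ : ℝ),
    Close δ x y → x ≠ 0 → y ≠ 0 → 0 ≤ δ → δ ≤ 1 / 2 → |phi x - phi y| ≤ C * δ := by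
  classical
  let L : Fin (Units.rank K) → (Units.dirichletUnitTheorem.logSpace K →L[ℝ] ℝ) := fun i =>
    LinearMap.toContinuousLinearMap ((bas K).coord i)
  refine ⟨∑ i, ‖L i‖ * 8, by positivity, fun x y δ h hx hy hδ hδ' => ?_⟩
  have h1 := norm_prod_sub_le (F := ℝ) Finset.univ (fun i => tent ((bas K).repr (Lg x) i))
    (fun i => tent ((bas K).repr (Lg y) i))
    (fun i _ => by rw [Real.norm_eq_abs, abs_of_nonneg (tent_nonneg _)]; exact tent_le_one _)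
    (fun i _ => by rw [Real.norm_eq_abs, abs_of_nonneg (tent_nonneg _)]; exact tent_le_one _)
  have h2 : |phi x - phi y| ≤ _ := h1
  refine h2.trans ?_
  rw [Finset.sum_mul]
  refine Finset.sum_le_sum fun i _ => ?_
  refine (abs_tent_sub_le _ _).trans ?_
  have e : (bas K).repr (Lg x) i - (bas K).repr (Lg y) i = L i (Lg x - Lg y) := by
    rw [map_sub]
    rfl
  rw [e, ← Real.norm_eq_abs]
  refine ((L i).le_opNorm _).trans ?_
  rw [mul_assoc]
  refine mul_le_mul_of_nonneg_left ?_ (norm_nonneg _)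
  rw [pi_norm_le_iff_of_nonneg (by positivity)]
  exact h.Lg hx hy hδ hδ'

lemma norm_phase {z : ℂ} (hz : z ≠ 0) : ‖z / (‖z‖ : ℂ)‖ = 1 := by
  rw [norm_div, Complex.norm_real, norm_norm, div_self (norm_ne_zero_iff.2 hz)]

lemma norm_arch_factor {k : ℤ} {t : ℝ} {z : ℂ} (hz : z ≠ 0) :
    ‖(z / (‖z‖ : ℂ)) ^ k * Complex.exp ((t * Real.log ‖z‖ : ℝ) * Complex.I)‖ = 1 := by
  rw [norm_mul, norm_zpow, norm_phase hz, one_zpow, one_mul, Complex.norm_exp_ofReal_mul_I]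

lemma norm_arch {k : (K →+* ℂ) → ℤ} {t : (K →+* ℂ) → ℝ} {x : K} (hx : x ≠ 0) :
    ‖arch k t x‖ = 1 := by
  unfold arch
  rw [norm_prod]
  exact Finset.prod_eq_one fun σ _ => norm_arch_factor ((map_ne_zero σ).2 hx)

lemma norm_exp_sub_le (a b : ℝ) : ‖Complex.exp (a * Complex.I) - Complex.exp (b * Complex.I)‖ ≤
    |a - b| := by
  have e : Complex.exp (a * Complex.I) - Complex.exp (b * Complex.I) =
      Complex.exp (b * Complex.I) * (Complex.exp (Complex.I * ((a - b : ℝ) : ℂ)) - 1) := by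
    rw [mul_sub, ← Complex.exp_add, mul_one]
    congr 2
    push_cast
    ring
  rw [e, norm_mul, Complex.norm_exp_ofReal_mul_I, one_mul]
  exact Real.norm_exp_I_mul_ofReal_sub_one_le

lemma arch_close (k : (K →+* ℂ) → ℤ) (t : (K →+* ℂ) → ℝ) {x y : K} {δ : ℝ} (h : Close δ x y)
    (hx : x ≠ 0) (hy : y ≠ 0) (hδ : 0 ≤ δ) (hδ' : δ ≤ 1 / 2) :
    ‖arch k t x - arch k t y‖ ≤ (∑ σ, (|(k σ : ℝ)| + |t σ|)) * (2 * δ) := by
  unfold arch
  refine (norm_prod_sub_le _ _ _ (fun σ _ => (norm_arch_factor ((map_ne_zero σ).2 hx)).le)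
    (fun σ _ => (norm_arch_factor ((map_ne_zero σ).2 hy)).le)).trans ?_
  rw [Finset.sum_mul]
  refine Finset.sum_le_sum fun σ _ => ?_
  have hx' : σ x ≠ 0 := (map_ne_zero σ).2 hx
  have hy' : σ y ≠ 0 := (map_ne_zero σ).2 hy
  set a := (σ x / (‖σ x‖ : ℂ)) ^ k σ
  set b := (σ y / (‖σ y‖ : ℂ)) ^ k σ
  set c := Complex.exp ((t σ * Real.log ‖σ x‖ : ℝ) * Complex.I)
  set d := Complex.exp ((t σ * Real.log ‖σ y‖ : ℝ) * Complex.I)
  have h1 : ‖a - b‖ ≤ |(k σ : ℝ)| * (2 * δ) :=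
    (norm_zpow_sub_le (norm_phase hx') (norm_phase hy') _).trans
      (mul_le_mul_of_nonneg_left (phase_close hy' hx' (h.emb σ)) (abs_nonneg _))
  have h2 : ‖c - d‖ ≤ |t σ| * (2 * δ) := by
    refine (norm_exp_sub_le _ _).trans ?_
    rw [← mul_sub, abs_mul]
    exact mul_le_mul_of_nonneg_left (h.log hy hδ hδ' (InfinitePlace.mk σ)) (abs_nonneg _)
  have h3 : ‖c‖ = 1 := Complex.norm_exp_ofReal_mul_I _
  have h4 : ‖b‖ = 1 := by
    show ‖(σ y / (‖σ y‖ : ℂ)) ^ k σ‖ = 1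
    rw [norm_zpow, norm_phase hy', one_zpow]
  have e : a * c - b * d = (a - b) * c + b * (c - d) := by ring
  rw [e]
  refine (norm_add_le _ _).trans ?_
  rw [norm_mul, norm_mul, h3, h4, mul_one, one_mul]
  linarith

/-- the absolute norm to the power `-s` -/
noncomputable def Ns (s : ℂ) (x : K) : ℂ := Complex.exp (-s * Real.log (Nm x))

lemma norm_Ns (s : ℂ) (x : K) : ‖Ns s x‖ = Real.exp (-s.re * Real.log (Nm x)) := by
  unfold Ns
  rw [Complex.norm_exp]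
  simp

lemma Ns_close {s : ℂ} {B : ℝ} (hs : ‖s‖ ≤ B) {x y : K} {δ : ℝ} (h : Close δ x y) (hx : x ≠ 0)
    (hy : y ≠ 0) (hδ : 0 ≤ δ) (hδ' : δ ≤ 1 / 2) (hδB : B * (finrank ℚ K * (2 * δ)) ≤ 1) :
    ‖Ns s x - Ns s y‖ ≤ ‖Ns s y‖ * (2 * (B * (finrank ℚ K * (2 * δ)))) ∧
      ‖Ns s x‖ ≤ ‖Ns s y‖ * 3 := by
  have h1 := h.logN hx hy hδ hδ'
  set z : ℂ := -s * ((Real.log (Nm x) - Real.log (Nm y) : ℝ) : ℂ) with hz
  have hzn : ‖z‖ ≤ B * (finrank ℚ K * (2 * δ)) := by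
    rw [hz, norm_mul, norm_neg, Complex.norm_real, Real.norm_eq_abs]
    exact mul_le_mul hs h1 (abs_nonneg _) ((norm_nonneg s).trans hs)
  have e : Ns s x = Ns s y * Complex.exp z := by
    unfold Ns
    rw [← Complex.exp_add, hz]
    congr 1
    push_cast
    ring
  have h2 := Complex.norm_exp_sub_one_le (hzn.trans hδB)
  constructor
  · have e2 : Ns s x - Ns s y = Ns s y * (Complex.exp z - 1) := by rw [e]; ring
    rw [e2, norm_mul]
    refine mul_le_mul_of_nonneg_left ?_ (norm_nonneg _)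
    linarith
  · rw [e, norm_mul]
    refine mul_le_mul_of_nonneg_left ?_ (norm_nonneg _)
    have h3 : Complex.exp z = (Complex.exp z - 1) + 1 := by ring
    rw [h3]
    refine (norm_add_le _ _).trans ?_
    rw [norm_one]
    linarith [hzn.trans hδB]

/-- the summand -/
noncomputable def hh (k : (K →+* ℂ) → ℤ) (t : (K →+* ℂ) → ℝ) (s : ℂ) (x : K) : ℂ :=
  (phi x : ℂ) * arch k t x * Ns s x

theorem hh_close (k : (K →+* ℂ) → ℤ) (t : (K →+* ℂ) → ℝ) (B : ℝ) (hB : 0 ≤ B) :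
    ∃ C δ₀ : ℝ, 0 ≤ C ∧ 0 < δ₀ ∧ δ₀ ≤ 1 / 2 ∧ ∀ (s : ℂ) (x y : K) (δ : ℝ), ‖s‖ ≤ B → Close δ x y →
      x ≠ 0 → y ≠ 0 → 0 ≤ δ → δ ≤ δ₀ →
      ‖hh k t s x - hh k t s y‖ ≤ C * δ * Real.exp (-s.re * Real.log (Nm y)) := by
  obtain ⟨C₁, hC₁, h₁⟩ := exists_phi_close K
  have hn := finrank_pos' (K := K)
  set A : ℝ := ∑ σ : K →+* ℂ, (|(k σ : ℝ)| + |t σ|) with hA
  have hA0 : 0 ≤ A := Finset.sum_nonneg fun _ _ => by positivity
  refine ⟨C₁ * 3 + A * 2 * 3 + 2 * (B * (finrank ℚ K * 2)),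
    min (1 / 2) (1 / (2 * finrank ℚ K * (B + 1))), by positivity, by positivity, min_le_left _ _, ?_⟩
  intro s x y δ hs h hx hy hδ hδ₀
  have hδ' : δ ≤ 1 / 2 := hδ₀.trans (min_le_left _ _)
  have hδB : B * (finrank ℚ K * (2 * δ)) ≤ 1 := by
    have h2 : δ ≤ 1 / (2 * finrank ℚ K * (B + 1)) := hδ₀.trans (min_le_right _ _)
    rw [le_div_iff₀ (by positivity)] at h2
    have : 0 ≤ δ * (2 * finrank ℚ K) := by positivity
    nlinarith
  obtain ⟨h2, h3⟩ := Ns_close hs h hx hy hδ hδ' hδB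
  have h4 := h₁ x y δ h hx hy hδ hδ'
  have h5 := arch_close k t h hx hy hδ hδ'
  rw [← hA] at h5
  rw [← norm_Ns]
  set E := ‖Ns s y‖ with hE
  have hE0 : 0 ≤ E := norm_nonneg _
  have e : hh k t s x - hh k t s y = ((phi x - phi y : ℝ) : ℂ) * arch k t x * Ns s x +
      (phi y : ℂ) * (arch k t x - arch k t y) * Ns s x +
      (phi y : ℂ) * arch k t y * (Ns s x - Ns s y) := by
    unfold hh
    push_cast
    ring
  rw [e]
  refine (norm_add₃_le).trans ?_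
  simp only [norm_mul, Complex.norm_real, Real.norm_eq_abs]
  rw [norm_arch hx, norm_arch hy, abs_of_nonneg (phi_nonneg y)]
  have h6 := phi_le_one y
  have h7 := phi_nonneg y
  have h8 := norm_nonneg (Ns s x)
  have h9 := norm_nonneg (Ns s x - Ns s y)
  have h10 := norm_nonneg (arch k t x - arch k t y)
  have t1 : |phi x - phi y| * 1 * ‖Ns s x‖ ≤ (C₁ * 3) * δ * E := by
    rw [mul_one]
    calc |phi x - phi y| * ‖Ns s x‖ ≤ (C₁ * δ) * (E * 3) :=
          mul_le_mul h4 h3 h8 (by positivity)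
      _ = _ := by ring
  have t2 : phi y * ‖arch k t x - arch k t y‖ * ‖Ns s x‖ ≤ (A * 2 * 3) * δ * E := by
    calc phi y * ‖arch k t x - arch k t y‖ * ‖Ns s x‖ ≤ (1 * (A * (2 * δ))) * (E * 3) :=
          mul_le_mul (mul_le_mul h6 h5 h10 zero_le_one) h3 h8 (by positivity)
      _ = _ := by ring
  have t3 : phi y * 1 * ‖Ns s x - Ns s y‖ ≤ 2 * (B * (finrank ℚ K * 2)) * δ * E := by
    calc phi y * 1 * ‖Ns s x - Ns s y‖ ≤ 1 * (E * (2 * (B * (finrank ℚ K * (2 * δ))))) := by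
          rw [mul_one]
          exact mul_le_mul h6 h2 h9 zero_le_one
      _ = _ := by ring
  calc _ ≤ (C₁ * 3) * δ * E + (A * 2 * 3) * δ * E + 2 * (B * (finrank ℚ K * 2)) * δ * E :=
        add_le_add (add_le_add t1 t2) t3
    _ = _ := by ring

end field

end Pool.Agent.N172.HS
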