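import Pool.Agent.N172.HS.Gr

/-!
# Representations of the Weil group of a number field
-/

set_option autoImplicit false
set_option linter.unusedSectionVars false

namespace Pool.Agent.N172.HS

open NumberField Complex Filter Topology IsDedekindDomain Asymptotics
open Pool.Agent.W353.TP (HX LL bdd_isLittleO push res Fac iL iR)
open Pool.Agent.W353.NF (vx)
open Pool.Agent.H921R2.TatePole (hom_ext_of_ker)
open scoped ComplexConjugate TensorProduct

/-- A virtual representation `∑ c_j Ind χ_j` of the Weil group of the number field `K`, with integers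
`c_j` and unitary Hecke characters `χ_j` of finite extensions `F_j` of `K`; `Ind χ_j` is the
representation of the Weil group of `K` induced from the character `χ_j` of the Weil group of `F_j`.
By the theorem of Brauer every unitary representation of the Weil group of `K` is of this kind, for
example every Hecke character and every Artin representation. -/
structure WRep (K : Type) [Field K] [NumberField K] where
  r : ℕ
  F : Fin r → Type
  [fld : ∀ j, Field (F j)]
  [nf : ∀ j, NumberField (F j)]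
  [alg : ∀ j, Algebra K (F j)]
  𝔣 : ∀ j, Ideal (𝓞 (F j))
  k : ∀ j, (F j →+* ℂ) → ℤ
  t : ∀ j, (F j →+* ℂ) → ℝ
  χ : ∀ j, Ideal (𝓞 (F j)) →*₀ ℂ
  hecke : ∀ j, IsHecke (𝔣 j) (k j) (t j) (χ j)
  c : Fin r → ℤ

attribute [instance] WRep.fld WRep.nf WRep.alg

variable {K : Type} [Field K] [NumberField K]

/-- The primes `w` of `F` above the prime `v` of `K`, of degree one over `K`. -/
def above (F : Type) [Field F] [NumberField F] [Algebra K F] (v : HeightOneSpectrum (𝓞 K)) :
    Set (HeightOneSpectrum (𝓞 F)) :=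
  {w | w.asIdeal.comap (algebraMap (𝓞 K) (𝓞 F)) = v.asIdeal ∧
    Ideal.absNorm w.asIdeal = Ideal.absNorm v.asIdeal}

/-- The trace of the Frobenius at `v` on `Ind χ`: the sum of the `χ(w)` over the primes `w` of `F` above
`v` of degree one over `K`. -/
noncomputable def indTrace {F : Type} [Field F] [NumberField F] [Algebra K F]
    (χ : Ideal (𝓞 F) →*₀ ℂ) (v : HeightOneSpectrum (𝓞 K)) : ℂ :=
  ∑ᶠ w ∈ above F v, χ w.asIdeal

/-- The trace of the Frobenius at `v` on `∑ c_j Ind χ_j`. -/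
noncomputable def WRep.trace (ρ : WRep K) (v : HeightOneSpectrum (𝓞 K)) : ℂ :=
  ∑ j, (ρ.c j : ℂ) * indTrace (ρ.χ j) v

/-- The inner product of the characters, by the formula of Mackey: for `Ind χ` and `Ind χ'` it is the
number `mult χ χ'` of the composita of the fields `F` and `F'` over `K` on which `χ` and `χ'` agree.
For representations `ρ`, `σ` this is the dimension of `Hom(ρ, σ)`. -/
noncomputable def WRep.inner (ρ σ : WRep K) : ℤ :=
  ∑ j, ∑ l, ρ.c j * σ.c l * mult K (ρ.χ j) (σ.χ l)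

/-- the trace at the primes of degree one -/
noncomputable def WRep.tH (ρ : WRep K) (x : HX K) : ℂ := ∑ j, (ρ.c j : ℂ) * pc K (ρ.χ j) x

/-- the primes above a prime of degree one -/
theorem finsum_above {F : Type} [Field F] [NumberField F] [Algebra K F] (χ : Ideal (𝓞 F) →*₀ ℂ)
    (x : HX K) : indTrace χ (vx x) = pc K χ x := by
  classical
  unfold pc push indTrace
  set S : Set (HeightOneSpectrum (𝓞 F)) := above F (vx x) with hS
  have hfact : Fact (x.1 : ℕ).Prime := ⟨x.1.2⟩
  set T : Finset (𝓞 F →+* ZMod (x.1 : ℕ)) :=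
    Finset.univ.filter (fun ψ : 𝓞 F →+* ZMod (x.1 : ℕ) => res K ψ = x.2) with hT
  have himg : S = (fun ψ : 𝓞 F →+* ZMod (x.1 : ℕ) => vx (⟨x.1, ψ⟩ : HX F)) '' (T : Set _) := by
    ext w
    constructor
    · rintro ⟨h1, h2⟩
      have h2' : Ideal.absNorm w.asIdeal = (x.1 : ℕ) := h2.trans (absNorm_vx x)
      obtain ⟨y, hy⟩ := exists_vx w (by rw [h2']; exact x.1.2)
      have h3 : (y.1 : ℕ) = x.1 := by
        rw [← absNorm_vx y, hy, h2']
      obtain ⟨q, φ⟩ := y
      have h4 : q = x.1 := Subtype.ext h3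
      subst h4
      refine ⟨φ, ?_, hy⟩
      rw [hT, Finset.mem_coe, Finset.mem_filter]
      refine ⟨Finset.mem_univ _, ?_⟩
      apply hom_ext_of_ker
      have h5 : RingHom.ker (res K φ) = w.asIdeal.comap (algebraMap (𝓞 K) (𝓞 F)) := by
        unfold res
        rw [← RingHom.comap_ker, ← hy]
        rfl
      rw [h5, h1]
      rfl
    · rintro ⟨ψ, hψ, rfl⟩
      rw [hT, Finset.mem_coe, Finset.mem_filter] at hψ
      refine ⟨?_, ?_⟩
      · have h5 : (vx (⟨x.1, ψ⟩ : HX F)).asIdeal.comap (algebraMap (𝓞 K) (𝓞 F)) =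
            RingHom.ker (res K ψ) := by
          unfold res
          rw [← RingHom.comap_ker]
          rfl
        rw [h5, hψ.2]
        rfl
      · rw [absNorm_vx, absNorm_vx]
  have hinj : Set.InjOn (fun ψ : 𝓞 F →+* ZMod (x.1 : ℕ) => vx (⟨x.1, ψ⟩ : HX F)) (T : Set _) := by
    intro φ _ ψ _ h
    apply hom_ext_of_ker
    exact congrArg HeightOneSpectrum.asIdeal h
  rw [himg, finsum_mem_image hinj, finsum_mem_coe_finset]
  rfl

theorem WRep.trace_vx (ρ : WRep K) (x : HX K) : ρ.trace (vx x) = ρ.tH x := by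
  unfold WRep.trace WRep.tH
  refine Finset.sum_congr rfl fun j _ => ?_
  rw [finsum_above]

/-- a bound for the trace -/
noncomputable def WRep.bd (ρ : WRep K) : ℝ := ∑ j, |(ρ.c j : ℝ)| * Module.finrank ℚ (ρ.F j)

theorem WRep.norm_tH_le (ρ : WRep K) (x : HX K) : ‖ρ.tH x‖ ≤ ρ.bd := by
  unfold WRep.tH WRep.bd
  refine (norm_sum_le _ _).trans (Finset.sum_le_sum fun j _ => ?_)
  rw [norm_mul, Complex.norm_intCast]
  exact mul_le_mul_of_nonneg_left (norm_pc_le (ρ.hecke j) x) (abs_nonneg _)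

theorem WRep.bd_nonneg (ρ : WRep K) : 0 ≤ ρ.bd :=
  Finset.sum_nonneg fun _ _ => mul_nonneg (abs_nonneg _) (Nat.cast_nonneg _)

/-- **The inner product as a mean value.** -/
theorem WRep.gram (hQ : StNvq) (ρ σ : WRep K) :
    (fun ε => EH K ε (fun x => (ρ.tH x * conj (σ.tH x)).re) - ρ.inner σ * LL ε) =o[𝓝[>] 0] LL := by
  classical
  have h4 := finset_isLittleO (Finset.univ : Finset (Fin ρ.r)) (fun j _ =>
    finset_isLittleO (Finset.univ : Finset (Fin σ.r))
      (fun l _ => (HS.gram (K := K) hQ (ρ.hecke j) (σ.hecke l)).const_mul_left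
        ((ρ.c j : ℝ) * σ.c l)))
  refine h4.congr' ?_ (EventuallyEq.refl _ _)
  filter_upwards [self_mem_nhdsWithin] with ε hε
  have hε' : (0 : ℝ) < ε := hε
  have hb : ∀ j l x, |(ρ.c j : ℝ) * σ.c l * (pc K (ρ.χ j) x * conj (pc K (σ.χ l) x)).re| ≤
      |(ρ.c j : ℝ) * σ.c l| * (Module.finrank ℚ (ρ.F j) * Module.finrank ℚ (σ.F l)) := by
    intro j l x
    rw [abs_mul]
    refine mul_le_mul_of_nonneg_left ?_ (abs_nonneg _)
    refine (Complex.abs_re_le_norm _).trans ?_
    rw [norm_mul, Complex.norm_conj]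
    exact mul_le_mul (norm_pc_le (ρ.hecke j) x) (norm_pc_le (σ.hecke l) x) (norm_nonneg _)
      (Nat.cast_nonneg _)
  have e1 : (fun x => (ρ.tH x * conj (σ.tH x)).re) = fun x => ∑ j, ∑ l,
      (ρ.c j : ℝ) * σ.c l * (pc K (ρ.χ j) x * conj (pc K (σ.χ l) x)).re := by
    funext x
    unfold WRep.tH
    rw [map_sum, Finset.sum_mul_sum, Complex.re_sum]
    refine Finset.sum_congr rfl fun j _ => ?_
    rw [Complex.re_sum]
    refine Finset.sum_congr rfl fun l _ => ?_
    rw [map_mul, map_intCast]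
    have e2 : (ρ.c j : ℂ) * pc K (ρ.χ j) x * ((σ.c l : ℂ) * conj (pc K (σ.χ l) x)) =
        (((ρ.c j : ℝ) * σ.c l : ℝ) : ℂ) * (pc K (ρ.χ j) x * conj (pc K (σ.χ l) x)) := by
      push_cast
      ring
    rw [e2, Complex.re_ofReal_mul]
  rw [e1, EH_sum hε' Finset.univ (fun j x => ∑ l, (ρ.c j : ℝ) * σ.c l *
    (pc K (ρ.χ j) x * conj (pc K (σ.χ l) x)).re) (fun j => ∑ l, |(ρ.c j : ℝ) * σ.c l| *
      (Module.finrank ℚ (ρ.F j) * Module.finrank ℚ (σ.F l)))
    (fun j _ x => (Finset.abs_sum_le_sum_abs _ _).trans (Finset.sum_le_sum fun l _ => hb j l x))]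
  unfold WRep.inner
  push_cast
  rw [Finset.sum_mul, ← Finset.sum_sub_distrib]
  refine Finset.sum_congr rfl fun j _ => ?_
  rw [EH_sum hε' Finset.univ _ (fun l => |(ρ.c j : ℝ) * σ.c l| *
      (Module.finrank ℚ (ρ.F j) * Module.finrank ℚ (σ.F l))) (fun l _ x => hb j l x),
    Finset.sum_mul, ← Finset.sum_sub_distrib]
  refine Finset.sum_congr rfl fun l _ => ?_
  rw [EH_const_mul]
  ring

end Pool.Agent.N172.HS
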