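import Pool.Agent.N172.HS.Rep
import Pool.Agent.W353.EF.Defs
import Pool.Agent.W540.BE.Size
import Pool.Agent.W353.TP.CS

/-!
# The sizes of the L-functions of a variety twisted by representations of the Weil group
-/

set_option autoImplicit false
set_option linter.unusedSectionVars false

namespace Pool.Agent.N172.HS

open NumberField Complex Filter Topology IsDedekindDomain Asymptotics Polynomial
open Pool.Agent.W353.EF (IsFrobenius LFun size)
open Pool.Agent.W353.PV (Eig alp pick pick_spec tF tF_ker)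
open Pool.Agent.W353.L1 (tr tr_eq abs_tr_le)
open Pool.Agent.W353.TP (HX sysH LL LL_tendsto bdd_isLittleO push res card_hom_le corr_sq_le
  E_norm_sq final_ineq lamS_sub)
open Pool.Agent.W353.NF (vx)
open Pool.Agent.W540.BE (EP nm normSys two_le_nm sizeP local_factor)
open Pool.Agent.H341R2 (NormSys)
open scoped ComplexConjugate

section

variable {K : Type} [Field K] [NumberField K]

/-- **The size of an Euler product, with any number of factors.** -/
theorem size_gen {ι : Type} [Fintype ι] {i : ℕ} (B : HeightOneSpectrum (𝓞 K) → ℂ[X])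
    (t : HeightOneSpectrum (𝓞 K) → ℝ)
    (h : ∀ᶠ v in cofinite, ∃ δ : ι → ℂ, (∀ l, ‖δ l‖ = (nm K v : ℝ) ^ ((i : ℝ) / 2)) ∧
      t v = ((∑ l, δ l) * ((nm K v : ℕ) : ℂ) ^ (-((i : ℂ) / 2))).re ∧
      ∀ z : ℂ, (B v).eval z = ∏ l, (1 - δ l * z))
    (hB0 : ∀ v, (B v).eval (((nm K v : ℕ) : ℂ) ^ (-((i : ℂ) / 2 + 1))) ≠ 0)
    {D : ℝ} (ht : ∀ v, |t v| ≤ D) :
    (∀ᶠ ε : ℝ in 𝓝[>] 0, LFun B ((i : ℂ) / 2 + 1 + ε) ≠ 0) ∧
    ∃ C : ℝ, ∀ᶠ ε : ℝ in 𝓝[>] 0, |size i B ε * LL ε - EV K ε t| ≤ C := by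
  classical
  set M : ℕ := Fintype.card ι with hM
  set e : ι ≃ Fin M := Fintype.equivFin ι with he
  have hN : Pool.Agent.W540.BE.NormSys (nm K) := normSys
  set w : ℝ := (i : ℝ) / 2 with hw
  have hwc : (w : ℂ) = (i : ℂ) / 2 := by rw [hw]; push_cast; rfl
  set P : HeightOneSpectrum (𝓞 K) → (Fin M → ℂ) → Prop := fun v δ =>
    (∀ l, ‖δ l‖ = (nm K v : ℝ) ^ w) ∧
      t v = ((∑ l, δ l) * ((nm K v : ℕ) : ℂ) ^ (-(w : ℂ))).re ∧
      ∀ z : ℂ, (B v).eval z = ∏ l, (1 - δ l * z) with hP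
  set δ : HeightOneSpectrum (𝓞 K) → Fin M → ℂ := fun v => pick (P v) with hδ
  have hgood : ∀ᶠ v in cofinite, P v (δ v) := by
    filter_upwards [h] with v hv
    obtain ⟨δ', h1, h2, h3⟩ := hv
    refine pick_spec ⟨fun l => δ' (e.symm l), fun l => h1 _, ?_, fun z => ?_⟩
    · rw [h2, hwc, ← e.symm.sum_comp δ']
    · rw [h3, ← e.symm.prod_comp (fun l => 1 - δ' l * z)]
  have hfin : {v | ¬ P v (δ v)}.Finite := by rwa [Filter.eventually_cofinite] at hgood
  set a : HeightOneSpectrum (𝓞 K) → ℂ := fun v => if P v (δ v) then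
    (∑ l, δ v l) * ((nm K v : ℕ) : ℂ) ^ (-(w : ℂ)) else 0 with ha
  have hab : ∀ v, ‖a v‖ ≤ M := by
    intro v
    rw [ha]
    simp only
    split_ifs with hv
    · have h0 : (0 : ℝ) < nm K v := by
        have := two_le_nm v
        exact_mod_cast (by omega : 0 < nm K v)
      have h1 : ‖∑ l, δ v l‖ ≤ M * (nm K v : ℝ) ^ w := by
        refine (norm_sum_le _ _).trans ?_
        rw [Finset.sum_congr rfl fun j _ => hv.1 j, Finset.sum_const, Finset.card_univ,
          Fintype.card_fin, nsmul_eq_mul]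
      have h2 : ‖((nm K v : ℕ) : ℂ) ^ (-(w : ℂ))‖ = (nm K v : ℝ) ^ (-w) := by
        rw [Complex.norm_natCast_cpow_of_pos (by have := two_le_nm v; omega)]
        simp
      rw [norm_mul, h2]
      calc ‖∑ l, δ v l‖ * (nm K v : ℝ) ^ (-w) ≤ M * (nm K v : ℝ) ^ w * (nm K v : ℝ) ^ (-w) :=
            mul_le_mul_of_nonneg_right h1 (by positivity)
        _ = M := by rw [mul_assoc, ← Real.rpow_add h0, add_neg_cancel, Real.rpow_zero, mul_one]
    · rw [norm_zero]; positivity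
  have ha0 : ∀ v, ¬ P v (δ v) → a v = 0 := by
    intro v hv
    rw [ha]
    simp only
    rw [if_neg hv]
  have hGex : ∀ (ε : ℝ) (v : HeightOneSpectrum (𝓞 K)), ∃ G : ℂ, 0 < ε → P v (δ v) →
      cexp G = ((B v).eval (((nm K v : ℕ) : ℂ) ^ (-((i : ℂ) / 2 + 1 + ε))))⁻¹ ∧
      ‖G - a v * ((nm K v : ℝ) ^ (-(1 + ε)) : ℝ)‖ ≤ (M : ℝ) * (nm K v : ℝ) ^ (-2 : ℝ) := by
    intro ε v
    by_cases h : 0 < ε ∧ P v (δ v)
    · obtain ⟨G, hG1, hG2⟩ := local_factor w (nm K v) (two_le_nm v) (δ v) h.2.1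
        (1 : Module.End ℂ (Fin 1 → ℂ)) (m := 1) Nat.one_pos (pow_one 1) 0 ε h.1
      refine ⟨G, fun _ _ => ⟨?_, ?_⟩⟩
      · rw [hG1, h.2.2.2]
        congr 1
        refine Finset.prod_congr rfl fun j _ => ?_
        have e0 : (-((w : ℂ) + 1 + ((0 : ℝ) : ℂ) * I + ε)) = -((i : ℂ) / 2 + 1 + ε) := by
          rw [hwc]
          simp
        rw [e0]
        have e1 : (1 : Module.End ℂ (Fin 1 → ℂ)) - (δ v j *
            ((nm K v : ℕ) : ℂ) ^ (-((i : ℂ) / 2 + 1 + ε))) •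
              (1 : Module.End ℂ (Fin 1 → ℂ)) =
            (1 - δ v j * ((nm K v : ℕ) : ℂ) ^ (-((i : ℂ) / 2 + 1 + ε))) •
              (1 : Module.End ℂ (Fin 1 → ℂ)) := by
          refine LinearMap.ext fun x => ?_
          rw [LinearMap.sub_apply, LinearMap.smul_apply, LinearMap.smul_apply,
            Module.End.one_apply]
          exact (by rw [sub_smul, one_smul] : x - (δ v j *
            ((nm K v : ℕ) : ℂ) ^ (-((i : ℂ) / 2 + 1 + ε))) • x =
            ((1 : ℂ) - δ v j * ((nm K v : ℕ) : ℂ) ^ (-((i : ℂ) / 2 + 1 + ε))) • x)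
        rw [e1, LinearMap.det_smul]
        simp
      · have h2 : a v = (∑ j, δ v j) * ((nm K v : ℕ) : ℂ) ^ (-(w : ℂ)) *
            (((nm K v : ℕ) : ℂ) ^ (-(((0 : ℝ) : ℂ) * I)) *
              LinearMap.trace ℂ _ (1 : Module.End ℂ (Fin 1 → ℂ))) := by
          rw [ha]
          simp only
          rw [if_pos h.2, LinearMap.trace_one]
          simp
        rw [h2]
        simpa using hG2
    · exact ⟨0, fun h1 h2 => absurd ⟨h1, h2⟩ h⟩
  choose G hG using hGex
  obtain ⟨C', hC'⟩ := sizeP hN (Good := fun v => P v (δ v)) hfin B ((i : ℂ) / 2 + 1)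
    (fun v _ => hB0 v) a hab ha0 G (C := (M : ℝ))
    (fun ε hε v hv => (hG ε v hε hv).2)
    (L := fun ε => LFun B ((i : ℂ) / 2 + 1 + ε))
    (by
      intro ε hε
      unfold LFun
      refine tprod_congr fun v => ?_
      split_ifs with hv
      · rw [(hG ε v hε hv).1]
        rfl
      · rfl)
  refine ⟨hC'.mono fun ε h => h.1, ?_⟩
  set r : HeightOneSpectrum (𝓞 K) → ℝ := fun v => t v - (a v).re with hr
  have hr0 : ∀ v, v ∉ hfin.toFinset → r v = 0 := by
    intro v hv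
    rw [Set.Finite.mem_toFinset, Set.mem_ofPred_eq, not_not] at hv
    rw [hr, ha]
    simp only
    rw [if_pos hv, hv.2.1, sub_self]
  have har : ∀ v, |(a v).re| ≤ M := fun v => (Complex.abs_re_le_norm _).trans (hab v)
  have hrb : ∀ v, |r v| ≤ D + M := by
    intro v
    rw [hr]
    simp only
    exact (abs_sub _ _).trans (add_le_add (ht v) (har v))
  refine ⟨C' + hfin.toFinset.card * (D + M), ?_⟩
  filter_upwards [hC', self_mem_nhdsWithin, LL_tendsto.eventually_gt_atTop 0] with ε h1 h2 h3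
  have hε : (0 : ℝ) < ε := h2
  have e1 : size i B ε * LL ε = Real.log ‖LFun B ((i : ℂ) / 2 + 1 + ε)‖ := by
    unfold size LL
    unfold LL at h3
    exact div_mul_cancel₀ _ h3.ne'
  have e2 : EV K ε t = EP (nm K) ε (fun v => (a v).re) + EV K ε r := by
    have e3 : EV K ε t = EP (nm K) ε t := rfl
    have e4 : EV K ε r = EP (nm K) ε r := rfl
    rw [e3, e4, ← Pool.Agent.W540.BE.EP_add hN hε har hrb]
    congr 1
    funext v
    rw [hr]
    ring
  have h4 := EV_finsupp hfin.toFinset hr0 hrb hε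
  rw [e1, e2]
  have e6 : Real.log ‖LFun B ((i : ℂ) / 2 + 1 + ε)‖ -
      (EP (nm K) ε (fun v => (a v).re) + EV K ε r) =
      -(EP (nm K) ε (fun v => (a v).re) - Real.log ‖LFun B ((i : ℂ) / 2 + 1 + ε)‖) +
      -(EV K ε r) := by ring
  rw [e6]
  refine (abs_add_le _ _).trans (add_le_add ?_ ?_)
  · rw [abs_neg]
    exact h1.2
  · rw [abs_neg]
    exact h4

/-- from the primes to the primes of degree one: only the values at almost all primes and at the
primes of degree one matter -/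
theorem size_H {ι : Type} [Fintype ι] {i : ℕ} (B : HeightOneSpectrum (𝓞 K) → ℂ[X])
    (t : HeightOneSpectrum (𝓞 K) → ℝ)
    (h : ∀ᶠ v in cofinite, ∃ δ : ι → ℂ, (∀ l, ‖δ l‖ = (nm K v : ℝ) ^ ((i : ℝ) / 2)) ∧
      t v = ((∑ l, δ l) * ((nm K v : ℕ) : ℂ) ^ (-((i : ℂ) / 2))).re ∧
      ∀ z : ℂ, (B v).eval z = ∏ l, (1 - δ l * z))
    (hB0 : ∀ v, (B v).eval (((nm K v : ℕ) : ℂ) ^ (-((i : ℂ) / 2 + 1))) ≠ 0)
    {D : ℝ} (ht : ∀ x : HX K, |t (vx x)| ≤ D) :
    (∀ᶠ ε : ℝ in 𝓝[>] 0, LFun B ((i : ℂ) / 2 + 1 + ε) ≠ 0) ∧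
    (fun ε => size i B ε * LL ε - EH K ε (fun x => t (vx x))) =o[𝓝[>] 0] LL := by
  classical
  set D' : ℝ := max D (Fintype.card ι) with hD'
  have hD'0 : 0 ≤ D' := (Nat.cast_nonneg (Fintype.card ι)).trans (le_max_right _ _)
  set t' : HeightOneSpectrum (𝓞 K) → ℝ := fun v => if |t v| ≤ D' then t v else 0 with ht'
  have hb : ∀ v, |t' v| ≤ D' := by
    intro v
    rw [ht']
    simp only
    split_ifs with h1
    · exact h1
    · rw [abs_zero]; exact hD'0
  have h0 : ∀ x : HX K, t' (vx x) = t (vx x) := by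
    intro x
    rw [ht']
    simp only
    rw [if_pos ((ht x).trans (le_max_left _ _))]
  obtain ⟨h1, C, h2⟩ := size_gen (ι := ι) B t' (by
    filter_upwards [h] with v hv
    obtain ⟨δ, h1, h2, h3⟩ := hv
    refine ⟨δ, h1, ?_, h3⟩
    rw [← h2, ht']
    simp only
    rw [if_pos]
    refine le_trans ?_ (le_max_right _ _)
    rw [h2]
    have h0 : (0 : ℝ) < nm K v := by
      have := two_le_nm v
      exact_mod_cast (by omega : 0 < nm K v)
    refine (Complex.abs_re_le_norm _).trans ?_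
    have h4 : ‖∑ l, δ l‖ ≤ Fintype.card ι * (nm K v : ℝ) ^ ((i : ℝ) / 2) := by
      refine (norm_sum_le _ _).trans ?_
      rw [Finset.sum_congr rfl fun j _ => h1 j, Finset.sum_const, Finset.card_univ, nsmul_eq_mul]
    have h5 : ‖((nm K v : ℕ) : ℂ) ^ (-((i : ℂ) / 2))‖ = (nm K v : ℝ) ^ (-((i : ℝ) / 2)) := by
      rw [Complex.norm_natCast_cpow_of_pos (by have := two_le_nm v; omega)]
      congr 1
      simp
    rw [norm_mul, h5]
    calc ‖∑ l, δ l‖ * (nm K v : ℝ) ^ (-((i : ℝ) / 2)) ≤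
        Fintype.card ι * (nm K v : ℝ) ^ ((i : ℝ) / 2) * (nm K v : ℝ) ^ (-((i : ℝ) / 2)) :=
          mul_le_mul_of_nonneg_right h4 (by positivity)
      _ = Fintype.card ι := by
          rw [mul_assoc, ← Real.rpow_add h0, add_neg_cancel, Real.rpow_zero, mul_one]) hB0 hb
  refine ⟨h1, ?_⟩
  apply bdd_isLittleO
  refine ⟨C + D' * Module.finrank ℚ K * Pool.Agent.H921R2.TatePole.C0, ?_⟩
  filter_upwards [h2, self_mem_nhdsWithin] with ε h3 h4
  have hε : (0 : ℝ) < ε := h4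
  have h5 := EV_EH hb hε
  have e1 : (fun x : HX K => t' (vx x)) = fun x => t (vx x) := funext h0
  rw [e1] at h5
  have e2 : size i B ε * LL ε - EH K ε (fun x => t (vx x)) =
      (size i B ε * LL ε - EV K ε t') + (EV K ε t' - EH K ε (fun x => t (vx x))) := by ring
  rw [e2]
  exact (abs_add_le _ _).trans (add_le_add h3 h5)

end

end Pool.Agent.N172.HS
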