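import Pool.Agent.N172.HS.Pa

/-!
# Limit points, and the exceptional representations
-/

set_option autoImplicit false
set_option linter.unusedSectionVars false

namespace Pool.Agent.N172.HS

open NumberField Complex Filter Topology IsDedekindDomain Asymptotics Polynomial
open Pool.Agent.W353.EF (IsFrobenius LFun size)
open Pool.Agent.W353.TP (HX sysH LL LL_tendsto bdd_isLittleO)
open Pool.Agent.W353.NF (vx)
open Pool.Agent.Y149.Ord (HasOrder tendsto_size)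
open scoped ComplexConjugate

/-- **The limit points of the sizes.** -/
theorem exists_limit {κ : Type} [Fintype κ] {z : κ → ℝ → ℝ} {l : Filter ℝ} {Q : (κ → ℝ) → ℝ}
    (hz : ∀ c : κ → ℝ, ∀ η : ℝ, 0 < η → ∀ᶠ ε in l, (∑ k, c k * z k ε) ^ 2 ≤ Q c + η)
    {P : (κ → ℝ) → Prop} (hP : ∃ᶠ ε in l, P (fun k => z k ε)) :
    ∃ ζ ∈ closure {x | P x}, ∀ c : κ → ℝ, (∑ k, c k * ζ k) ^ 2 ≤ Q c := by
  classical
  have hne : (l ⊓ 𝓟 {ε | P (fun k => z k ε)}).NeBot := Filter.frequently_iff_neBot.1 hP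
  set 𝒰 : Ultrafilter ℝ := Ultrafilter.of (l ⊓ 𝓟 {ε | P (fun k => z k ε)}) with h𝒰
  have hle : (𝒰 : Filter ℝ) ≤ l ⊓ 𝓟 {ε | P (fun k => z k ε)} := Ultrafilter.of_le _
  have hl : (𝒰 : Filter ℝ) ≤ l := hle.trans inf_le_left
  have hPu : ∀ᶠ ε in (𝒰 : Filter ℝ), P (fun k => z k ε) :=
    (hle.trans inf_le_right) (Filter.mem_principal_self _)
  set B : κ → ℝ := fun k => Real.sqrt (Q (Pi.single k 1) + 1) with hB
  have hbd : ∀ᶠ ε in (𝒰 : Filter ℝ), (fun k => z k ε) ∈ Set.pi Set.univ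
      (fun k => Set.Icc (-(B k)) (B k)) := by
    have h1 : ∀ᶠ ε in (𝒰 : Filter ℝ), ∀ k, (z k ε) ^ 2 ≤ Q (Pi.single k 1) + 1 := by
      rw [Filter.eventually_all]
      intro k
      filter_upwards [hl (hz (Pi.single k 1) 1 one_pos)] with ε h2
      have e1 : ∑ j, (Pi.single k (1 : ℝ) : κ → ℝ) j * z j ε = z k ε := by
        rw [Finset.sum_eq_single k]
        · rw [Pi.single_eq_same, one_mul]
        · intro j _ hj
          rw [Pi.single_eq_of_ne hj, zero_mul]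
        · intro h; exact absurd (Finset.mem_univ k) h
      rwa [e1] at h2
    filter_upwards [h1] with ε h2 k _
    have h3 := Real.abs_le_sqrt (h2 k)
    exact ⟨(abs_le.1 h3).1, (abs_le.1 h3).2⟩
  obtain ⟨ζ, -, hζ⟩ := (isCompact_univ_pi fun k => isCompact_Icc (a := -(B k)) (b := B k)).ultrafilter_le_nhds
    (𝒰.map fun ε k => z k ε) (by
      rw [Filter.le_principal_iff]
      exact hbd)
  have hlim : Tendsto (fun ε => (fun k => z k ε)) (𝒰 : Filter ℝ) (𝓝 ζ) := hζ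
  refine ⟨ζ, mem_closure_of_tendsto hlim hPu, fun c => ?_⟩
  refine le_of_forall_pos_le_add fun η hη => ?_
  have h4 : Tendsto (fun ε => (∑ k, c k * z k ε) ^ 2) (𝒰 : Filter ℝ)
      (𝓝 ((∑ k, c k * ζ k) ^ 2)) := by
    have h5 : Continuous fun x : κ → ℝ => (∑ k, c k * x k) ^ 2 := by fun_prop
    exact (h5.tendsto ζ).comp hlim
  exact le_of_tendsto h4 (hl (hz c η hη))

/-- orthogonal families -/
theorem orth_bound {κ : Type} [Fintype κ] {ζ : κ → ℝ} {R G : ℝ} (hR : 0 ≤ R) (hG : 0 ≤ G)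
    {g : κ → ℝ} (hg : ∀ k, g k ≤ G)
    (h : ∀ c : κ → ℝ, (∑ k, c k * ζ k) ^ 2 ≤ R * ∑ k, c k ^ 2 * g k) :
    ∑ k, ζ k ^ 2 ≤ R * G := by
  have h1 := h ζ
  have h2 : ∑ k, ζ k * ζ k = ∑ k, ζ k ^ 2 := Finset.sum_congr rfl fun k _ => by ring
  rw [h2] at h1
  have h3 : R * ∑ k, ζ k ^ 2 * g k ≤ R * G * ∑ k, ζ k ^ 2 := by
    rw [mul_assoc, Finset.mul_sum (a := G)]
    refine mul_le_mul_of_nonneg_left (Finset.sum_le_sum fun k _ => ?_) hR
    rw [mul_comm G]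
    exact mul_le_mul_of_nonneg_left (hg k) (sq_nonneg _)
  have h4 : 0 ≤ ∑ k, ζ k ^ 2 := Finset.sum_nonneg fun k _ => sq_nonneg _
  rcases h4.eq_or_lt with h5 | h5
  · rw [← h5]; positivity
  · have h6 : (∑ k, ζ k ^ 2) * (∑ k, ζ k ^ 2) ≤ R * G * ∑ k, ζ k ^ 2 := by
      rw [← sq]; exact h1.trans h3
    exact le_of_mul_le_mul_right h6 h5

/-- **Bessel's inequality for the sizes.** -/
theorem bessel_gen {κ : Type} [Fintype κ] {z : κ → ℝ → ℝ} {R G : ℝ} (hR : 0 ≤ R) (hG : 0 ≤ G)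
    {g : κ → ℝ} (hg : ∀ k, g k ≤ G)
    (hz : ∀ c : κ → ℝ, ∀ η : ℝ, 0 < η → ∀ᶠ ε in 𝓝[>] (0 : ℝ),
      (∑ k, c k * z k ε) ^ 2 ≤ R * ∑ k, c k ^ 2 * g k + η) {η : ℝ} (hη : 0 < η) :
    ∀ᶠ ε in 𝓝[>] (0 : ℝ), ∑ k, z k ε ^ 2 ≤ R * G + η := by
  by_contra hcon
  rw [Filter.not_eventually] at hcon
  obtain ⟨ζ, h1, h2⟩ := exists_limit (P := fun x => R * G + η ≤ ∑ k, x k ^ 2) hz
    (hcon.mono fun ε h => (not_le.1 h).le)
  have h3 : IsClosed {x : κ → ℝ | R * G + η ≤ ∑ k, x k ^ 2} := by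
    apply isClosed_le <;> fun_prop
  rw [h3.closure_eq] at h1
  have h4 := orth_bound hR hG hg h2
  have h5 : R * G + η ≤ ∑ k, ζ k ^ 2 := h1
  linarith

/-- **The number of the large defects.** -/
theorem count_gen {κ : Type} [Fintype κ] {z : κ → ℝ → ℝ} {R G : ℝ} (hR : 0 ≤ R) (hG : 0 ≤ G)
    {g : κ → ℝ} (hg : ∀ k, g k ≤ G)
    (hz : ∀ c : κ → ℝ, ∀ η : ℝ, 0 < η → ∀ᶠ ε in 𝓝[>] (0 : ℝ),
      (∑ k, c k * z k ε) ^ 2 ≤ R * ∑ k, c k ^ 2 * g k + η) {δ : ℝ} (hδ : 0 ≤ δ)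
    (hzδ : ∀ k, ∀ᶠ ε in 𝓝[>] (0 : ℝ), δ ≤ |z k ε|) : Fintype.card κ * δ ^ 2 ≤ R * G := by
  refine le_of_forall_pos_le_add fun η hη => ?_
  have h1 : ∀ᶠ ε in 𝓝[>] (0 : ℝ), ∀ k, δ ≤ |z k ε| := Filter.eventually_all.2 hzδ
  obtain ⟨ε, h2, h3⟩ := (h1.and (bessel_gen hR hG hg hz hη)).exists
  refine le_trans ?_ h3
  calc (Fintype.card κ : ℝ) * δ ^ 2 = ∑ _k : κ, δ ^ 2 := by
        rw [Finset.sum_const, Finset.card_univ, nsmul_eq_mul]
    _ ≤ ∑ k, z k ε ^ 2 := Finset.sum_le_sum fun k _ => by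
        rw [← sq_abs (z k ε)]
        exact pow_le_pow_left₀ hδ (h2 k) 2

/-- **A maximal family of pairwise orthogonal bad objects.** -/
theorem exists_max {W : Type*} (Bad : W → Prop) (orth : W → W → Prop)
    (hsymm : ∀ x y, orth x y → orth y x) (b : ℕ)
    (hb : ∀ (n : ℕ) (σ : Fin n → W), (∀ k, Bad (σ k)) → (∀ k l, k ≠ l → orth (σ k) (σ l)) →
      n ≤ b) :
    ∃ (n : ℕ) (σ : Fin n → W), n ≤ b ∧ (∀ k, Bad (σ k)) ∧
      (∀ k l, k ≠ l → orth (σ k) (σ l)) ∧ ∀ w, (∀ k, orth w (σ k)) → ¬ Bad w := by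
  classical
  set Q : ℕ → Prop := fun n => ∃ σ : Fin n → W, (∀ k, Bad (σ k)) ∧
    ∀ k l, k ≠ l → orth (σ k) (σ l) with hQ
  have hQ0 : Q 0 := ⟨fun k => k.elim0, fun k => k.elim0, fun k => k.elim0⟩
  have h1 : Q (Nat.findGreatest Q b) := Nat.findGreatest_spec (Nat.zero_le b) hQ0
  obtain ⟨σ, h2, h3⟩ := h1
  refine ⟨Nat.findGreatest Q b, σ, Nat.findGreatest_le b, h2, h3, fun w hw hbad => ?_⟩
  have h4 : Q (Nat.findGreatest Q b + 1) := by
    refine ⟨Fin.cons w σ, fun k => ?_, fun k l hkl => ?_⟩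
    · refine Fin.cases ?_ (fun k => ?_) k
      · rw [Fin.cons_zero]; exact hbad
      · rw [Fin.cons_succ]; exact h2 k
    · revert hkl
      refine Fin.cases ?_ (fun k => ?_) k
      · refine Fin.cases ?_ (fun l => ?_) l
        · intro h; exact absurd rfl h
        · intro _
          rw [Fin.cons_zero, Fin.cons_succ]
          exact hw l
      · refine Fin.cases ?_ (fun l => ?_) l
        · intro _
          rw [Fin.cons_zero, Fin.cons_succ]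
          exact hsymm _ _ (hw k)
        · intro h
          rw [Fin.cons_succ, Fin.cons_succ]
          exact h3 k l fun h5 => h (by rw [h5])
  obtain ⟨σ', h5, h6⟩ := h4
  have h7 := hb _ σ' h5 h6
  have h8 := Nat.le_findGreatest (P := Q) h7 ⟨σ', h5, h6⟩
  omega

/-- the constant -/
noncomputable def dd (R : ℕ) : ℝ := 1 - 1 / (2 * ((R : ℝ) + 1))

theorem dd_lt_one (R : ℕ) : dd R < 1 := by
  unfold dd
  have : (0 : ℝ) < 1 / (2 * ((R : ℝ) + 1)) := by positivity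
  linarith

theorem dd_pos (R : ℕ) : 0 < dd R := by
  unfold dd
  have h1 : 1 / (2 * ((R : ℝ) + 1)) ≤ 1 / 2 := by
    apply one_div_le_one_div_of_le two_pos
    have : (0 : ℝ) ≤ R := Nat.cast_nonneg _
    linarith
  linarith

theorem le_of_dd {n R : ℕ} (h : (n : ℝ) * dd R ^ 2 ≤ R) : n ≤ R := by
  by_contra hcon
  push Not at hcon
  have h1 : (R : ℝ) + 1 ≤ n := by exact_mod_cast hcon
  have h2 : (R : ℝ) < ((R : ℝ) + 1) * dd R ^ 2 := by
    unfold dd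
    have h3 : (0 : ℝ) < (R : ℝ) + 1 := by positivity
    have h4 : ((R : ℝ) + 1) * (1 - 1 / (2 * ((R : ℝ) + 1))) ^ 2 =
        R + 1 / (4 * ((R : ℝ) + 1)) := by
      field_simp
      ring
    rw [h4]
    have : (0 : ℝ) < 1 / (4 * ((R : ℝ) + 1)) := by positivity
    linarith
  have h5 : ((R : ℝ) + 1) * dd R ^ 2 ≤ n * dd R ^ 2 :=
    mul_le_mul_of_nonneg_right h1 (sq_nonneg _)
  linarith

section

variable {K : Type} [Field K] [NumberField K]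

theorem WRep.inner_comm (ρ σ : WRep K) : ρ.inner σ = σ.inner ρ := by
  have hQ : StNvq := Pool.Agent.N134.HS.t_nvq
  have h1 : HasGram ρ.tH σ.tH (ρ.inner σ) := WRep.gram hQ ρ σ
  have h2 : HasGram σ.tH ρ.tH (σ.inner ρ) := WRep.gram hQ σ ρ
  have h3 := h1.unique h2.symm
  exact_mod_cast h3

/-- **The inequality.** -/
theorem tensor_bound {X : Variety K} {i : ℕ} (hi : i ≤ 2 * X.dim) {θ : WRep K} {N' : ℕ}
    (hθ : IsPart X i θ N') {κ : Type} [Fintype κ] {ρ : κ → WRep K}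
    {B : κ → HeightOneSpectrum (𝓞 K) → ℂ[X]} (hB : ∀ k, IsTensor X i (ρ k) (B k)) (c : κ → ℝ)
    {η : ℝ} (hη : 0 < η) :
    ∀ᶠ ε : ℝ in 𝓝[>] 0, (∑ k, c k * (size i (B k) ε - (ρ k).inner θ)) ^ 2 ≤
      N' ^ 2 * ∑ k, ∑ l, c k * c l * (ρ k).inner (ρ l) + η := by
  have hQ : StNvq := Pool.Agent.N134.HS.t_nvq
  have h := multi (K := K) (A := Unit) (fun k _ => (ρ k).tH) (fun k _ => (ρ k).bdd)
    (fun _ k l => (ρ k).inner (ρ l)) (fun _ k l => WRep.gram hQ (ρ k) (ρ l))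
    (fun _ => cut X i θ N') (fun _ => N') (fun _ x => abs_cut X i θ N' x) c
    (fun k ε => size i (B k) ε - (ρ k).inner θ) (fun k => by
      have h1 := defect hi hθ (hB k)
      simpa using h1) hη
  simpa using h

/-- the inequality for the orders -/
theorem tensor_order {X : Variety K} {i : ℕ} (hi : i ≤ 2 * X.dim) {θ : WRep K} {N' : ℕ}
    (hθ : IsPart X i θ N') {κ : Type} [Fintype κ] {ρ : κ → WRep K}
    {B : κ → HeightOneSpectrum (𝓞 K) → ℂ[X]} (hB : ∀ k, IsTensor X i (ρ k) (B k)) (c : κ → ℝ)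
    {r : κ → ℤ} (hr : ∀ k, HasOrder i (B k) (r k)) :
    (∑ k, c k * (r k + (ρ k).inner θ)) ^ 2 ≤
      N' ^ 2 * ∑ k, ∑ l, c k * c l * (ρ k).inner (ρ l) := by
  refine le_of_forall_pos_le_add fun η hη => ?_
  have h1 := tensor_bound hi hθ hB c hη
  have h2 : Tendsto (fun ε => (∑ k, c k * (size i (B k) ε - (ρ k).inner θ)) ^ 2) (𝓝[>] 0)
      (𝓝 ((∑ k, c k * (-(r k : ℝ) - (ρ k).inner θ)) ^ 2)) :=
    (tendsto_finsetSum _ fun k _ => ((tendsto_size (hr k)).sub_const _).const_mul _).pow 2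
  have h3 := le_of_tendsto h2 h1
  have h4 : ∑ k, c k * (-(r k : ℝ) - (ρ k).inner θ) = -∑ k, c k * (r k + (ρ k).inner θ) := by
    rw [← Finset.sum_neg_distrib]
    exact Finset.sum_congr rfl fun k _ => by ring
  rwa [h4, neg_sq] at h3

/-- orthogonal representations -/
theorem orth_sum {κ : Type} [Fintype κ] {ρ : κ → WRep K} (h1 : ∀ k, (ρ k).IsIrr)
    (h2 : ∀ k l, k ≠ l → (ρ k).inner (ρ l) = 0) (c : κ → ℝ) :
    ∑ k, ∑ l, c k * c l * ((ρ k).inner (ρ l) : ℝ) = ∑ k, c k ^ 2 * 1 := by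
  classical
  refine Finset.sum_congr rfl fun k _ => ?_
  rw [Finset.sum_eq_single k]
  · rw [h1 k]
    push_cast
    ring
  · intro l _ hl
    rw [h2 k l hl.symm]
    simp
  · intro h; exact absurd (Finset.mem_univ k) h

/-- orders from frequently small defects -/
theorem order_of_freq' {i : ℕ} {B : HeightOneSpectrum (𝓞 K) → ℂ[X]} {r m : ℤ} {δ : ℝ}
    (hδ : δ < 1) (h : ∃ᶠ ε : ℝ in 𝓝[>] 0, |size i B ε - m| < δ) (hr : HasOrder i B r) :
    r = -m := by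
  have h9 := ((tendsto_size hr).sub_const (m : ℝ)).abs
  have h10 : |-(r : ℝ) - m| ≤ δ := by
    by_contra hcon
    push Not at hcon
    exact h ((h9.eventually (lt_mem_nhds hcon)).mono fun ε h3 => not_lt.2 (le_of_lt h3))
  have h11 : |(r : ℝ) + m| < 1 := by
    have e : (r : ℝ) + m = -(-(r : ℝ) - m) := by ring
    rw [e, abs_neg]
    linarith
  have h12 : |r + m| < 1 := by exact_mod_cast h11
  have h13 := Int.abs_lt_one_iff.1 h12
  omega

/-- **The exceptional representations.** -/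
theorem spectrum {X : Variety K} {i : ℕ} (hi : i ≤ 2 * X.dim) {θ : WRep K} {N' : ℕ}
    (hθ : IsPart X i θ N') (P : WRep K → Prop) {δ : ℝ} (hδ0 : 0 < δ) (hδ1 : δ < 1) :
    ∃ (n : ℕ) (σ : Fin n → WRep K), n * δ ^ 2 ≤ (N' : ℝ) ^ 2 ∧
      (∀ k, (σ k).IsIrr ∧ P (σ k)) ∧ (∀ k l, k ≠ l → (σ k).inner (σ l) = 0) ∧
      ∀ ρ : WRep K, ρ.IsIrr → P ρ → (∀ k, ρ.inner (σ k) = 0) →
        ∀ B : HeightOneSpectrum (𝓞 K) → ℂ[X], IsTensor X i ρ B →
        (∃ᶠ ε : ℝ in 𝓝[>] 0, |size i B ε - ρ.inner θ| < δ) ∧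
        ∀ r : ℤ, HasOrder i B r → r = -ρ.inner θ := by
  classical
  have hδ2 : 0 < δ ^ 2 := by positivity
  obtain ⟨n, σ, h1, h2, h3, h4⟩ := exists_max (W := WRep K)
    (fun ρ => (ρ.IsIrr ∧ P ρ) ∧ ∃ B : HeightOneSpectrum (𝓞 K) → ℂ[X], IsTensor X i ρ B ∧
      ∀ᶠ ε : ℝ in 𝓝[>] 0, δ ≤ |size i B ε - ρ.inner θ|)
    (fun ρ σ => ρ.inner σ = 0) (fun ρ σ h => by rw [WRep.inner_comm]; exact h)
    ⌊(N' : ℝ) ^ 2 / δ ^ 2⌋₊ (by
      intro n σ hbad horth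
      choose hirr B hB hδB using hbad
      have h5 := count_gen (κ := Fin n) (z := fun k ε => size i (B k) ε - (σ k).inner θ)
        (R := (N' : ℝ) ^ 2) (G := 1) (sq_nonneg _) zero_le_one (g := fun _ => 1)
        (fun _ => le_rfl) (fun c η hη => by
          have h6 := tensor_bound hi hθ hB c hη
          rwa [orth_sum (fun k => (hirr k).1) horth] at h6) hδ0.le hδB
      rw [Fintype.card_fin, mul_one] at h5
      apply Nat.le_floor
      rwa [le_div_iff₀ hδ2])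
  refine ⟨n, σ, ?_, fun k => (h2 k).1, h3, fun ρ hρ hP hort B hB => ?_⟩
  · rw [← le_div_iff₀ hδ2]
    exact (Nat.cast_le.2 h1).trans (Nat.floor_le (by positivity))
  have h5 : ∃ᶠ ε : ℝ in 𝓝[>] 0, |size i B ε - ρ.inner θ| < δ := by
    by_contra hcon
    rw [Filter.not_frequently] at hcon
    exact h4 ρ hort ⟨⟨hρ, hP⟩, B, hB, hcon.mono fun ε h => not_lt.1 h⟩
  exact ⟨h5, fun r hr => order_of_freq' hδ1 h5 hr⟩

end

end Pool.Agent.N172.HS
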