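import Pool.Agent.N172.HS.Hol
import Pool.Agent.Y773.HG.Rs

/-!
# Hecke L-functions as sums over the integers of `K`
-/

set_option autoImplicit false
set_option linter.unusedSectionVars false

namespace Pool.Agent.N172.HS

open NumberField Module
open Pool.Agent.Y773 (PIdl gen span_gen gen_ne_zero toP Sc Reps exists_unique_class LI)

section field

variable {K : Type} [Field K] [NumberField K]

/-- nonzero elements as generators times units -/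
noncomputable def xU (K : Type) [Field K] [NumberField K] :
    PIdl K × (𝓞 K)ˣ ≃ {x : 𝓞 K // x ≠ 0} := Equiv.ofBijective
    (fun p => ⟨(p.2 : 𝓞 K) * gen p.1, mul_ne_zero p.2.ne_zero (gen_ne_zero p.1)⟩) (by
      have hsp : ∀ p : PIdl K × (𝓞 K)ˣ, Ideal.span {(p.2 : 𝓞 K) * gen p.1} = p.1.1 := by
        intro p
        rw [← span_gen p.1, Ideal.span_singleton_eq_span_singleton]
        exact associated_unit_mul_left _ _ p.2.isUnit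
      constructor
      · intro p q h
        have h1 : (p.2 : 𝓞 K) * gen p.1 = (q.2 : 𝓞 K) * gen q.1 := congrArg Subtype.val h
        have h2 : p.1 = q.1 := Subtype.ext (by rw [← hsp p, h1, hsp q])
        refine Prod.ext h2 (Units.ext ?_)
        rw [h2] at h1
        exact mul_right_cancel₀ (gen_ne_zero q.1) h1
      · rintro ⟨x, hx⟩
        have h1 := span_gen (toP ⟨x, hx⟩)
        change Ideal.span {gen (toP ⟨x, hx⟩)} = Ideal.span {x} at h1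
        rw [Ideal.span_singleton_eq_span_singleton] at h1
        obtain ⟨u, hu⟩ := h1
        exact ⟨(toP ⟨x, hx⟩, u), Subtype.ext (by simp only; rw [mul_comm]; exact hu)⟩)

lemma span_xU (p : PIdl K × (𝓞 K)ˣ) : Ideal.span {(xU K p).1} = p.1.1 := by
  show Ideal.span {(p.2 : 𝓞 K) * gen p.1} = p.1.1
  rw [← span_gen p.1, Ideal.span_singleton_eq_span_singleton]
  exact associated_unit_mul_left _ _ p.2.isUnit

/-- **Sum over the units** -/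
theorem sum_units (G : Ideal (𝓞 K) → ℂ) (hG0 : G ⊥ = 0)
    (hG : Summable fun x : 𝓞 K => G (Ideal.span {x}) * (phi (x : K) : ℂ)) :
    ∑' x : 𝓞 K, G (Ideal.span {x}) * (phi (x : K) : ℂ) =
      (Nat.card (Units.torsion K) : ℂ) * ∑' J : PIdl K, G J.1 := by
  set f : 𝓞 K → ℂ := fun x => G (Ideal.span {x}) * (phi (x : K) : ℂ) with hf
  have hf0 : f 0 = 0 := by
    simp only [hf]
    rw [show Ideal.span {(0 : 𝓞 K)} = ⊥ from Ideal.span_singleton_eq_bot.2 rfl, hG0, zero_mul]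
  have h1 : ∑' x : 𝓞 K, f x = ∑' x : {x : 𝓞 K // x ≠ 0}, f x.1 := by
    refine (tsum_subtype_eq_of_support_subset (s := {x : 𝓞 K | x ≠ 0}) ?_).symm
    intro x hx h0
    exact hx (by rw [h0]; exact hf0)
  rw [h1, ← (xU K).tsum_eq]
  have h2 : Summable fun p : PIdl K × (𝓞 K)ˣ => f (xU K p).1 :=
    hG.comp_injective (Subtype.val_injective.comp (xU K).injective)
  rw [h2.tsum_prod, ← tsum_mul_left]
  refine tsum_congr fun J => ?_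
  have h3 : HasSum (fun u : (𝓞 K)ˣ => ((phi (((u : 𝓞 K) : K) * (gen J : K)) : ℝ) : ℂ))
      (((Nat.card (Units.torsion K) : ℕ) : ℝ) : ℂ) :=
    Complex.hasSum_ofReal.2 (hasSum_phi (coe_ne (gen_ne_zero J)))
  have h4 : ∀ u : (𝓞 K)ˣ, f (xU K (J, u)).1 =
      G J.1 * ((phi (((u : 𝓞 K) : K) * (gen J : K)) : ℝ) : ℂ) := by
    intro u
    simp only [hf]
    rw [span_xU]
    congr 3
  simp_rw [h4]
  rw [tsum_mul_left, h3.tsum_eq, mul_comm]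
  rw [Complex.ofReal_natCast]

lemma absNorm_span (x : 𝓞 K) : ((Ideal.absNorm (Ideal.span {x}) : ℕ) : ℝ) = Nm (x : K) := by
  rw [Ideal.absNorm_span_singleton]
  unfold Nm
  rw [Nat.cast_natAbs]
  have h : ((Algebra.norm ℤ x : ℤ) : ℚ) = Algebra.norm ℚ (x : K) := Algebra.coe_norm_int x
  rw [← h]
  push_cast
  rfl

lemma Ns_eq {x : 𝓞 K} (hx : x ≠ 0) (s : ℂ) :
    Ns s (x : K) = ((Ideal.absNorm (Ideal.span {x}) : ℕ) : ℂ) ^ (-s) := by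
  have h1 := absNorm_span x
  have h2 := Nm_pos (coe_ne hx)
  have h3 : ((Ideal.absNorm (Ideal.span {x}) : ℕ) : ℂ) = ((Nm (x : K) : ℝ) : ℂ) := by
    rw [← h1]
    push_cast
    rfl
  rw [h3, Complex.cpow_def_of_ne_zero (by exact_mod_cast h2.ne'), ← Complex.ofReal_log h2.le]
  unfold Ns
  congr 1
  ring

variable {𝔟 𝔠 𝔣 : Ideal (𝓞 K)} {k : (K →+* ℂ) → ℤ} {t : (K →+* ℂ) → ℝ} {ψ : Ideal (𝓞 K) →*₀ ℂ}

open Classical in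
/-- the weights, for ideals -/
noncomputable def WI (𝔟 𝔠 I : Ideal (𝓞 K)) : ℂ :=
  (if 𝔟 * 𝔠 ∣ I then 1 else 0) - (if 𝔟 ∣ I then (Ideal.absNorm 𝔠 : ℂ)⁻¹ else 0)

lemma Wt_eq (x : 𝓞 K) : Wt 𝔟 𝔠 x = WI 𝔟 𝔠 (Ideal.span {x}) := by
  classical
  unfold Wt WI
  congr 1
  · exact if_congr Ideal.dvd_span_singleton.symm rfl rfl
  · exact if_congr Ideal.dvd_span_singleton.symm rfl rfl

/-- the summand, for ideals -/
noncomputable def GI (𝔟 𝔠 : Ideal (𝓞 K)) (ψ : Ideal (𝓞 K) →*₀ ℂ) (s : ℂ) (I : Ideal (𝓞 K)) : ℂ :=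
  WI 𝔟 𝔠 I * (ψ I * ((Ideal.absNorm I : ℕ) : ℂ) ^ (-s))

lemma GI_bot (s : ℂ) : GI 𝔟 𝔠 ψ s ⊥ = 0 := by
  unfold GI
  rw [show ψ ⊥ = 0 from map_zero ψ, zero_mul, mul_zero]

lemma Tm_eq (s : ℂ) (x : 𝓞 K) :
    Tm 𝔟 𝔠 k t ψ s x = GI 𝔟 𝔠 ψ s (Ideal.span {x}) * (phi (x : K) : ℂ) := by
  by_cases hx : x = 0
  · rw [hx, Tm_zero, show Ideal.span {(0 : 𝓞 K)} = ⊥ from Ideal.span_singleton_eq_bot.2 rfl, GI_bot,
      zero_mul]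
  · unfold Tm GI hh
    rw [psi_eq (k := k) (t := t) hx, Wt_eq, Ns_eq hx]
    ring

theorem tsum_Tm (h : IsHecke 𝔣 k t ψ) {s : ℂ} (hs : 1 < s.re) :
    ∑' x : 𝓞 K, Tm 𝔟 𝔠 k t ψ s x =
      (Nat.card (Units.torsion K) : ℂ) * ∑' J : PIdl K, GI 𝔟 𝔠 ψ s J.1 := by
  have h1 := summable_Tm (𝔟 := 𝔟) (𝔠 := 𝔠) h hs
  simp_rw [Tm_eq] at h1 ⊢
  exact sum_units _ (GI_bot s) h1

open Classical in
/-- the summand over all ideals -/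
noncomputable def HI (𝔠 : Ideal (𝓞 K)) (ψ : Ideal (𝓞 K) →*₀ ℂ) (s : ℂ) (𝔞 : Ideal (𝓞 K)) : ℂ :=
  ((if 𝔠 ∣ 𝔞 then 1 else 0) - (Ideal.absNorm 𝔠 : ℂ)⁻¹) * (ψ 𝔞 * ((Ideal.absNorm 𝔞 : ℕ) : ℂ) ^ (-s))

lemma sum_Sc (h𝔟 : 𝔟 ≠ ⊥) (_hψ : ψ 𝔟 ≠ 0) (s : ℂ) :
    ψ 𝔟 * (∑' 𝔞 : Sc 𝔟, HI 𝔠 ψ s 𝔞) =
      ((Ideal.absNorm 𝔟 : ℕ) : ℂ) ^ s * ∑' J : PIdl K, GI 𝔟 𝔠 ψ s J.1 := by
  classical
  have hN : Ideal.absNorm 𝔟 ≠ 0 := by rwa [Ne, Ideal.absNorm_eq_zero_iff]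
  have hNc : ((Ideal.absNorm 𝔟 : ℕ) : ℂ) ≠ 0 := by exact_mod_cast hN
  let i : Sc 𝔟 → PIdl K := fun 𝔞 => ⟨𝔞.1 * 𝔟, mul_ne_zero 𝔞.2.1 h𝔟, 𝔞.2.2⟩
  have hi : Function.Injective i := by
    intro a b h
    have h1 : a.1 * 𝔟 = b.1 * 𝔟 := congrArg Subtype.val h
    exact Subtype.ext (mul_right_cancel₀ h𝔟 h1)
  rw [← hi.tsum_eq, ← tsum_mul_left, ← tsum_mul_left]
  · refine tsum_congr fun 𝔞 => ?_
    have h2 : (i 𝔞).1 = 𝔞.1 * 𝔟 := rfl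
    unfold GI HI WI
    have h3 : ((Ideal.absNorm 𝔟 : ℕ) : ℂ) ^ s * ((Ideal.absNorm 𝔟 : ℕ) : ℂ) ^ (-s) = 1 := by
      rw [← Complex.cpow_add _ _ hNc, add_neg_cancel, Complex.cpow_zero]
    have h4 : 𝔟 ∣ 𝔞.1 * 𝔟 := dvd_mul_left _ _
    have h5 : 𝔟 * 𝔠 ∣ 𝔞.1 * 𝔟 ↔ 𝔠 ∣ 𝔞.1 := by
      rw [mul_comm 𝔞.1 𝔟]
      exact mul_dvd_mul_iff_left h𝔟
    rw [h2, if_pos h4, map_mul, map_mul, Nat.cast_mul, Complex.natCast_mul_natCast_cpow]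
    have h6 : (if 𝔟 * 𝔠 ∣ 𝔞.1 * 𝔟 then (1 : ℂ) else 0) = if 𝔠 ∣ 𝔞.1 then 1 else 0 :=
      if_congr h5 rfl rfl
    rw [h6]
    set W : ℂ := (if 𝔠 ∣ 𝔞.1 then 1 else 0) - (Ideal.absNorm 𝔠 : ℂ)⁻¹
    calc ψ 𝔟 * (W * (ψ 𝔞.1 * ((Ideal.absNorm 𝔞.1 : ℕ) : ℂ) ^ (-s))) =
        (((Ideal.absNorm 𝔟 : ℕ) : ℂ) ^ s * ((Ideal.absNorm 𝔟 : ℕ) : ℂ) ^ (-s)) *
          (ψ 𝔟 * (W * (ψ 𝔞.1 * ((Ideal.absNorm 𝔞.1 : ℕ) : ℂ) ^ (-s)))) := by rw [h3, one_mul]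
      _ = _ := by ring
  · intro J hJ
    rw [Function.mem_support] at hJ
    have hb : 𝔟 ∣ J.1 := by
      by_contra h1
      apply hJ
      have h2 : ¬ 𝔟 * 𝔠 ∣ J.1 := fun h3 => h1 (dvd_of_mul_right_dvd h3)
      unfold GI WI
      rw [if_neg h1, if_neg h2, sub_zero, zero_mul]
    obtain ⟨𝔞, h𝔞⟩ := hb
    have h𝔞' : 𝔞 * 𝔟 = J.1 := by rw [mul_comm, h𝔞]
    refine ⟨⟨𝔞, ?_, ?_⟩, Subtype.ext h𝔞'⟩
    · rintro rfl
      apply J.2.1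
      rw [← h𝔞', Ideal.bot_mul]
    · rw [h𝔞']
      exact J.2.2

lemma summable_psi (h : IsHecke 𝔣 k t ψ) {s : ℂ} (hs : 1 < s.re) :
    Summable fun 𝔞 : Ideal (𝓞 K) => ψ 𝔞 * ((Ideal.absNorm 𝔞 : ℕ) : ℂ) ^ (-s) :=
  Pool.Agent.Y773.G.summable_LI h.norm_le hs

lemma norm_WH_le (𝔠 𝔞 : Ideal (𝓞 K)) [Decidable (𝔠 ∣ 𝔞)] :
    ‖((if 𝔠 ∣ 𝔞 then (1 : ℂ) else 0) - (Ideal.absNorm 𝔠 : ℂ)⁻¹)‖ ≤ 2 := by
  refine (norm_sub_le _ _).trans ?_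
  have h1 : ‖(if 𝔠 ∣ 𝔞 then (1 : ℂ) else 0)‖ ≤ 1 := by split_ifs <;> simp
  have h2 : ‖(Ideal.absNorm 𝔠 : ℂ)⁻¹‖ ≤ 1 := by
    rw [norm_inv, Complex.norm_natCast]
    rcases Nat.eq_zero_or_pos (Ideal.absNorm 𝔠) with h | h
    · rw [h]; simp
    · exact inv_le_one_of_one_le₀ (by exact_mod_cast h)
  linarith

lemma summable_HI (h : IsHecke 𝔣 k t ψ) {s : ℂ} (hs : 1 < s.re) :
    Summable fun 𝔞 : Ideal (𝓞 K) => HI 𝔠 ψ s 𝔞 := by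
  classical
  refine Summable.of_norm_bounded ((summable_psi h hs).norm.mul_left 2) fun 𝔞 => ?_
  unfold HI
  rw [norm_mul]
  exact mul_le_mul_of_nonneg_right (norm_WH_le _ _) (norm_nonneg _)

/-- **Sum over the classes** -/
theorem sum_HI {𝔟 : ClassGroup (𝓞 K) → Ideal (𝓞 K)} (hR : Reps 𝔟) (h : IsHecke 𝔣 k t ψ) {s : ℂ}
    (hs : 1 < s.re) : ∑ c, ∑' 𝔞 : Sc (𝔟 c), HI 𝔠 ψ s 𝔞 = ∑' 𝔞 : Ideal (𝓞 K), HI 𝔠 ψ s 𝔞 := by
  classical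
  have hsum := summable_HI (𝔠 := 𝔠) h hs
  have h1 : ∀ c, ∑' 𝔞 : Sc (𝔟 c), HI 𝔠 ψ s 𝔞 =
      ∑' 𝔞, (Sc (𝔟 c)).indicator (HI 𝔠 ψ s) 𝔞 := fun c => tsum_subtype (Sc (𝔟 c)) _
  simp_rw [h1]
  rw [← Summable.tsum_finsetSum (fun c _ => hsum.indicator _)]
  refine tsum_congr fun 𝔞 => ?_
  by_cases h𝔞 : 𝔞 = ⊥
  · have h3 : HI 𝔠 ψ s ⊥ = 0 := by
      unfold HI
      rw [show ψ ⊥ = 0 from map_zero ψ, zero_mul, mul_zero]
    rw [h𝔞, h3]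
    refine Finset.sum_eq_zero fun c _ => ?_
    rw [Set.indicator_of_notMem]
    exact fun h => h.1 rfl
  · obtain ⟨c, hc, huniq⟩ := exists_unique_class hR h𝔞
    rw [Finset.sum_eq_single c]
    · rw [Set.indicator_of_mem hc]
    · intro c' _ hc'
      rw [Set.indicator_of_notMem]
      exact fun hmem => hc' (huniq c' hmem)
    · exact fun h => absurd (Finset.mem_univ c) h

/-- the multiplicativity -/
theorem tsum_HI (h : IsHecke 𝔣 k t ψ) (h𝔠 : 𝔠 ≠ ⊥) {s : ℂ} (hs : 1 < s.re) :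
    ∑' 𝔞 : Ideal (𝓞 K), HI 𝔠 ψ s 𝔞 =
      (ψ 𝔠 * ((Ideal.absNorm 𝔠 : ℕ) : ℂ) ^ (-s) - (Ideal.absNorm 𝔠 : ℂ)⁻¹) * LI ψ s := by
  classical
  have hS := summable_psi h hs
  set g : Ideal (𝓞 K) → ℂ := fun 𝔞 => ψ 𝔞 * ((Ideal.absNorm 𝔞 : ℕ) : ℂ) ^ (-s) with hg
  have h1 : ∀ 𝔞, HI 𝔠 ψ s 𝔞 = (if 𝔠 ∣ 𝔞 then g 𝔞 else 0) - (Ideal.absNorm 𝔠 : ℂ)⁻¹ * g 𝔞 := by
    intro 𝔞
    unfold HI
    simp only [hg]
    split_ifs <;> ring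
  have hSi : Summable fun 𝔞 => (if 𝔠 ∣ 𝔞 then g 𝔞 else 0) := by
    refine Summable.of_norm_bounded hS.norm fun 𝔞 => ?_
    split_ifs
    · exact le_rfl
    · rw [norm_zero]; exact norm_nonneg _
  simp_rw [h1]
  rw [hSi.tsum_sub (hS.mul_left _), tsum_mul_left, sub_mul]
  congr 1
  have hinj : Function.Injective (fun 𝔟 : Ideal (𝓞 K) => 𝔠 * 𝔟) :=
    fun a b h => mul_left_cancel₀ h𝔠 h
  rw [← hinj.tsum_eq]
  · unfold LI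
    rw [← tsum_mul_left]
    refine tsum_congr fun 𝔟 => ?_
    rw [if_pos (dvd_mul_right _ _)]
    simp only [hg]
    rw [map_mul, map_mul, Nat.cast_mul, Complex.natCast_mul_natCast_cpow]
    ring
  · intro 𝔞 h𝔞
    rw [Function.mem_support] at h𝔞
    by_contra hcon
    apply h𝔞
    rw [if_neg]
    rintro ⟨𝔟, rfl⟩
    exact hcon ⟨𝔟, rfl⟩

/-- class representatives prime to `𝔣` -/
theorem exists_reps (h𝔣 : 𝔣 ≠ ⊥) : ∃ 𝔟 : ClassGroup (𝓞 K) → Ideal (𝓞 K), Reps 𝔟 ∧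
    ∀ c, IsCoprime (𝔟 c) 𝔣 := by
  have key : ∀ c : ClassGroup (𝓞 K), ∃ 𝔟 : Ideal (𝓞 K), ∃ h0 : 𝔟 ≠ ⊥,
      ClassGroup.mk0 ⟨𝔟, mem_nonZeroDivisors_of_ne_zero h0⟩ = c ∧ IsCoprime 𝔟 𝔣 := by
    intro c
    obtain ⟨I, hI⟩ := ClassGroup.mk0_surjective c⁻¹
    have hI0 : I.1 ≠ ⊥ := nonZeroDivisors.coe_ne_zero I
    have h1 : I.1 * 𝔣 ≤ I.1 := Ideal.mul_le_left
    have h2 : I.1 * 𝔣 ≠ 0 := mul_ne_zero hI0 h𝔣
    obtain ⟨z, hz⟩ := IsDedekindDomain.exists_sup_span_eq h1 h2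
    have h3 : Ideal.span {z} ≤ I.1 := by rw [← hz]; exact le_sup_right
    obtain ⟨C, hC⟩ := Ideal.dvd_iff_le.2 h3
    have h5 : IsCoprime C 𝔣 := by
      rw [Ideal.isCoprime_iff_sup_eq, sup_comm]
      rw [hC, ← Ideal.mul_sup] at hz
      have h4 : I.1 * (𝔣 ⊔ C) = I.1 * ⊤ := by rw [hz, Ideal.mul_top]
      exact mul_left_cancel₀ hI0 h4
    by_cases hz0 : z = 0
    · -- then `𝔣` is the unit ideal
      have h6 : I.1 * 𝔣 = I.1 * ⊤ := by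
        rw [Ideal.mul_top]
        rw [hz0, Ideal.span_singleton_eq_bot.2 rfl, sup_bot_eq] at hz
        exact hz
      have h7 : 𝔣 = ⊤ := mul_left_cancel₀ hI0 h6
      obtain ⟨J, hJ⟩ := ClassGroup.mk0_surjective c
      refine ⟨J.1, nonZeroDivisors.coe_ne_zero J, hJ, ?_⟩
      rw [h7, Ideal.isCoprime_iff_sup_eq, sup_top_eq]
    · have hC0 : C ≠ ⊥ := by
        rintro rfl
        rw [Ideal.mul_bot, Ideal.span_singleton_eq_bot] at hC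
        exact hz0 hC
      refine ⟨C, hC0, ?_, h5⟩
      have hne : I.1 * C ≠ 0 := mul_ne_zero hI0 hC0
      have h8 := (ClassGroup.mk0_eq_one_iff (mem_nonZeroDivisors_of_ne_zero hne)).2 (by
        rw [← hC]
        exact ⟨⟨z, rfl⟩⟩)
      have h9 : ClassGroup.mk0 ⟨I.1 * C, mem_nonZeroDivisors_of_ne_zero hne⟩ =
          ClassGroup.mk0 I * ClassGroup.mk0 ⟨C, mem_nonZeroDivisors_of_ne_zero hC0⟩ := by
        rw [← map_mul]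
        rfl
      rw [h9, hI] at h8
      exact (inv_mul_eq_one.1 h8).symm
  choose 𝔟 h0 h1 h2 using key
  refine ⟨𝔟, ⟨h0, ?_⟩, h2⟩
  simp only [h1]
  exact Function.bijective_id

lemma one_lt_absNorm (h𝔠 : 𝔠 ≠ ⊥) (hNt : 𝔠 ≠ ⊤) : 1 < Ideal.absNorm 𝔠 := by
  have hN0 : Ideal.absNorm 𝔠 ≠ 0 := by rwa [Ne, Ideal.absNorm_eq_zero_iff]
  have hN1 : Ideal.absNorm 𝔠 ≠ 1 := by rwa [Ne, Ideal.absNorm_eq_one_iff]
  omega

/-- the factor -/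
noncomputable def DD (𝔠 : Ideal (𝓞 K)) (z : ℂ) (s : ℂ) : ℂ :=
  z * ((Ideal.absNorm 𝔠 : ℕ) : ℂ) ^ (-s) - (Ideal.absNorm 𝔠 : ℂ)⁻¹

lemma differentiable_DD (h𝔠 : 𝔠 ≠ ⊥) (z : ℂ) : Differentiable ℂ (DD 𝔠 z) := by
  have hN0 : Ideal.absNorm 𝔠 ≠ 0 := by rwa [Ne, Ideal.absNorm_eq_zero_iff]
  have hNc : ((Ideal.absNorm 𝔠 : ℕ) : ℂ) ≠ 0 := by exact_mod_cast hN0
  intro s
  exact ((differentiableAt_const _).mul
    ((differentiableAt_id.neg).const_cpow (Or.inl hNc))).sub (differentiableAt_const _)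

lemma DD_ne (h𝔠 : 𝔠 ≠ ⊥) (hNt : 𝔠 ≠ ⊤) {z : ℂ} (hz : ‖z‖ ≤ 1) {s : ℂ} (hs : 1 < s.re) :
    DD 𝔠 z s ≠ 0 := by
  intro h2
  have hN2 := one_lt_absNorm h𝔠 hNt
  unfold DD at h2
  have h3 : z * ((Ideal.absNorm 𝔠 : ℕ) : ℂ) ^ (-s) = (Ideal.absNorm 𝔠 : ℂ)⁻¹ :=
    sub_eq_zero.1 h2
  have h4 := congrArg norm h3
  have hpos : (0 : ℝ) < Ideal.absNorm 𝔠 := by exact_mod_cast (by omega : 0 < Ideal.absNorm 𝔠)
  rw [norm_mul, norm_inv, Complex.norm_natCast, Complex.norm_natCast_cpow_of_pos (by omega),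
    Complex.neg_re] at h4
  have h5 : (Ideal.absNorm 𝔠 : ℝ) ^ (-s.re) < (Ideal.absNorm 𝔠 : ℝ)⁻¹ := by
    rw [← Real.rpow_neg_one]
    exact Real.rpow_lt_rpow_of_exponent_lt (by exact_mod_cast hN2) (by linarith)
  have h7 : (0 : ℝ) < (Ideal.absNorm 𝔠 : ℝ) ^ (-s.re) := by positivity
  nlinarith

/-- **The key identity.** -/
theorem pre (h : IsHecke 𝔣 k t ψ) (h𝔠 : 𝔠 ≠ ⊥) (hcop : IsCoprime 𝔠 𝔣) :
    ∃ Z : ℂ → ℂ, AnalyticAt ℂ Z 1 ∧ ∀ s ∈ Reg K, 1 < s.re → Z s = DD 𝔠 (ψ 𝔠) s * LI ψ s := by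
  classical
  obtain ⟨𝔟, hR, hRc⟩ := exists_reps h.ne_bot
  choose F hF1 hF2 using fun c => exists_hol h (hR.ne_bot c) h𝔠 hcop
  set w : ℂ := (Nat.card (Units.torsion K) : ℂ) with hw
  have hw0 : w ≠ 0 := by
    rw [hw]
    exact_mod_cast Nat.card_pos.ne'
  have hψ𝔟 : ∀ c, ψ (𝔟 c) ≠ 0 := fun c => (h.supp _ (hR.ne_bot c)).2 (hRc c)
  set Z : ℂ → ℂ := fun s => ∑ c, (ψ (𝔟 c))⁻¹ * (((Ideal.absNorm (𝔟 c) : ℕ) : ℂ) ^ s *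
    (w⁻¹ * F c s)) with hZ
  have hZan : AnalyticAt ℂ Z 1 := by
    refine Finset.analyticAt_fun_sum _ fun c _ => ?_
    have hNb : ((Ideal.absNorm (𝔟 c) : ℕ) : ℂ) ≠ 0 := by
      have := (Ideal.absNorm_eq_zero_iff (I := 𝔟 c)).not.2 (hR.ne_bot c)
      exact_mod_cast this
    have e1 : AnalyticAt ℂ (fun s : ℂ => ((Ideal.absNorm (𝔟 c) : ℕ) : ℂ) ^ s) 1 := by
      have hd : Differentiable ℂ fun s : ℂ => ((Ideal.absNorm (𝔟 c) : ℕ) : ℂ) ^ s := fun s =>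
        differentiableAt_id.const_cpow (Or.inl hNb)
      exact hd.analyticAt 1
    have e2 : AnalyticAt ℂ (F c) 1 :=
      (hF1 c).analyticAt ((isOpen_Reg K).mem_nhds (one_mem_Reg K))
    exact analyticAt_const.mul (e1.mul (analyticAt_const.mul e2))
  refine ⟨Z, hZan, fun s hs hs1 => ?_⟩
  have e1 := tsum_HI h h𝔠 hs1
  unfold DD
  rw [← e1, ← sum_HI hR h hs1]
  simp only [hZ]
  refine Finset.sum_congr rfl fun c _ => ?_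
  rw [hF2 c s hs hs1, tsum_Tm h hs1, ← hw, inv_mul_cancel_left₀ hw0,
    ← sum_Sc (hR.ne_bot c) (hψ𝔟 c), inv_mul_cancel_left₀ (hψ𝔟 c)]

/-- **Continuation.** -/
theorem continuation (h : IsHecke 𝔣 k t ψ) (h𝔠 : 𝔠 ≠ ⊥) (hcop : IsCoprime 𝔠 𝔣) (h1 : ψ 𝔠 ≠ 1) :
    ∃ G : ℂ → ℂ, AnalyticAt ℂ G 1 ∧ ∀ s : ℂ, 1 < s.re → G s = LI ψ s := by
  classical
  obtain ⟨Z, hZan, hmain⟩ := pre h h𝔠 hcop
  have hNt : 𝔠 ≠ ⊤ := by
    rintro rfl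
    exact h1 (by rw [← Ideal.one_eq_top]; exact map_one ψ)
  have hN0 : Ideal.absNorm 𝔠 ≠ 0 := by rwa [Ne, Ideal.absNorm_eq_zero_iff]
  have hNc : ((Ideal.absNorm 𝔠 : ℕ) : ℂ) ≠ 0 := by exact_mod_cast hN0
  have hD1 : DD 𝔠 (ψ 𝔠) 1 ≠ 0 := by
    unfold DD
    rw [Complex.cpow_neg_one]
    intro h2
    apply h1
    have h3 : (ψ 𝔠 - 1) * ((Ideal.absNorm 𝔠 : ℕ) : ℂ)⁻¹ = 0 := by linear_combination h2
    rcases mul_eq_zero.1 h3 with h4 | h4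
    · exact sub_eq_zero.1 h4
    · exact absurd h4 (inv_ne_zero hNc)
  have hDne : ∀ s : ℂ, 1 < s.re → DD 𝔠 (ψ 𝔠) s ≠ 0 := fun s hs => DD_ne h𝔠 hNt (h.norm_le 𝔠) hs
  refine ⟨fun s => if s ∈ Reg K then Z s / DD 𝔠 (ψ 𝔠) s else LI ψ s, ?_, fun s hs => ?_⟩
  · refine (hZan.div ((differentiable_DD h𝔠 _).analyticAt 1) hD1).congr ?_
    filter_upwards [(isOpen_Reg K).mem_nhds (one_mem_Reg K)] with s hs
    rw [if_pos hs]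
    rfl
  · by_cases hr : s ∈ Reg K
    · simp only [if_pos hr]
      rw [hmain s hr hs, mul_div_cancel_left₀ _ (hDne s hs)]
    · simp only [if_neg hr]

/-- **The pole of the trivial character.** -/
theorem continuation_one (h : IsHecke 𝔣 k t ψ) (h1 : ∀ 𝔞, ψ 𝔞 ≠ 0 → ψ 𝔞 = 1) :
    ∃ G : ℂ → ℂ, AnalyticAt ℂ G 1 ∧ ∀ᶠ s : ℂ in nhds 1, 1 < s.re → G s = LI ψ s * (s - 1) := by
  classical
  obtain ⟨𝔠, h𝔠, hNt, hcop⟩ : ∃ 𝔠 : Ideal (𝓞 K), 𝔠 ≠ ⊥ ∧ 𝔠 ≠ ⊤ ∧ IsCoprime 𝔠 𝔣 := by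
    set m : ℕ := Ideal.absNorm 𝔣 with hm
    have hm0 : m ≠ 0 := by rw [hm, Ne, Ideal.absNorm_eq_zero_iff]; exact h.ne_bot
    have hmem : ((m : ℕ) : 𝓞 K) ∈ 𝔣 := Ideal.absNorm_mem 𝔣
    refine ⟨Ideal.span {(((m + 1 : ℕ)) : 𝓞 K)}, ?_, ?_, ?_⟩
    · rw [Ne, Ideal.span_singleton_eq_bot]
      exact_mod_cast (Nat.succ_ne_zero m)
    · intro htop
      have h2 := congrArg Ideal.absNorm htop
      rw [Ideal.absNorm_top, Ideal.absNorm_span_singleton] at h2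
      have h3 : Algebra.norm ℤ (((m + 1 : ℕ)) : 𝓞 K) =
          ((m + 1 : ℕ) : ℤ) ^ Module.finrank ℤ (𝓞 K) := by
        have := Algebra.norm_algebraMap_of_basis
          (Module.Free.chooseBasis ℤ (𝓞 K)) (((m + 1 : ℕ)) : ℤ)
        rw [← Module.finrank_eq_card_chooseBasisIndex] at this
        rw [← this]
        congr 1
        simp
      rw [h3, Int.natAbs_pow, Int.natAbs_natCast] at h2
      have h4 : Module.finrank ℤ (𝓞 K) ≠ 0 := by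
        rw [RingOfIntegers.rank]
        exact Module.finrank_pos.ne'
      have h5 := (Nat.pow_eq_one.1 h2)
      rcases h5 with h5 | h5
      · omega
      · exact h4 h5
    · rw [Ideal.isCoprime_iff_exists]
      refine ⟨(((m + 1 : ℕ)) : 𝓞 K), Ideal.mem_span_singleton_self _, -((m : ℕ) : 𝓞 K),
        𝔣.neg_mem hmem, ?_⟩
      push_cast
      ring
  obtain ⟨Z, hZan, hmain⟩ := pre h h𝔠 hcop
  have hψ : ψ 𝔠 = 1 := h1 𝔠 ((h.supp 𝔠 h𝔠).2 hcop)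
  have hN2 := one_lt_absNorm h𝔠 hNt
  have hNc : ((Ideal.absNorm 𝔠 : ℕ) : ℂ) ≠ 0 := by exact_mod_cast (by omega)
  have hlog : Complex.log ((Ideal.absNorm 𝔠 : ℕ) : ℂ) ≠ 0 := by
    rw [← Complex.natCast_log]
    have : 0 < Real.log (Ideal.absNorm 𝔠 : ℕ) := Real.log_pos (by exact_mod_cast hN2)
    exact_mod_cast this.ne'
  set D : ℂ → ℂ := DD 𝔠 (ψ 𝔠) with hD
  have hdif : Differentiable ℂ D := differentiable_DD h𝔠 _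
  have hD1 : D 1 = 0 := by
    rw [hD, hψ]
    unfold DD
    rw [Complex.cpow_neg_one, one_mul, sub_self]
  have hderiv : deriv D 1 ≠ 0 := by
    have e1 : HasDerivAt D (ψ 𝔠 * (((Ideal.absNorm 𝔠 : ℕ) : ℂ) ^ (-(1 : ℂ)) *
        Complex.log ((Ideal.absNorm 𝔠 : ℕ) : ℂ) * (-1))) 1 := by
      have e2 := ((hasDerivAt_id (1 : ℂ)).neg.const_cpow (c := ((Ideal.absNorm 𝔠 : ℕ) : ℂ))
        (Or.inl hNc))
      exact (e2.const_mul (ψ 𝔠)).sub_const _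
    rw [e1.deriv, hψ, one_mul, Complex.cpow_neg_one]
    exact mul_ne_zero (mul_ne_zero (inv_ne_zero hNc) hlog) (by norm_num)
  have hds : Differentiable ℂ (dslope D 1) := by
    rw [← differentiableOn_univ, Complex.differentiableOn_dslope Filter.univ_mem]
    exact hdif.differentiableOn
  refine ⟨fun s => Z s / dslope D 1 s, hZan.div (hds.analyticAt 1) (by rwa [dslope_same]), ?_⟩
  filter_upwards [(isOpen_Reg K).mem_nhds (one_mem_Reg K)] with s hs hs1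
  have hne : s ≠ 1 := by
    rintro rfl
    simp at hs1
  have hne' : s - 1 ≠ 0 := sub_ne_zero.2 hne
  have hDs : D s ≠ 0 := DD_ne h𝔠 hNt (h.norm_le 𝔠) hs1
  rw [hmain s hs hs1, dslope_of_ne _ hne, slope_def_field, hD1, sub_zero]
  field_simp

end field

end Pool.Agent.N172.HS
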