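import Pool.Agent.N172.HS.Pt

/-!
# The support of the partition of unity, and the comparison of nearby points
-/

set_option autoImplicit false

namespace Pool.Agent.N172.HS

open NumberField Module
open NumberField.Units NumberField.Units.dirichletUnitTheorem

section field

variable {K : Type} [Field K] [NumberField K]

open scoped Classical in
lemma sum_Lg {x : K} (hx : x ≠ 0) : ∑ w : {w : InfinitePlace K // w ≠ w₀}, Lg x w =
    -((w₀ : InfinitePlace K).mult * (Real.log ((w₀ : InfinitePlace K) x) -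
      Real.log (Nm x) / finrank ℚ K)) := by
  have h1 : ∑ w : InfinitePlace K, (w.mult : ℝ) * (Real.log (w x) - Real.log (Nm x) / finrank ℚ K) =
      0 := by
    simp_rw [mul_sub]
    rw [Finset.sum_sub_distrib, ← log_Nm hx, ← Finset.sum_mul, sum_mult]
    have := finrank_pos' (K := K)
    field_simp
    ring
  rw [Fintype.sum_eq_add_sum_subtype_ne _ (w₀ : InfinitePlace K)] at h1
  unfold Lg
  linarith

lemma exists_support (K : Type) [Field K] [NumberField K] : ∃ c : ℝ, 0 < c ∧ c ≤ 1 ∧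
    ∀ x : K, x ≠ 0 → phi x ≠ 0 → ∀ w : InfinitePlace K, c * hs x ≤ w x := by
  classical
  set R₀ : ℝ := ∑ i, ∑ w, |bas K i w| with hR₀
  have hR₀' : 0 ≤ R₀ := by positivity
  set R : ℝ := (Fintype.card {w : InfinitePlace K // w ≠ w₀} + 1) * R₀ with hR
  have hR' : 0 ≤ R := by positivity
  refine ⟨Real.exp (-(2 * R)), Real.exp_pos _, Real.exp_le_one_iff.2 (by linarith),
    fun x hx hphi w => ?_⟩
  have hr : ∀ i, |(bas K).repr (Lg x) i| ≤ 1 := by
    intro i
    refine tent_ne_zero fun h0 => hphi ?_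
    unfold phi
    exact Finset.prod_eq_zero (Finset.mem_univ i) h0
  have hL : ∀ w, |Lg x w| ≤ R₀ := by
    intro w
    have e : Lg x w = ∑ i, (bas K).repr (Lg x) i * bas K i w := by
      conv_lhs => rw [← (bas K).sum_repr (Lg x)]
      rw [Finset.sum_apply]
      rfl
    rw [e]
    refine (Finset.abs_sum_le_sum_abs _ _).trans (Finset.sum_le_sum fun i _ => ?_)
    rw [abs_mul]
    have h1 : |bas K i w| ≤ ∑ w, |bas K i w| :=
      Finset.single_le_sum (f := fun w => |bas K i w|) (fun _ _ => abs_nonneg _)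
        (Finset.mem_univ w)
    have h2 := abs_nonneg (bas K i w)
    have h3 := hr i
    nlinarith
  set l : ℝ := Real.log (Nm x) / finrank ℚ K with hl
  have hone : ∀ w : InfinitePlace K, (1 : ℝ) ≤ w.mult := fun w => InfinitePlace.one_le_mult
  have key : ∀ w : InfinitePlace K, |Real.log (w x) - l| ≤ R := by
    intro w
    have hw1 := hone w
    have hdiv : ∀ a b : ℝ, |(w.mult : ℝ) * a| ≤ b → |a| ≤ b := by
      intro a b h
      rw [abs_mul, Nat.abs_cast] at h
      have := abs_nonneg a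
      nlinarith
    by_cases hw : w = w₀
    · refine hdiv _ _ ?_
      have h1 := sum_Lg hx
      rw [← hl] at h1
      rw [hw]
      have h2 : ((w₀ : InfinitePlace K).mult : ℝ) * (Real.log ((w₀ : InfinitePlace K) x) - l) =
          -∑ w : {w : InfinitePlace K // w ≠ w₀}, Lg x w := by linarith
      rw [h2, abs_neg]
      refine (Finset.abs_sum_le_sum_abs _ _).trans ?_
      refine (Finset.sum_le_card_nsmul _ _ R₀ fun w _ => hL w).trans ?_
      rw [nsmul_eq_mul, Finset.card_univ, hR]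
      nlinarith
    · refine hdiv _ _ ?_
      have h1 := hL ⟨w, hw⟩
      refine le_trans h1 ?_
      rw [hR]
      have : (0 : ℝ) ≤ Fintype.card {w : InfinitePlace K // w ≠ w₀} := Nat.cast_nonneg _
      nlinarith
  obtain ⟨w', hw'⟩ := exists_place x
  have h1 := abs_le.1 (key w)
  have h2 := abs_le.1 (key w')
  have hwp : 0 < w x := (InfinitePlace.pos_iff).2 hx
  have hwp' : 0 < w' x := (InfinitePlace.pos_iff).2 hx
  rw [← hw', ← Real.log_le_log_iff (by positivity) hwp,
    Real.log_mul (Real.exp_pos _).ne' hwp'.ne', Real.log_exp]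
  linarith [h1.1, h2.2]

lemma Nm_ge {c : ℝ} (hc : 0 < c) {x : K} (hx : x ≠ 0)
    (h : ∀ w : InfinitePlace K, c * hs x ≤ w x) :
    finrank ℚ K * Real.log (c * hs x) ≤ Real.log (Nm x) := by
  rw [log_Nm hx, ← sum_mult, Finset.sum_mul]
  refine Finset.sum_le_sum fun w _ => mul_le_mul_of_nonneg_left ?_ (Nat.cast_nonneg _)
  exact Real.log_le_log (mul_pos hc (hs_pos hx)) (h w)

lemma place_neg (w : InfinitePlace K) (x : K) : w (-x) = w x := by
  rw [← InfinitePlace.norm_embedding_eq, ← InfinitePlace.norm_embedding_eq, map_neg, norm_neg]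

lemma phi_ne_zero_of_hh {k : (K →+* ℂ) → ℤ} {t : (K →+* ℂ) → ℝ} {s : ℂ} {x : K}
    (h : hh k t s x ≠ 0) : phi x ≠ 0 := by
  intro h0
  apply h
  unfold hh
  rw [h0]
  simp

/-- the signs at the real places agree -/
def SameSign (x y : K) : Prop := ∀ σ : K →+* ℝ, 0 < σ x ↔ 0 < σ y

lemma Close.sign {δ : ℝ} {x y : K} (h : Close δ x y) (hy : y ≠ 0) (hδ : δ ≤ 1 / 2) :
    SameSign x y := by
  intro σ
  have h1 := h.emb ((algebraMap ℝ ℂ).comp σ)
  have h2 : |σ x - σ y| ≤ δ * |σ y| := by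
    have h3 : ‖((σ x : ℝ) : ℂ) - ((σ y : ℝ) : ℂ)‖ ≤ δ * ‖((σ y : ℝ) : ℂ)‖ := h1
    rwa [← Complex.ofReal_sub, Complex.norm_real, Complex.norm_real] at h3
  have hy' : σ y ≠ 0 := (map_ne_zero σ).2 hy
  have h3 := abs_pos.2 hy'
  have h4 : |σ x - σ y| < |σ y| := by nlinarith
  rcases lt_or_gt_of_ne hy' with h5 | h5
  · rw [abs_of_neg h5] at h4
    have := (abs_lt.1 h4).2
    constructor
    · intro h6; linarith
    · intro h6; linarith
  · rw [abs_of_pos h5] at h4
    have := (abs_lt.1 h4).1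
    constructor
    · intro _; exact h5
    · intro _; linarith

/-- **Comparison of nearby points.** -/
theorem hh_near (k : (K →+* ℂ) → ℤ) (t : (K →+* ℂ) → ℝ) (B C₀ : ℝ) (hB : 0 ≤ B) (hC₀ : 0 ≤ C₀) :
    ∃ C R : ℝ, 0 ≤ C ∧ 1 ≤ R ∧ ∀ x y : K, x ≠ 0 → y ≠ 0 → (∀ w : InfinitePlace K, w (x - y) ≤ C₀) →
      R ≤ hs y → (phi x ≠ 0 ∨ phi y ≠ 0 → SameSign x y) ∧ ∀ s : ℂ, ‖s‖ ≤ B → 0 ≤ s.re →
        ‖hh k t s x - hh k t s y‖ ≤ C * hs y ^ (-(finrank ℚ K * s.re) - 1) := by
  obtain ⟨C₁, δ₀, hC₁, hδ₀, hδ₀', hcl⟩ := hh_close k t B hB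
  obtain ⟨c, hc, hc1, hsup⟩ := exists_support K
  have hn := finrank_pos' (K := K)
  set c₂ : ℝ := c / 4 with hc₂
  have hc₂p : 0 < c₂ := by positivity
  have hc₂1 : c₂ ≤ 1 := by linarith
  set R : ℝ := 4 * C₀ / c + C₀ / (c₂ * δ₀) + 2 * C₀ + 1 with hR
  refine ⟨C₁ * C₀ * c₂⁻¹ * Real.exp (finrank ℚ K * B * -Real.log c₂), R, by positivity, ?_, ?_⟩
  · rw [hR]
    have : 0 ≤ 4 * C₀ / c + C₀ / (c₂ * δ₀) + 2 * C₀ := by positivity
    linarith
  intro x y hx hy hxy hRy
  have hRy1 : 4 * C₀ ≤ c * hs y := by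
    have h1 : 4 * C₀ / c ≤ hs y := by
      refine le_trans ?_ hRy
      rw [hR]
      have : 0 ≤ C₀ / (c₂ * δ₀) + 2 * C₀ + 1 := by positivity
      linarith
    rw [div_le_iff₀ hc] at h1
    linarith
  have hRy2 : C₀ ≤ δ₀ * (c₂ * hs y) := by
    have h1 : C₀ / (c₂ * δ₀) ≤ hs y := by
      refine le_trans ?_ hRy
      rw [hR]
      have : 0 ≤ 4 * C₀ / c + 2 * C₀ + 1 := by positivity
      linarith
    rw [div_le_iff₀ (by positivity)] at h1
    linarith
  have hRy3 : 2 * C₀ ≤ hs y := by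
    refine le_trans ?_ hRy
    rw [hR]
    have : 0 ≤ 4 * C₀ / c + C₀ / (c₂ * δ₀) + 1 := by positivity
    linarith
  have hRy4 : 1 ≤ hs y := by
    refine le_trans ?_ hRy
    rw [hR]
    have : 0 ≤ 4 * C₀ / c + C₀ / (c₂ * δ₀) + 2 * C₀ := by positivity
    linarith
  have hyp : 0 < hs y := hs_pos hy
  -- all the places of `y` are large
  have hbig : phi x ≠ 0 ∨ phi y ≠ 0 → ∀ w : InfinitePlace K, c₂ * hs y ≤ w y := by
    intro h w
    rcases h with h | h
    · have h1 := hsup x hx h w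
      have h2 : hs y ≤ hs x + C₀ := by
        refine hs_le fun w' => ?_
        have e : y = x + -(x - y) := by ring
        have h3 : w' y ≤ w' x + w' (-(x - y)) := by
          conv_lhs => rw [e]
          exact place_add_le _ _ _
        rw [place_neg] at h3
        linarith [hxy w', place_le_hs w' x]
      have h3 : w x ≤ w y + C₀ := by
        have e : x = y + (x - y) := by ring
        have h4 : w x ≤ w y + w (x - y) := by
          conv_lhs => rw [e]
          exact place_add_le _ _ _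
        linarith [hxy w]
      have h5 : c * (hs y - C₀) ≤ c * hs x := mul_le_mul_of_nonneg_left (by linarith) hc.le
      have h6 : c * C₀ ≤ C₀ := by nlinarith
      rw [hc₂]
      nlinarith
    · have h1 := hsup y hy h w
      rw [hc₂]
      nlinarith
  have hclose : phi x ≠ 0 ∨ phi y ≠ 0 → Close (C₀ / (c₂ * hs y)) x y := by
    intro h w
    refine (hxy w).trans ?_
    rw [div_mul_eq_mul_div, le_div_iff₀ (by positivity)]
    exact mul_le_mul_of_nonneg_left (hbig h w) hC₀
  have hδle : C₀ / (c₂ * hs y) ≤ δ₀ := by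
    rw [div_le_iff₀ (by positivity)]
    exact hRy2
  refine ⟨fun h => (hclose h).sign hy (hδle.trans hδ₀'), fun s hsn hs0 => ?_⟩
  by_cases h : phi x ≠ 0 ∨ phi y ≠ 0
  · have h1 := hcl s x y _ hsn (hclose h) hx hy (by positivity) hδle
    refine h1.trans ?_
    have h2 := Nm_ge hc₂p hy (hbig h)
    rw [Real.log_mul hc₂p.ne' hyp.ne'] at h2
    have hlc : Real.log c₂ ≤ 0 := Real.log_nonpos hc₂p.le hc₂1
    have hsB : s.re ≤ B := (Complex.re_le_norm s).trans hsn
    have h3 : Real.exp (-s.re * Real.log (Nm y)) ≤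
        Real.exp (finrank ℚ K * B * -Real.log c₂) * hs y ^ (-(finrank ℚ K * s.re)) := by
      rw [Real.rpow_def_of_pos hyp, ← Real.exp_add, Real.exp_le_exp]
      have h4 : s.re * (finrank ℚ K * (Real.log c₂ + Real.log (HS.hs y))) ≤
          s.re * Real.log (Nm y) := mul_le_mul_of_nonneg_left h2 hs0
      have h5 : finrank ℚ K * s.re * -Real.log c₂ ≤ finrank ℚ K * B * -Real.log c₂ := by
        refine mul_le_mul_of_nonneg_right ?_ (by linarith)
        exact mul_le_mul_of_nonneg_left hsB hn.le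
      nlinarith
    have h6 : hs y ^ (-(finrank ℚ K * s.re) - 1) = hs y ^ (-(finrank ℚ K * s.re)) * (hs y)⁻¹ := by
      rw [Real.rpow_sub hyp, Real.rpow_one, div_eq_mul_inv]
    rw [h6]
    have h7 : C₁ * (C₀ / (c₂ * HS.hs y)) = C₁ * C₀ * c₂⁻¹ * (HS.hs y)⁻¹ := by
      field_simp
    rw [h7]
    have h8 : 0 ≤ C₁ * C₀ * c₂⁻¹ * (HS.hs y)⁻¹ := by positivity
    calc _ ≤ C₁ * C₀ * c₂⁻¹ * (HS.hs y)⁻¹ * (Real.exp (finrank ℚ K * B * -Real.log c₂) *
          HS.hs y ^ (-(finrank ℚ K * s.re))) := mul_le_mul_of_nonneg_left h3 h8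
      _ = _ := by ring
  · push Not at h
    have e1 : hh k t s x = 0 := by unfold hh; rw [h.1]; simp
    have e2 : hh k t s y = 0 := by unfold hh; rw [h.2]; simp
    rw [e1, e2, sub_zero, norm_zero]
    positivity

end field

end Pool.Agent.N172.HS
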