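import Mathlib

/-!
# A Lipschitz partition of unity for the units of a number field
-/

set_option autoImplicit false

namespace Pool.Agent.N172.HS

open NumberField Module
open NumberField.Units NumberField.Units.dirichletUnitTheorem

/-- the tent function -/
noncomputable def tent (c : ℝ) : ℝ := max 0 (1 - |c|)

lemma tent_nonneg (c : ℝ) : 0 ≤ tent c := le_max_left _ _

lemma tent_le_one (c : ℝ) : tent c ≤ 1 := by
  unfold tent
  refine max_le zero_le_one ?_
  linarith [abs_nonneg c]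

lemma tent_eq_zero {c : ℝ} (h : 1 ≤ |c|) : tent c = 0 := by
  unfold tent
  rw [max_eq_left]
  linarith

lemma tent_ne_zero {c : ℝ} (h : tent c ≠ 0) : |c| ≤ 1 := by
  by_contra h1
  exact h (tent_eq_zero (not_le.1 h1).le)

lemma abs_tent_sub_le (a b : ℝ) : |tent a - tent b| ≤ |a - b| := by
  unfold tent
  refine (abs_max_sub_max_le_max _ _ _ _).trans ?_
  rw [sub_self, abs_zero]
  refine max_le (abs_nonneg _) ?_
  rw [show 1 - |a| - (1 - |b|) = |b| - |a| by ring, abs_sub_comm a b]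
  exact abs_abs_sub_abs_le _ _

lemma tent_two (c : ℝ) {m : ℤ} (h : tent (c + m) ≠ 0) : m = -⌊c⌋ ∨ m = -⌊c⌋ - 1 := by
  have h1 : |c + m| < 1 := by
    by_contra h1
    exact h (tent_eq_zero (not_lt.1 h1))
  rw [abs_lt] at h1
  have h2 := Int.floor_le c
  have h3 := Int.lt_floor_add_one c
  have h4 : -2 < m + ⌊c⌋ := by
    have : (-2 : ℝ) < ((m + ⌊c⌋ : ℤ) : ℝ) := by push_cast; linarith
    exact_mod_cast this
  have h5 : m + ⌊c⌋ < 1 := by
    have : ((m + ⌊c⌋ : ℤ) : ℝ) < 1 := by push_cast; linarith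
    exact_mod_cast this
  omega

/-- the two integers -/
noncomputable def two (c : ℝ) : Finset ℤ := {-⌊c⌋, -⌊c⌋ - 1}

lemma tent_notMem {c : ℝ} {m : ℤ} (h : m ∉ two c) : tent (c + m) = 0 := by
  by_contra h1
  apply h
  unfold two
  rw [Finset.mem_insert, Finset.mem_singleton]
  exact tent_two c h1

lemma sum_two (c : ℝ) : ∑ m ∈ two c, tent (c + m) = 1 := by
  unfold two
  rw [Finset.sum_pair (by omega)]
  have h2 := Int.floor_le c
  have h3 := Int.lt_floor_add_one c
  have e1 : tent (c + ((-⌊c⌋ : ℤ) : ℝ)) = 1 - (c - ⌊c⌋) := by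
    unfold tent
    push_cast
    rw [abs_of_nonneg (by linarith), max_eq_right (by linarith)]
    ring
  have e2 : tent (c + ((-⌊c⌋ - 1 : ℤ) : ℝ)) = c - ⌊c⌋ := by
    unfold tent
    push_cast
    rw [abs_of_nonpos (by linarith), max_eq_right (by linarith)]
    ring
  rw [e1, e2]
  ring

lemma sum_pi {ι : Type} [Fintype ι] [DecidableEq ι] (c : ι → ℝ) :
    ∑ e ∈ Fintype.piFinset (fun i => two (c i)), ∏ i, tent (c i + e i) = 1 := by
  rw [← Finset.prod_univ_sum (fun i => two (c i)) (fun i m => tent (c i + (m : ℝ)))]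
  exact Finset.prod_eq_one fun i _ => sum_two (c i)

lemma prod_tent_notMem {ι : Type} [Fintype ι] [DecidableEq ι] {c : ι → ℝ} {e : ι → ℤ}
    (h : e ∉ Fintype.piFinset (fun i => two (c i))) : ∏ i, tent (c i + e i) = 0 := by
  rw [Fintype.mem_piFinset] at h
  push Not at h
  obtain ⟨i, hi⟩ := h
  exact Finset.prod_eq_zero (Finset.mem_univ i) (tent_notMem hi)

section field

variable {K : Type} [Field K] [NumberField K]

/-- the absolute norm -/
noncomputable def Nm (x : K) : ℝ := |(Algebra.norm ℚ x : ℚ)|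

lemma Nm_nonneg (x : K) : 0 ≤ Nm x := by unfold Nm; positivity

lemma Nm_pos {x : K} (hx : x ≠ 0) : 0 < Nm x := by
  unfold Nm
  have : Algebra.norm ℚ x ≠ 0 := Algebra.norm_ne_zero_iff.2 hx
  positivity

lemma Nm_mul (x y : K) : Nm (x * y) = Nm x * Nm y := by
  unfold Nm
  rw [map_mul]
  push_cast
  exact abs_mul _ _

lemma Nm_unit (u : (𝓞 K)ˣ) : Nm ((u : 𝓞 K) : K) = 1 := by
  have h := NumberField.isUnit_iff_norm.1 u.isUnit
  unfold Nm
  have h2 : |(Algebra.norm ℚ (((u : 𝓞 K)) : K))| = 1 := by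
    have h3 := h
    rw [RingOfIntegers.coe_norm] at h3
    exact h3
  exact_mod_cast h2

/-- the logarithmic map -/
noncomputable def Lg (x : K) : logSpace K := fun w =>
  (w.1.mult : ℝ) * (Real.log (w.1 x) - Real.log (Nm x) / finrank ℚ K)

lemma Lg_unit_mul (u : (𝓞 K)ˣ) {x : K} (hx : x ≠ 0) :
    Lg (((u : 𝓞 K) : K) * x) = logEmbedding K (Additive.ofMul u) + Lg x := by
  funext w
  have hu : ((u : 𝓞 K) : K) ≠ 0 := RingOfIntegers.coe_ne_zero_iff.mpr u.ne_zero
  have h1 : w.1 ((u : 𝓞 K) : K) ≠ 0 := (map_ne_zero w.1).2 hu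
  have h2 : w.1 x ≠ 0 := (map_ne_zero w.1).2 hx
  rw [Pi.add_apply, logEmbedding_component]
  unfold Lg
  rw [map_mul, Real.log_mul h1 h2, Nm_mul, Nm_unit, one_mul]
  ring

/-- the basis of the logarithmic space given by the fundamental units -/
noncomputable def bas (K : Type) [Field K] [NumberField K] : Basis (Fin (rank K)) ℝ (logSpace K) :=
  basisOfIsMaxRank (isMaxRank_fundSystem K)

lemma bas_apply (i : Fin (rank K)) : bas K i = logEmbedding K (Additive.ofMul (fundSystem K i)) := by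
  unfold bas
  rw [basisOfIsMaxRank_apply]

/-- the partition of unity -/
noncomputable def phi (x : K) : ℝ := ∏ i, tent ((bas K).repr (Lg x) i)

lemma phi_nonneg (x : K) : 0 ≤ phi x := Finset.prod_nonneg fun _ _ => tent_nonneg _

lemma phi_le_one (x : K) : phi x ≤ 1 :=
  Finset.prod_le_one (fun _ _ => tent_nonneg _) fun _ _ => tent_le_one _

lemma repr_prod (e : Fin (rank K) → ℤ) (ζ : torsion K) :
    logEmbedding K (Additive.ofMul ((ζ : (𝓞 K)ˣ) * ∏ i, fundSystem K i ^ e i)) =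
      ∑ i, (e i : ℝ) • bas K i := by
  rw [ofMul_mul, map_add, logEmbedding_eq_zero_iff.2 ζ.2, zero_add, ofMul_prod, map_sum]
  refine Finset.sum_congr rfl fun i _ => ?_
  rw [ofMul_zpow, map_zsmul, bas_apply]
  exact (Int.cast_smul_eq_zsmul ℝ _ _).symm

lemma repr_unit (e : Fin (rank K) → ℤ) (ζ : torsion K) {x : K} (hx : x ≠ 0) (i : Fin (rank K)) :
    (bas K).repr (Lg (((((ζ : (𝓞 K)ˣ) * ∏ i, fundSystem K i ^ e i : (𝓞 K)ˣ) : 𝓞 K) : K) * x)) i =
      (bas K).repr (Lg x) i + e i := by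
  rw [Lg_unit_mul _ hx, repr_prod, map_add, Finsupp.add_apply, add_comm]
  congr 1
  rw [map_sum, Finsupp.finsetSum_apply]
  simp only [map_smul, Basis.repr_self, Finsupp.smul_single, smul_eq_mul, mul_one]
  rw [Finset.sum_eq_single i]
  · simp
  · intro j _ hj
    exact Finsupp.single_eq_of_ne (Ne.symm hj)
  · intro h
    exact absurd (Finset.mem_univ i) h

/-- the units -/
noncomputable def unitEquiv (K : Type) [Field K] [NumberField K] :
    torsion K × (Fin (rank K) → ℤ) ≃ (𝓞 K)ˣ :=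
  Equiv.ofBijective (fun p => (p.1 : (𝓞 K)ˣ) * ∏ i, fundSystem K i ^ p.2 i) ⟨fun p q h => by
    obtain ⟨r, -, hr⟩ := exist_unique_eq_mul_prod K ((p.1 : (𝓞 K)ˣ) * ∏ i, fundSystem K i ^ p.2 i)
    exact (hr p rfl).trans (hr q h).symm, fun u => by
    obtain ⟨r, hr, -⟩ := exist_unique_eq_mul_prod K u
    exact ⟨r, hr.symm⟩⟩

/-- **Partition of unity** -/
theorem hasSum_phi {x : K} (hx : x ≠ 0) :
    HasSum (fun u : (𝓞 K)ˣ => phi (((u : 𝓞 K) : K) * x)) (Nat.card (torsion K)) := by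
  classical
  let := Fintype.ofFinite (torsion K)
  rw [Nat.card_eq_fintype_card]
  rw [← (unitEquiv K).hasSum_iff]
  have key : ∀ p : torsion K × (Fin (rank K) → ℤ),
      ((fun u : (𝓞 K)ˣ => phi (((u : 𝓞 K) : K) * x)) ∘ unitEquiv K) p =
        ∏ i, tent ((bas K).repr (Lg x) i + p.2 i) := by
    intro p
    simp only [Function.comp_apply]
    unfold phi
    refine Finset.prod_congr rfl fun i _ => ?_
    congr 1
    exact repr_unit p.2 p.1 hx i
  have h1 : HasSum ((fun u : (𝓞 K)ˣ => phi (((u : 𝓞 K) : K) * x)) ∘ unitEquiv K)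
      (∑ p ∈ Finset.univ ×ˢ Fintype.piFinset (fun i => two ((bas K).repr (Lg x) i)),
        ((fun u : (𝓞 K)ˣ => phi (((u : 𝓞 K) : K) * x)) ∘ unitEquiv K) p) := by
    refine hasSum_sum_of_ne_finset_zero fun p hp => ?_
    rw [Finset.mem_product] at hp
    push Not at hp
    rw [key]
    exact prod_tent_notMem (hp (Finset.mem_univ _))
  convert h1 using 1
  rw [Finset.sum_product]
  simp_rw [key]
  rw [sum_pi]
  simp

end field

end Pool.Agent.N172.HS
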